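import Pool.Agent.Full.Walk.Basic

/-!
# Counting through strands: sub-bands and boxes
-/

set_option autoImplicit false

namespace Full.Walk

open Finset

/-- horizontal shift of a state -/
def shift (c : ℤ) (t : St) : St := ⟨t.i + c, t.j, t.d⟩

variable {b : ℤ → ℤ → Bool}

lemma pos_shift {c : ℤ} (hb : ∀ i j, b (i + c) j = b i j) (t : St) :
    ∀ n : ℕ, pos b (shift c t) n = shift c (pos b t n)
  | 0 => rfl
  | n + 1 => by
    rw [pos_succ, pos_succ, pos_shift hb t n]
    unfold step shift
    simp only [hb]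
    ext
    · simp only; ring
    · rfl
    · rfl

lemma Thr.shift {c : ℤ} (hb : ∀ i j, b (i + c) j = b i j) {s x : ℤ} {K : ℕ} (h : Thr b s K x) :
    Thr b s K (x + c) := by
  obtain ⟨e, ⟨n, h1, h2, h3⟩, h4⟩ := h
  have key : ∀ m, pos b ⟨x + c, s, .N⟩ m = Full.Walk.shift c (pos b ⟨x, s, .N⟩ m) :=
    fun m => pos_shift hb ⟨x, s, .N⟩ m
  refine ⟨Full.Walk.shift c e, ⟨n, fun m hm => ?_, ?_, ?_⟩, h4⟩
  · rw [key]; exact h1 m hm
  · rw [key]; exact h2
  · rw [key, h3]

open scoped Classical in
/-- the number of the strands which cross the rows `s, ..., s + K - 1` of the cylinder with `L`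
columns -/
noncomputable def tcount (b : ℤ → ℤ → Bool) (L : ℕ) (s : ℤ) (K : ℕ) : ℕ :=
  ((range L).filter (fun x : ℕ => Thr b s K x)).card

lemma tcount_le (b : ℤ → ℤ → Bool) (L : ℕ) (s : ℤ) (K : ℕ) : tcount b L s K ≤ L := by
  classical
  unfold tcount
  exact (card_filter_le _ _).trans (card_range L).le

lemma per_mul {L : ℕ} (hb : ∀ i j, b (i + L) j = b i j) (k : ℤ) (i j : ℤ) :
    b (i + k * L) j = b i j := by
  have h1 : Function.Periodic (fun i => b i j) (L : ℤ) := fun i => hb i j
  exact h1.int_mul k i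

lemma not_back {s0 : ℤ} {K : ℕ} {y : ℤ} {t : St} {k : ℕ} (hk : 0 < k)
    (h : (⟨y, s0, .N⟩ : St) = pos b t k)
    (hs : strip s0 K (pos b t (k - 1)).i (pos b t (k - 1)).j) : False := by
  obtain ⟨l, rfl⟩ := Nat.exists_eq_succ_of_ne_zero (by omega : k ≠ 0)
  have h1 : pos b t l = back b ⟨y, s0, .N⟩ := by
    rw [h]
    exact (back_pos_succ b t l).symm
  have h2 : l + 1 - 1 = l := rfl
  change strip s0 K (pos b t l).i (pos b t l).j at hs
  rw [h1] at hs
  unfold strip back at hs
  simp [Dir.dy] at hs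

/-- a sub-band is crossed by at least as many strands -/
theorem tcount_sub {L : ℕ} (hb : ∀ i j, b (i + L) j = b i j) {s0 s : ℤ} {K h : ℕ} (hs : s0 ≤ s)
    (hh : 1 ≤ h) (hK : s + h ≤ s0 + K) : tcount b L s0 K ≤ tcount b L s h := by
  classical
  rcases Nat.eq_zero_or_pos L with hL | hL
  · subst hL
    unfold tcount
    simp
  have hL' : (0 : ℤ) < L := by exact_mod_cast hL
  have h1 : ∀ x : ℕ, Thr b s0 K x → ∃ m x', pos b ⟨x, s0, .N⟩ m = ⟨x', s, .N⟩ ∧ Thr b s h x' ∧
      ∀ k ≤ m, strip s0 K (pos b ⟨x, s0, .N⟩ k).i (pos b ⟨x, s0, .N⟩ k).j :=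
    fun x hx => hx.sub hs hh hK
  choose! m x' h2 h3 h4 using h1
  unfold tcount
  apply card_le_card_of_injOn (fun x => (x' x % L).toNat)
  · intro x hx
    rw [mem_coe, mem_filter, mem_range] at hx
    have e1 := Int.emod_nonneg (x' x) hL'.ne'
    have e2 := Int.emod_lt_of_pos (x' x) hL'
    rw [mem_coe, mem_filter, mem_range]
    refine ⟨by show (x' x % L).toNat < L; omega, ?_⟩
    have e3 : (((x' x % L).toNat : ℕ) : ℤ) = x' x + (-(x' x / L)) * L := by
      rw [Int.toNat_of_nonneg e1, Int.emod_def]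
      ring
    rw [e3]
    exact (h3 x hx.2).shift (per_mul hb _)
  · intro x hx y hy hxy
    rw [mem_coe, mem_filter, mem_range] at hx hy
    have e1 := Int.emod_nonneg (x' x) hL'.ne'
    have e2 := Int.emod_nonneg (x' y) hL'.ne'
    have e3 : x' x % L = x' y % L := by
      have h : (x' x % L).toNat = (x' y % L).toNat := hxy
      omega
    obtain ⟨k, hk⟩ : ∃ k : ℤ, x' x = x' y + k * L := by
      refine ⟨x' x / L - x' y / L, ?_⟩
      rw [Int.emod_def, Int.emod_def] at e3
      linarith
    have hbk := per_mul hb k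
    have e4 : pos b ⟨x, s0, .N⟩ (m x) = pos b ⟨y + k * L, s0, .N⟩ (m y) := by
      have e5 := pos_shift hbk ⟨y, s0, .N⟩ (m y)
      rw [h2 y hy.2] at e5
      rw [h2 x hx.2, hk]
      exact e5.symm
    have fin : (x : ℤ) = y + k * L → x = y := by
      intro h
      have f1 : (x : ℤ) < L := by exact_mod_cast hx.1
      have f2 : (y : ℤ) < L := by exact_mod_cast hy.1
      have f3 : k = 0 := by
        by_contra hk0
        rcases lt_or_gt_of_ne hk0 with hneg | hpos
        · nlinarith
        · nlinarith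
      subst f3
      omega
    rcases meet b e4 with ⟨l, g1, g2⟩ | ⟨l, g1, g2⟩
    · rcases Nat.eq_zero_or_pos l with h0 | h0
      · subst h0
        rw [pos_zero] at g1
        injection g1 with g3
        exact fin g3.symm
      · exact (not_back h0 g1 (h4 x hx.2 (l - 1) (by omega))).elim
    · rcases Nat.eq_zero_or_pos l with h0 | h0
      · subst h0
        rw [pos_zero] at g1
        injection g1 with g3
        exact fin g3
      · have e6 := pos_shift hbk ⟨y, s0, .N⟩ (l - 1)
        have e7 := h4 y hy.2 (l - 1) (by omega)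
        refine (not_back (K := K) h0 g1 ?_).elim
        have e8 : pos b ⟨y + k * L, s0, .N⟩ (l - 1) = Full.Walk.shift (k * L) (pos b ⟨y, s0, .N⟩ (l - 1)) := e6
        rw [e8]
        exact e7

open scoped Classical in
/-- the number of the strands from the box `[a, a + h)` of the floor which leave the window
`[a - h, a + 2h) × [s, s + h)`, and not through the floor -/
noncomputable def Yc (b : ℤ → ℤ → Bool) (a s : ℤ) (h : ℕ) : ℕ :=
  ((Ico a (a + h)).filter (fun x : ℤ => Far b (a - h) (a + 2 * h) s h x)).card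

open scoped Classical in
/-- the same for the strands with the parity `ε` -/
noncomputable def Ye (ε : ℤ) (b : ℤ → ℤ → Bool) (a s : ℤ) (h : ℕ) : ℕ :=
  ((Ico a (a + h)).filter (fun x : ℤ => (x + s - ε) % 2 = 0 ∧ Far b (a - h) (a + 2 * h) s h x)).card

lemma Yc_le (b : ℤ → ℤ → Bool) (a s : ℤ) (h : ℕ) : Yc b a s h ≤ Ye 0 b a s h + Ye 1 b a s h := by
  classical
  unfold Yc Ye
  rw [← card_union_of_disjoint]
  · apply card_le_card
    intro x hx
    rw [mem_filter] at hx
    rw [mem_union, mem_filter, mem_filter]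
    rcases Int.emod_two_eq_zero_or_one (x + s) with h1 | h1
    · left
      exact ⟨hx.1, by omega, hx.2⟩
    · right
      exact ⟨hx.1, by omega, hx.2⟩
  · rw [disjoint_left]
    intro x h1 h2
    rw [mem_filter] at h1 h2
    omega

lemma Yc_congr {b b' : ℤ → ℤ → Bool} {a s : ℤ} {h : ℕ}
    (hb : ∀ i j, win (a - h) (a + 2 * h) s h i j → b i j = b' i j) : Yc b a s h = Yc b' a s h := by
  classical
  unfold Yc
  congr 1
  apply filter_congr
  intro x _
  exact ⟨fun h1 => h1.congr hb, fun h1 => h1.congr (fun i j hw => (hb i j hw).symm)⟩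

lemma Ye_congr {ε : ℤ} {b b' : ℤ → ℤ → Bool} {a s : ℤ} {h : ℕ}
    (hb : ∀ i j, win (a - h) (a + 2 * h) s h i j → b i j = b' i j) : Ye ε b a s h = Ye ε b' a s h := by
  classical
  unfold Ye
  congr 1
  apply filter_congr
  intro x _
  exact and_congr_right fun _ =>
    ⟨fun h1 => h1.congr hb, fun h1 => h1.congr (fun i j hw => (hb i j hw).symm)⟩

/-- the strands which cross a band of height `h` are counted by the boxes -/
theorem tcount_boxes (b : ℤ → ℤ → Bool) (L : ℕ) (s : ℤ) (h B : ℕ) (hB : L ≤ B * h) :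
    tcount b L s h ≤ ∑ k ∈ range B, Yc b ((k : ℤ) * h) s h := by
  classical
  unfold tcount Yc
  rcases Nat.eq_zero_or_pos h with h0 | h0
  · subst h0
    have : L = 0 := by omega
    subst this
    simp
  calc ((range L).filter (fun x : ℕ => Thr b s h x)).card
      ≤ ((range B).biUnion (fun k => (Ico ((k : ℤ) * h) ((k : ℤ) * h + h)).filter
          (fun x : ℤ => Far b ((k : ℤ) * h - h) ((k : ℤ) * h + 2 * h) s h x))).card := by
        apply card_le_card_of_injOn (fun x : ℕ => (x : ℤ))
        · intro x hx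
          rw [mem_coe, mem_filter, mem_range] at hx
          rw [mem_coe, mem_biUnion]
          have e1 : x / h < B := by
            rw [Nat.div_lt_iff_lt_mul h0]
            omega
          have e2 := Nat.div_add_mod x h
          have e3 := Nat.mod_lt x h0
          refine ⟨x / h, mem_range.2 e1, mem_filter.2 ⟨mem_Ico.2 ⟨?_, ?_⟩, hx.2.far⟩⟩
          · have : h * (x / h) ≤ x := by omega
            have h3 : ((h * (x / h) : ℕ) : ℤ) ≤ x := by exact_mod_cast this
            push_cast at h3 ⊢
            linarith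
          · have : x < h * (x / h) + h := by omega
            have h3 : (x : ℤ) < ((h * (x / h) + h : ℕ) : ℤ) := by exact_mod_cast this
            push_cast at h3 ⊢
            linarith
        · intro x _ y _ hxy
          have h3 : (x : ℤ) = y := hxy
          exact_mod_cast h3
    _ ≤ _ := card_biUnion_le

end Full.Walk
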