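import Pool.Agent.Full.Walk.Unif
import Pool.Agent.Full.Walk.Count
import Pool.Agent.Full.Mom.Tail

/-!
# Tails and exponential moments of the number of strands

`Cyl L K τ`: the bits of the tiles of the cylinder with `L` columns and `K` rows are indexed by `ι`.
-/

set_option autoImplicit false
set_option linter.unusedSectionVars false

namespace Full.Walk

open Finset Full.Mom
open Pool.Agent.Helper69.RSW (P Up P_mono)

variable {ι : Type*} [Fintype ι] [DecidableEq ι]

/-- the bits of the tiles -/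
def bits (τ : ℤ → ℤ → ι) (ω : ι → Bool) : ℤ → ℤ → Bool := fun i j => ω (τ i j)

/-- `τ` indexes the tiles of the cylinder with `L` columns and the rows `0, ..., K - 1` -/
structure Cyl (L K : ℕ) (τ : ℤ → ℤ → ι) : Prop where
  per : ∀ i j, τ (i + L) j = τ i j
  inj : ∀ i j i' j' : ℤ, 0 ≤ j → j < K → 0 ≤ j' → j' < K → τ i j = τ i' j' →
    j = j' ∧ ∃ k : ℤ, i' = i + k * L

/-- the absolute constant of the Russo-Seymour-Welsh input -/
def RswQ (q : ℝ) : Prop := 0 ≤ q ∧ q < 1 ∧ ∀ (ε a s : ℤ) (h : ℕ), 1 ≤ h →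
  P (winF (a - h) (a + 2 * h) s h) (Out ε a s h) ≤ q

section window
variable {τ : ℤ → ℤ → ι} {a s : ℤ} {h : ℕ}

/-- the tiles of the window have different bits -/
def WInj (τ : ℤ → ℤ → ι) (a s : ℤ) (h : ℕ) : Prop :=
  ∀ t ∈ winF (a - h) (a + 2 * h) s h, ∀ t' ∈ winF (a - h) (a + 2 * h) s h,
    τ t.1 t.2 = τ t'.1 t'.2 → t = t'

lemma Cyl.winj {L K : ℕ} (hC : Cyl L K τ) (hs : 0 ≤ s) (hK : s + h ≤ K) (hL : 3 * h ≤ L) :
    WInj τ a s h := by
  intro t ht t' ht' he
  rw [mem_winF] at ht ht'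
  obtain ⟨h1, k, h2⟩ := hC.inj t.1 t.2 t'.1 t'.2 (by omega) (by omega) (by omega) (by omega) he
  have hL' : (3 * h : ℤ) ≤ L := by exact_mod_cast hL
  have h3 : k = 0 := by
    by_contra hk
    rcases lt_or_gt_of_ne hk with hneg | hpos
    · have : k * (L : ℤ) ≤ -1 * L := by nlinarith
      omega
    · have : 1 * (L : ℤ) ≤ k * L := by nlinarith
      omega
  subst h3
  exact Prod.ext (by omega) h1

/-- **the tail of the number of the strands which leave a window** -/
theorem pr_Ye_le {q : ℝ} (hq : RswQ q) (ε : ℤ) (hh : 1 ≤ h) (hi : WInj τ a s h) (k : ℕ) :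
    pr (fun ω : ι → Bool => k ≤ Ye ε (bits τ ω) a s h) ≤ q ^ k := by
  classical
  have h1 : pr (fun ω : ι → Bool => k ≤ Ye ε (bits τ ω) a s h) ≤
      pr (fun ω : ι → Bool => Full.Perc.Many (Out ε a s h) k
        (oset ε (fun i j => ω (τ i j)) (winF (a - h) (a + 2 * h) s h))) := by
    apply pr_mono
    intro ω hk
    refine Full.Perc.many_of_le hk ?_
    unfold Ye
    apply many_out
    intro x hx
    rw [mem_filter, mem_Ico] at hx
    exact ⟨hx.1.1, hx.1.2, hx.2.1, hx.2.2⟩
  refine h1.trans ?_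
  rw [pr_oset τ ε _ hi]
  refine (Full.Perc.bk_many _ (up_Out ε a s h) k).trans ?_
  exact pow_le_pow_left₀ (Pool.Agent.Helper69.RSW.P_nonneg _ _) (hq.2.2 ε a s h hh) k

/-- exponential moments for one window -/
theorem avg_Yc_le {q z : ℝ} (hq : RswQ q) (hz : 1 ≤ z) (hzq : z ^ 2 * q < 1) (hh : 1 ≤ h)
    (hi : WInj τ a s h) :
    avg (fun ω : ι → Bool => z ^ Yc (bits τ ω) a s h) ≤ 1 + 1 / (1 - z ^ 2 * q) := by
  have hz2 : 1 ≤ z ^ 2 := one_le_pow₀ hz
  have h1 : ∀ ε : ℤ, avg (fun ω : ι → Bool => (z ^ 2) ^ Ye ε (bits τ ω) a s h) ≤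
      1 + 1 / (1 - z ^ 2 * q) := by
    intro ε
    refine avg_pow_le zero_le_one hq.1 hz2 hzq ?_
    intro j _
    rw [one_mul]
    exact pr_Ye_le hq ε hh hi j
  have h2 : ∀ ω : ι → Bool, z ^ Yc (bits τ ω) a s h ≤
      (1 / 2) * ((z ^ 2) ^ Ye 0 (bits τ ω) a s h) + (1 / 2) * ((z ^ 2) ^ Ye 1 (bits τ ω) a s h) := by
    intro ω
    calc z ^ Yc (bits τ ω) a s h ≤ z ^ (Ye 0 (bits τ ω) a s h + Ye 1 (bits τ ω) a s h) :=
          pow_le_pow_right₀ hz (Yc_le _ _ _ _)
      _ = z ^ Ye 0 (bits τ ω) a s h * z ^ Ye 1 (bits τ ω) a s h := pow_add _ _ _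
      _ ≤ (1 / 2) * (z ^ Ye 0 (bits τ ω) a s h) ^ 2 + (1 / 2) * (z ^ Ye 1 (bits τ ω) a s h) ^ 2 := by
        nlinarith [sq_nonneg (z ^ Ye 0 (bits τ ω) a s h - z ^ Ye 1 (bits τ ω) a s h)]
      _ = _ := by rw [← pow_mul, ← pow_mul, mul_comm _ 2, mul_comm _ 2, pow_mul, pow_mul]
  refine (avg_mono h2).trans ?_
  rw [avg_add, avg_mul_left, avg_mul_left]
  have h3 := h1 0
  have h4 := h1 1
  linarith

end window

/-- exponential moments of a sum of block variables, the blocks are divided into `r` classes -/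
theorem avg_pow_classes {B r : ℕ} (cl : ℕ → ℕ) (hcl : ∀ k < B, cl k < r) (hr : 0 < r)
    {X : (ι → Bool) → ℕ} {A : ℕ → Set ι} {Y : ℕ → (ι → Bool) → ℕ}
    (hA : ∀ k < B, ∀ l < B, k ≠ l → cl k = cl l → Disjoint (A k) (A l))
    (hY : ∀ k < B, Dep (A k) (Y k)) (hX : ∀ ω, X ω ≤ ∑ k ∈ range B, Y k ω) {y D : ℝ}
    (hy : 1 ≤ y) (hD : 1 ≤ D) (h : ∀ k < B, avg (fun ω => (y ^ r) ^ Y k ω) ≤ D) :
    avg (fun ω => y ^ X ω) ≤ r * D ^ B := by
  classical
  have hy0 : 0 ≤ y := by linarith
  have h1 : ∀ ω, y ^ X ω ≤ ∑ c ∈ range r, ∏ k ∈ (range B).filter (fun k => cl k = c),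
      (y ^ r) ^ Y k ω := by
    intro ω
    have e1 : ∑ k ∈ range B, Y k ω = ∑ c ∈ range r, ∑ k ∈ (range B).filter (fun k => cl k = c),
        Y k ω := by
      rw [sum_fiberwise_of_maps_to]
      intro k hk
      exact mem_range.2 (hcl k (mem_range.1 hk))
    calc y ^ X ω ≤ y ^ ∑ k ∈ range B, Y k ω := pow_le_pow_right₀ hy (hX ω)
      _ = ∏ c ∈ range r, y ^ ∑ k ∈ (range B).filter (fun k => cl k = c), Y k ω := by
        rw [e1, prod_pow_eq_pow_sum]
      _ ≤ ∑ c ∈ range r, (y ^ ∑ k ∈ (range B).filter (fun k => cl k = c), Y k ω) ^ r := by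
        have := prod_le_sum_pow (range r) ⟨0, by simpa using hr⟩
          (fun c => y ^ ∑ k ∈ (range B).filter (fun k => cl k = c), Y k ω)
          (fun c _ => by positivity)
        simpa only [card_range] using this
      _ = ∑ c ∈ range r, ∏ k ∈ (range B).filter (fun k => cl k = c), (y ^ r) ^ Y k ω := by
        apply sum_congr rfl
        intro c _
        rw [prod_pow_eq_pow_sum, ← pow_mul, ← pow_mul, mul_comm]
  calc avg (fun ω => y ^ X ω) ≤ avg (fun ω => ∑ c ∈ range r,
        ∏ k ∈ (range B).filter (fun k => cl k = c), (y ^ r) ^ Y k ω) := avg_mono h1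
    _ = ∑ c ∈ range r, avg (fun ω => ∏ k ∈ (range B).filter (fun k => cl k = c),
        (y ^ r) ^ Y k ω) := avg_sum _ _
    _ ≤ ∑ _c ∈ range r, D ^ B := by
        apply sum_le_sum
        intro c _
        have hA' : ∀ k ∈ (range B).filter (fun k => cl k = c),
            ∀ l ∈ (range B).filter (fun k => cl k = c), k ≠ l → Disjoint (A k) (A l) := by
          intro k hk l hl hkl
          rw [mem_filter, mem_range] at hk hl
          exact hA k hk.1 l hl.1 hkl (by rw [hk.2, hl.2])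
        have hf' : ∀ k ∈ (range B).filter (fun k => cl k = c),
            Dep (A k) (fun ω => (y ^ r) ^ Y k ω) := by
          intro k hk
          rw [mem_filter, mem_range] at hk
          exact (hY k hk.1).comp fun n => (y ^ r) ^ n
        rw [avg_prod _ (A := A) (f := fun k ω => (y ^ r) ^ Y k ω) hA' hf']
        calc ∏ k ∈ (range B).filter (fun k => cl k = c), avg (fun ω => (y ^ r) ^ Y k ω)
            ≤ ∏ _k ∈ (range B).filter (fun k => cl k = c), D := by
              apply prod_le_prod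
              · intro k _
                exact avg_nonneg fun ω => by positivity
              · intro k hk
                exact h k (mem_range.1 (mem_filter.1 hk).1)
          _ = D ^ ((range B).filter (fun k => cl k = c)).card := prod_const _
          _ ≤ D ^ B := by
              apply pow_le_pow_right₀ hD
              calc ((range B).filter (fun k => cl k = c)).card ≤ (range B).card :=
                    card_filter_le _ _
                _ = B := card_range B
    _ = r * D ^ B := by rw [sum_const, card_range, nsmul_eq_mul]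

/-- the indices of the tiles of a window -/
def wset (τ : ℤ → ℤ → ι) (a s : ℤ) (h : ℕ) : Set ι :=
  {k | ∃ i j, win (a - h) (a + 2 * h) s h i j ∧ τ i j = k}

lemma dep_Yc (τ : ℤ → ℤ → ι) (a s : ℤ) (h : ℕ) :
    Dep (wset τ a s h) (fun ω : ι → Bool => Yc (bits τ ω) a s h) := by
  intro ω ω' hw
  apply Yc_congr
  intro i j hij
  exact hw _ ⟨i, j, hij, rfl⟩

lemma dep_Ye (ε : ℤ) (τ : ℤ → ℤ → ι) (a s : ℤ) (h : ℕ) :
    Dep (wset τ a s h) (fun ω : ι → Bool => Ye ε (bits τ ω) a s h) := by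
  intro ω ω' hw
  apply Ye_congr
  intro i j hij
  exact hw _ ⟨i, j, hij, rfl⟩

/-- the indices of the tiles of a band -/
def bset (τ : ℤ → ℤ → ι) (s : ℤ) (h : ℕ) : Set ι := {k | ∃ i j, strip s h i j ∧ τ i j = k}

lemma dep_tcount (τ : ℤ → ℤ → ι) (L : ℕ) (s : ℤ) (h : ℕ) :
    Dep (bset τ s h) (fun ω : ι → Bool => tcount (bits τ ω) L s h) := by
  classical
  intro ω ω' hw
  show tcount (bits τ ω) L s h = tcount (bits τ ω') L s h
  unfold tcount
  congr 1
  apply filter_congr
  intro x _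
  have hb : ∀ i j, strip s h i j → bits τ ω i j = bits τ ω' i j := fun i j hij =>
    hw _ ⟨i, j, hij, rfl⟩
  exact ⟨fun h1 => h1.congr hb, fun h1 => h1.congr (fun i j hij => (hb i j hij).symm)⟩

/-- class of a box: boxes of the same class have disjoint windows -/
def bcl (B k : ℕ) : ℕ := if k + 3 < B then k % 3 else 3 + (k + 3 - B)

lemma bcl_lt {B k : ℕ} (hk : k < B) : bcl B k < 6 := by
  unfold bcl
  split_ifs <;> omega

/-- exponential moment of the number of strands across a thin band -/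
theorem avg_tcount_thin {q y : ℝ} (hq : RswQ q) (hy : 1 ≤ y) (hyq : y ^ 12 * q < 1) {L K : ℕ}
    {τ : ℤ → ℤ → ι} (hC : Cyl L K τ) {s : ℤ} {h B : ℕ} (hh : 1 ≤ h) (hs : 0 ≤ s) (hK : s + h ≤ K)
    (hL : 3 * h ≤ L) (hB : L ≤ B * h) (hB' : (B - 1) * h ≤ L) :
    avg (fun ω : ι → Bool => y ^ tcount (bits τ ω) L s h) ≤
      6 * (1 + 1 / (1 - y ^ 12 * q)) ^ B := by
  have hy6 : 1 ≤ y ^ 6 := one_le_pow₀ hy
  have e12 : (y ^ 6) ^ 2 = y ^ 12 := by rw [← pow_mul]
  have hpos : 0 < 1 - y ^ 12 * q := by linarith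
  have hD : (1 : ℝ) ≤ 1 + 1 / (1 - y ^ 12 * q) := by
    have : 0 ≤ 1 / (1 - y ^ 12 * q) := by positivity
    linarith
  have main := avg_pow_classes (ι := ι) (B := B) (r := 6) (bcl B) (fun k hk => bcl_lt hk) (by norm_num)
    (X := fun ω => tcount (bits τ ω) L s h) (A := fun k => wset τ ((k : ℤ) * h) s h)
    (Y := fun k ω => Yc (bits τ ω) ((k : ℤ) * h) s h) ?_ (fun k _ => dep_Yc τ _ s h)
    (fun ω => tcount_boxes _ L s h B hB) hy hD ?_
  · simpa using main
  · intro k hk l hl hkl hc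
    rw [Set.disjoint_left]
    rintro t ⟨i, j, h1, h2⟩ ⟨i', j', h3, h4⟩
    obtain ⟨g1, g2, g3, g4⟩ := h1
    obtain ⟨g5, g6, g7, g8⟩ := h3
    obtain ⟨h5, m, h6⟩ := hC.inj i j i' j' (by omega) (by omega) (by omega) (by omega) (h2.trans h4.symm)
    have hL' : (3 * h : ℤ) ≤ L := by exact_mod_cast hL
    have hh' : (1 : ℤ) ≤ h := by exact_mod_cast hh
    have hM : m * (L : ℤ) ≤ -L ∨ m * (L : ℤ) = 0 ∨ (L : ℤ) ≤ m * L := by
      have hL0 : (0 : ℤ) ≤ L := by omega
      rcases lt_trichotomy m 0 with hm | hm | hm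
      · left
        have := mul_le_mul_of_nonneg_right (show m ≤ -1 by omega) hL0
        linarith
      · right; left
        rw [hm, zero_mul]
      · right; right
        have := mul_le_mul_of_nonneg_right (show 1 ≤ m by omega) hL0
        linarith
    unfold bcl at hc
    by_cases hk3 : k + 3 < B
    · rw [if_pos hk3] at hc
      by_cases hl3 : l + 3 < B
      · rw [if_pos hl3] at hc
        have hB1 : ((B - 1 : ℕ) : ℤ) * h ≤ L := by exact_mod_cast hB'
        have f1 : (k : ℤ) * h + 3 * h ≤ L := by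
          have := mul_le_mul_of_nonneg_right (show (k : ℤ) + 3 ≤ ((B - 1 : ℕ) : ℤ) by omega)
            (show (0 : ℤ) ≤ h by omega)
          rw [add_mul] at this
          linarith
        have f2 : (l : ℤ) * h + 3 * h ≤ L := by
          have := mul_le_mul_of_nonneg_right (show (l : ℤ) + 3 ≤ ((B - 1 : ℕ) : ℤ) by omega)
            (show (0 : ℤ) ≤ h by omega)
          rw [add_mul] at this
          linarith
        have f3 : (0 : ℤ) ≤ (k : ℤ) * h := by positivity
        have f4 : (0 : ℤ) ≤ (l : ℤ) * h := by positivity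
        have f5 : (k : ℤ) * h + 3 * h ≤ l * h ∨ (l : ℤ) * h + 3 * h ≤ k * h := by
          rcases lt_or_gt_of_ne hkl with hlt | hlt
          · left
            have := mul_le_mul_of_nonneg_right (show (k : ℤ) + 3 ≤ l by omega)
              (show (0 : ℤ) ≤ h by omega)
            rw [add_mul] at this
            linarith
          · right
            have := mul_le_mul_of_nonneg_right (show (l : ℤ) + 3 ≤ k by omega)
              (show (0 : ℤ) ≤ h by omega)
            rw [add_mul] at this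
            linarith
        generalize (k : ℤ) * h = X at *
        generalize (l : ℤ) * h = Y at *
        generalize m * (L : ℤ) = M at *
        omega
      · rw [if_neg hl3] at hc
        omega
    · rw [if_neg hk3] at hc
      split_ifs at hc <;> omega
  · intro k _
    have := avg_Yc_le (τ := τ) (a := (k : ℤ) * h) (s := s) (h := h) hq hy6 (by rw [e12]; exact hyq) hh
      (hC.winj hs hK hL)
    rwa [e12] at this

end Full.Walk
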