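import Pool.Agent.Full.Walk.Band
import Pool.Agent.Helper32.Ann.Slab

/-!
# The Russo-Seymour-Welsh input

`exists_q : ∃ q, RswQ q`, from the escape bound `Ann32.armW_le`.
-/

set_option autoImplicit false

namespace Full.Walk

open Finset
open Pool.Agent.Helper69.RSW (P Up P_mono P_map)

/-- tiles with natural coordinates (row, column) as tiles of the plane (column, row) -/
def natTile (u v : ℤ) : ℕ × ℕ ↪ ℤ × ℤ where
  toFun p := ((p.2 : ℤ) - u, (p.1 : ℤ) - v)
  inj' p q h := by
    have h1 := congrArg Prod.fst h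
    have h2 := congrArg Prod.snd h
    simp only at h1 h2
    exact Prod.ext (by omega) (by omega)

lemma winF_eq_map {a c s u v : ℤ} {h : ℕ} (hu : 0 ≤ a + u) (hv : 0 ≤ s + v) :
    winF a c s h = (Finset.Ico (s + v).toNat ((s + v).toNat + h) ×ˢ
      Finset.Ico (a + u).toNat (c + u).toNat).map (natTile u v) := by
  ext ⟨x, y⟩
  rw [mem_winF, mem_map]
  constructor
  · rintro ⟨h1, h2, h3, h4⟩
    simp only at h1 h2 h3 h4
    refine ⟨((y + v).toNat, (x + u).toNat), ?_, ?_⟩
    · rw [mem_product, mem_Ico, mem_Ico]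
      simp only
      omega
    · unfold natTile
      simp only [Function.Embedding.coeFn_mk]
      refine Prod.ext ?_ ?_ <;> simp only <;> omega
  · rintro ⟨⟨p, q⟩, h1, h2⟩
    rw [mem_product, mem_Ico, mem_Ico] at h1
    simp only at h1
    unfold natTile at h2
    simp only [Function.Embedding.coeFn_mk, Prod.mk.injEq] at h2
    simp only
    omega

/-- connections in the two languages -/
lemma conn_nat {ε : ℤ} {r : ℕ} {u v : ℤ} (hr : (r : ℤ) = (ε + u + v) % 2) {S : Finset (ℕ × ℕ)}
    {p : ℤ × ℤ} {x y : ℕ} (hc : Conn ε (S.map (natTile u v)) ((x : ℤ) - u, (y : ℤ) - v) p) :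
    ∃ x' y' : ℕ, p = ((x' : ℤ) - u, (y' : ℤ) - v) ∧ Ann32.Con r S (x, y) (x', y') := by
  unfold Conn at hc
  induction hc with
  | refl => exact ⟨x, y, rfl, Relation.ReflTransGen.refl⟩
  | @tail p p' _ h2 ih =>
    obtain ⟨x', y', rfl, h3⟩ := ih
    obtain ⟨t, ht, h4⟩ := h2
    rw [mem_map] at ht
    obtain ⟨⟨j, i⟩, h5, rfl⟩ := ht
    have hr2 : r = 0 ∨ r = 1 := by omega
    unfold natTile at h4
    simp only [Function.Embedding.coeFn_mk] at h4
    unfold dg at h4
    simp only at h4
    by_cases hpar : ((i : ℤ) - u + ((j : ℤ) - v) - ε) % 2 = 0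
    · rw [if_pos hpar] at h4
      have hp : (i + j) % 2 = r := by omega
      rcases h4 with ⟨h6, h7⟩ | ⟨h6, h7⟩
      · refine ⟨i + 1, j + 1, ?_, h3.tail (Or.inl ⟨i, j, h5, Or.inl ⟨hp, ?_, rfl⟩⟩)⟩
        · rw [h7]
          refine Prod.ext ?_ ?_ <;> simp only <;> push_cast <;> ring
        · have e1 := congrArg Prod.fst h6
          have e2 := congrArg Prod.snd h6
          simp only at e1 e2
          exact Prod.ext (by simp only; omega) (by simp only; omega)
      · refine ⟨i, j, ?_, h3.tail (Or.inr ⟨i, j, h5, Or.inl ⟨hp, rfl, ?_⟩⟩)⟩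
        · rw [h7]
        · have e1 := congrArg Prod.fst h6
          have e2 := congrArg Prod.snd h6
          simp only at e1 e2
          exact Prod.ext (by simp only; omega) (by simp only; omega)
    · rw [if_neg hpar] at h4
      have hp : (i + j) % 2 ≠ r := by omega
      rcases h4 with ⟨h6, h7⟩ | ⟨h6, h7⟩
      · refine ⟨i, j + 1, ?_, h3.tail (Or.inl ⟨i, j, h5, Or.inr ⟨hp, ?_, rfl⟩⟩)⟩
        · rw [h7]
          refine Prod.ext ?_ ?_ <;> simp only <;> push_cast <;> ring
        · have e1 := congrArg Prod.fst h6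
          have e2 := congrArg Prod.snd h6
          simp only at e1 e2
          exact Prod.ext (by simp only; omega) (by simp only; omega)
      · refine ⟨i + 1, j, ?_, h3.tail (Or.inr ⟨i, j, h5, Or.inr ⟨hp, rfl, ?_⟩⟩)⟩
        · rw [h7]
          refine Prod.ext ?_ ?_ <;> simp only <;> push_cast <;> ring
        · have e1 := congrArg Prod.fst h6
          have e2 := congrArg Prod.snd h6
          simp only at e1 e2
          exact Prod.ext (by simp only; omega) (by simp only; omega)

/-- **the Russo-Seymour-Welsh input** -/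
theorem exists_q : ∃ q : ℝ, RswQ q := by
  obtain ⟨θ, h0, h1, hE⟩ := Ann32.armW_le
  refine ⟨θ, h0, h1, fun ε a s h hh => ?_⟩
  set u : ℤ := 2 * |a - h| with hu
  set v : ℤ := 2 * |s| with hv
  have hu0 : 0 ≤ a - h + u := by
    rcases abs_cases (a - (h : ℤ)) with ⟨g1, g2⟩ | ⟨g1, g2⟩ <;> omega
  have hv0 : 0 ≤ s + v := by
    rcases abs_cases s with ⟨g1, g2⟩ | ⟨g1, g2⟩ <;> omega
  rw [winF_eq_map hu0 hv0, P_map]
  set F : Finset (ℕ × ℕ) := Finset.Ico (s + v).toNat ((s + v).toNat + h) ×ˢ
      Finset.Ico (a - h + u).toNat (a + 2 * h + u).toNat with hF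
  set r : ℕ := (ε % 2).toNat with hr
  have hrε : (r : ℤ) = (ε + u + v) % 2 := by
    rw [hr]
    omega
  refine le_trans (P_mono ?_) (hE r (s + v).toNat ((s + v).toNat + h) (a + u).toNat (a + u + h - 1).toNat F
    (by omega) (by omega) (by omega) ?_)
  · rintro S _ ⟨x, p, g1, g2, g3, g4, g5⟩
    have hx : ((x + u).toNat : ℤ) = x + u := Int.toNat_of_nonneg (by omega)
    have hs : ((s + v).toNat : ℤ) = s + v := Int.toNat_of_nonneg hv0
    have g6 : Conn ε (S.map (natTile u v)) (((x + u).toNat : ℤ) - u, ((s + v).toNat : ℤ) - v) p := by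
      rw [hx, hs, add_sub_cancel_right, add_sub_cancel_right]
      exact g4
    obtain ⟨x', y', rfl, g7⟩ := conn_nat hrε g6
    simp only at g5
    exact ⟨(x + u).toNat, (x', y'), by omega, by omega, by omega, g7, by simp only; omega⟩
  · intro p hp
    rw [hF, mem_product, mem_Ico, mem_Ico] at hp
    omega

end Full.Walk
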