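import Pool.Agent.Full.Walk.Band

/-!
# Rotations, and transfer between index systems

* `rot`: rotation by 90 degrees (`N → W → S → E → N`), the bits are negated.
* `avg_bits`: the average of a function of the bits of the tiles of `F` does not depend on the
  index system.
* `pr_side_le`: the tail bound for the strands which enter a window through its left side.
-/

set_option autoImplicit false
set_option linter.unusedSectionVars false
set_option linter.unnecessarySeqFocus false

namespace Full.Walk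

open Finset Full.Mom
open Pool.Agent.Helper69.RSW (P Up P_mono)

/-- rotation of headings by 90 degrees, counterclockwise -/
def rotD : Dir → Dir
  | .N => .W
  | .E => .N
  | .S => .E
  | .W => .S

/-- rotation of states -/
def rot (t : St) : St := ⟨-t.j - 1, t.i, rotD t.d⟩

/-- the bits of the rotated tiling -/
def rotB (b : ℤ → ℤ → Bool) : ℤ → ℤ → Bool := fun p q => !b q (-p - 1)

variable {b : ℤ → ℤ → Bool}

lemma turn_rot (v : Bool) (d : Dir) : turn (!v) (rotD d) = rotD (turn v d) := by
  cases v <;> cases d <;> rfl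

lemma rotD_dx (d : Dir) : (rotD d).dx = -d.dy := by cases d <;> rfl
lemma rotD_dy (d : Dir) : (rotD d).dy = d.dx := by cases d <;> rfl

lemma step_rot (t : St) : step (rotB b) (rot t) = rot (step b t) := by
  unfold step rot rotB
  simp only [neg_sub, sub_neg_eq_add, add_sub_cancel_left, turn_rot, rotD_dx, rotD_dy, neg_add_rev]
  ext <;> simp only [] <;> try ring

lemma pos_rot (t : St) : ∀ n : ℕ, pos (rotB b) (rot t) n = rot (pos b t n)
  | 0 => rfl
  | n + 1 => by rw [pos_succ, pos_succ, pos_rot t n, step_rot]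

/-- the strand which enters the window `[s, s + h) × [a - h, a + 2h)` through its left side in the
row `y` leaves it, and not through the left side -/
def FarL (b : ℤ → ℤ → Bool) (a s : ℤ) (h : ℕ) (y : ℤ) : Prop :=
  ∃ e, Exits b (fun i j => win s (s + h) (a - h) (3 * h) i j) ⟨s, y, .E⟩ e ∧ e.i ≠ s - 1

lemma farL_rot {a s : ℤ} {h : ℕ} {y : ℤ} (hf : FarL b a s h y) :
    Far (rotB b) ((-a - h) - h) ((-a - h) + 2 * h) s h (-y - 1) := by
  obtain ⟨e, ⟨n, h1, h2, h3⟩, h4⟩ := hf
  have key : ∀ m, pos (rotB b) ⟨-y - 1, s, .N⟩ m = rot (pos b ⟨s, y, .E⟩ m) :=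
    fun m => pos_rot ⟨s, y, .E⟩ m
  refine ⟨rot e, ⟨n, fun m hm => ?_, ?_, ?_⟩, ?_⟩
  · rw [key]
    have := h1 m hm
    unfold win at this ⊢
    unfold rot
    simp only
    push_cast at this
    omega
  · rw [key]
    intro hw
    apply h2
    unfold win at hw ⊢
    unfold rot at hw
    simp only at hw
    push_cast
    omega
  · rw [key, h3]
  · exact h4

/-! ### transfer -/

section
variable {ι : Type*} [Fintype ι] [DecidableEq ι]

/-- the bits given by a set of tiles -/
def sbits (S : Finset (ℤ × ℤ)) : ℤ → ℤ → Bool := fun i j => decide ((i, j) ∈ S)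

/-- the average of a function of the bits of the tiles of `F` -/
theorem avg_bits (τ : ℤ → ℤ → ι) (F : Finset (ℤ × ℤ))
    (hτ : ∀ t ∈ F, ∀ t' ∈ F, τ t.1 t.2 = τ t'.1 t'.2 → t = t') (f : (ℤ → ℤ → Bool) → ℝ)
    (hf : ∀ b b' : ℤ → ℤ → Bool, (∀ t ∈ F, b t.1 t.2 = b' t.1 t.2) → f b = f b') :
    avg (fun ω : ι → Bool => f (bits τ ω)) = Full.Perc.Ex F (fun S => f (sbits S)) := by
  classical
  -- both sides are sums over the values of the set of the `true` tiles
  have h1 : ∀ ω : ι → Bool, f (bits τ ω) = f (sbits (F.filter (fun t => bits τ ω t.1 t.2 = true))) := by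
    intro ω
    apply hf
    intro t ht
    unfold sbits
    simp only [mem_filter, Prod.mk.eta, ht, true_and]
    cases bits τ ω t.1 t.2 <;> simp
  -- by induction on `F` as in `pr_oset`
  have gen : ∀ (G : Finset (ℤ × ℤ)), (∀ t ∈ G, ∀ t' ∈ G, τ t.1 t.2 = τ t'.1 t'.2 → t = t') →
      ∀ g : Finset (ℤ × ℤ) → ℝ,
      avg (fun ω : ι → Bool => g (G.filter (fun t => bits τ ω t.1 t.2 = true))) = Full.Perc.Ex G g := by
    intro G
    induction G using Finset.induction_on with
    | empty =>
      intro _ g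
      simp only [filter_empty]
      rw [avg_const]
      unfold Full.Perc.Ex
      simp
    | insert t G ht ih =>
      intro hG g
      have hG' : ∀ u ∈ G, ∀ v ∈ G, τ u.1 u.2 = τ v.1 v.2 → u = v := fun u hu v hv =>
        hG u (mem_insert_of_mem hu) v (mem_insert_of_mem hv)
      have e1 : ∀ ω : ι → Bool, g ((insert t G).filter (fun t => bits τ ω t.1 t.2 = true)) =
          (if ω (τ t.1 t.2) = true then 1 else 0) *
              g (insert t (G.filter (fun t => bits τ ω t.1 t.2 = true))) +
            (if ω (τ t.1 t.2) = false then 1 else 0) *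
              g (G.filter (fun t => bits τ ω t.1 t.2 = true)) := by
        intro ω
        rw [filter_insert]
        unfold bits
        cases ω (τ t.1 t.2) <;> simp
      have hdF : ∀ g' : Finset (ℤ × ℤ) → ℝ, Dep ({τ t.1 t.2}ᶜ : Set ι)
          (fun ω : ι → Bool => g' (G.filter (fun t => bits τ ω t.1 t.2 = true))) := by
        intro g' ω ω' hw
        have : G.filter (fun t => bits τ ω t.1 t.2 = true) = G.filter (fun t => bits τ ω' t.1 t.2 = true) := by
          apply filter_congr
          intro u hu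
          unfold bits
          rw [hw (τ u.1 u.2)]
          intro h
          have h1 : τ u.1 u.2 = τ t.1 t.2 := h
          have h2 := hG u (mem_insert_of_mem hu) t (mem_insert_self _ _) h1
          rw [h2] at hu
          exact ht hu
        show g' _ = g' _
        rw [this]
      have hdE : ∀ v : Bool, Dep ({τ t.1 t.2} : Set ι) (fun ω : ι → Bool =>
          if ω (τ t.1 t.2) = v then (1 : ℝ) else 0) := by
        intro v ω ω' hw
        have := hw _ (Set.mem_singleton _)
        simp only [this]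
      have hp : ∀ v : Bool, avg (fun ω : ι → Bool => if ω (τ t.1 t.2) = v then (1 : ℝ) else 0) = 1 / 2 := by
        intro v
        rw [← pr_bit (τ t.1 t.2) v]
        unfold pr
        congr 1
        funext ω
        congr
      have h2 := avg_mul (A := {τ t.1 t.2}) (hdE true) (hdF (fun S => g (insert t S)))
      have h3 := avg_mul (A := {τ t.1 t.2}) (hdE false) (hdF g)
      simp only [e1]
      rw [avg_add, h2, h3, hp, hp, ih hG' g, ih hG' (fun S => g (insert t S))]
      unfold Full.Perc.Ex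
      rw [sum_powerset_insert ht, card_insert_of_notMem ht, pow_succ]
      field_simp
      ring
  have h2 := gen F hτ (fun S => f (sbits S))
  rw [← h2]
  congr 1
  funext ω
  exact h1 ω

/-- two index systems -/
theorem avg_bits_eq {ι' : Type*} [Fintype ι'] [DecidableEq ι'] (τ : ℤ → ℤ → ι) (τ' : ℤ → ℤ → ι')
    (F : Finset (ℤ × ℤ))
    (hτ : ∀ t ∈ F, ∀ t' ∈ F, τ t.1 t.2 = τ t'.1 t'.2 → t = t')
    (hτ' : ∀ t ∈ F, ∀ t' ∈ F, τ' t.1 t.2 = τ' t'.1 t'.2 → t = t') (f : (ℤ → ℤ → Bool) → ℝ)
    (hf : ∀ b b' : ℤ → ℤ → Bool, (∀ t ∈ F, b t.1 t.2 = b' t.1 t.2) → f b = f b') :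
    avg (fun ω : ι → Bool => f (bits τ ω)) = avg (fun ω : ι' → Bool => f (bits τ' ω)) := by
  rw [avg_bits τ F hτ f hf, avg_bits τ' F hτ' f hf]

theorem pr_bits_eq {ι' : Type*} [Fintype ι'] [DecidableEq ι'] (τ : ℤ → ℤ → ι) (τ' : ℤ → ℤ → ι')
    (F : Finset (ℤ × ℤ))
    (hτ : ∀ t ∈ F, ∀ t' ∈ F, τ t.1 t.2 = τ t'.1 t'.2 → t = t')
    (hτ' : ∀ t ∈ F, ∀ t' ∈ F, τ' t.1 t.2 = τ' t'.1 t'.2 → t = t') (A : (ℤ → ℤ → Bool) → Prop)
    (hA : ∀ b b' : ℤ → ℤ → Bool, (∀ t ∈ F, b t.1 t.2 = b' t.1 t.2) → (A b ↔ A b')) :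
    pr (fun ω : ι → Bool => A (bits τ ω)) = pr (fun ω : ι' → Bool => A (bits τ' ω)) := by
  classical
  unfold pr
  exact avg_bits_eq τ τ' F hτ hτ' (fun b => if A b then (1 : ℝ) else 0)
    (fun b b' h => by
      have := hA b b' h
      by_cases hb : A b
      · rw [if_pos hb, if_pos (this.1 hb)]
      · rw [if_neg hb, if_neg (fun h' => hb (this.2 h'))])

/-- flipping all bits -/
lemma avg_not (f : (ι → Bool) → ℝ) : avg (fun ω => f (fun i => !ω i)) = avg f := by
  unfold avg
  congr 1
  exact Equiv.sum_comp ((Equiv.refl ι).arrowCongr Equiv.boolNot) f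

end

end Full.Walk
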