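import Pool.Agent.Full.Walk.ExpMoment
import Pool.Agent.Full.Walk.Rot

/-!
# The same bounds for configurations given as finite sets

The configuration is a subset `ω` of a finite set `T` of tiles (uniform law, `Full.Perc.Ex T`,
`Helper69.RSW.P T`); `ψ : ℤ → ℤ → α` is a chart, the bit of the tile `(i, j)` is `ψ i j ∈ ω`.
-/

set_option autoImplicit false
set_option linter.unusedSectionVars false

namespace Full.Walk

open Finset Full.Mom
open Pool.Agent.Helper69.RSW (P Up P_mono)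
open Full.Perc (Ex)

variable {α : Type*} [DecidableEq α]

/-- the bits of a configuration in a chart -/
def cbits (ψ : ℤ → ℤ → α) (ω : Finset α) : ℤ → ℤ → Bool := fun i j => decide (ψ i j ∈ ω)

/-- the set given by bits -/
def ofBits (T : Finset α) (ω : T → Bool) : Finset α :=
  (univ.filter (fun t : T => ω t = true)).image Subtype.val

lemma mem_ofBits {T : Finset α} {ω : T → Bool} {x : α} :
    x ∈ ofBits T ω ↔ ∃ h : x ∈ T, ω ⟨x, h⟩ = true := by
  unfold ofBits
  rw [mem_image]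
  constructor
  · rintro ⟨t, ht, rfl⟩
    exact ⟨t.2, (mem_filter.1 ht).2⟩
  · rintro ⟨h, h1⟩
    exact ⟨⟨x, h⟩, mem_filter.2 ⟨mem_univ _, h1⟩, rfl⟩

/-- the uniform average over the subsets of `T` is the average over the bits -/
theorem Ex_eq_avg (T : Finset α) (f : Finset α → ℝ) :
    Ex T f = avg (fun ω : T → Bool => f (ofBits T ω)) := by
  classical
  unfold Ex avg
  rw [Fintype.card_coe]
  congr 1
  symm
  apply sum_bij (fun (ω : T → Bool) _ => ofBits T ω)
  · intro ω _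
    rw [mem_powerset]
    intro x hx
    exact (mem_ofBits.1 hx).1
  · intro ω _ ω' _ h
    funext t
    have h1 : (t : α) ∈ ofBits T ω ↔ (t : α) ∈ ofBits T ω' := by rw [h]
    rw [mem_ofBits, mem_ofBits] at h1
    have h2 : ω t = true ↔ ω' t = true :=
      ⟨fun h3 => (h1.1 ⟨t.2, h3⟩).2, fun h3 => (h1.2 ⟨t.2, h3⟩).2⟩
    cases hw : ω t <;> cases hw' : ω' t <;> simp_all
  · intro S hS
    rw [mem_powerset] at hS
    refine ⟨fun t => decide ((t : α) ∈ S), mem_univ _, ?_⟩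
    ext x
    rw [mem_ofBits]
    constructor
    · rintro ⟨h, h1⟩
      exact of_decide_eq_true h1
    · intro h
      exact ⟨hS h, decide_eq_true h⟩
  · intro ω _
    rfl

lemma P_eq_pr (T : Finset α) (A : Finset α → Prop) :
    P T A = pr (fun ω : T → Bool => A (ofBits T ω)) := by
  classical
  rw [← Full.Perc.Ex_ite, Ex_eq_avg]
  unfold pr
  congr 1

/-- the index of a tile -/
noncomputable def idx (T : Finset α) (hT : T.Nonempty) (ψ : ℤ → ℤ → α) : ℤ → ℤ → T := by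
  classical
  exact fun i j => if h : ψ i j ∈ T then ⟨ψ i j, h⟩ else ⟨hT.choose, hT.choose_spec⟩

lemma idx_of_mem {T : Finset α} (hT : T.Nonempty) {ψ : ℤ → ℤ → α} {i j : ℤ} (h : ψ i j ∈ T) :
    idx T hT ψ i j = ⟨ψ i j, h⟩ := by
  unfold idx
  rw [dif_pos h]

lemma cbits_ofBits {T : Finset α} (hT : T.Nonempty) {ψ : ℤ → ℤ → α} {i j : ℤ} (h : ψ i j ∈ T)
    (ω : T → Bool) : cbits ψ (ofBits T ω) i j = bits (idx T hT ψ) ω i j := by
  unfold cbits bits
  rw [idx_of_mem hT h]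
  by_cases h1 : ω ⟨ψ i j, h⟩ = true
  · rw [decide_eq_true (mem_ofBits.2 ⟨h, h1⟩), h1]
  · have h2 : ψ i j ∉ ofBits T ω := fun h3 => h1 (mem_ofBits.1 h3).2
    rw [decide_eq_false h2]
    cases hw : ω ⟨ψ i j, h⟩
    · rfl
    · exact absurd hw h1

/-- a chart of a cylinder with `L` columns and the rows `0, ..., K - 1` inside `T` -/
structure CylF (L K : ℕ) (T : Finset α) (ψ : ℤ → ℤ → α) : Prop where
  mem : ∀ i j : ℤ, 0 ≤ j → j < K → ψ i j ∈ T
  per : ∀ i j, ψ (i + L) j = ψ i j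
  inj : ∀ i j i' j' : ℤ, 0 ≤ j → j < K → 0 ≤ j' → j' < K → ψ i j = ψ i' j' →
    j = j' ∧ ∃ k : ℤ, i' = i + k * L

lemma CylF.cyl {L K : ℕ} {T : Finset α} {ψ : ℤ → ℤ → α} (hC : CylF L K T ψ) (hT : T.Nonempty) :
    Cyl L K (idx T hT ψ) := by
  constructor
  · intro i j
    unfold idx
    simp only [hC.per]
  · intro i j i' j' h1 h2 h3 h4 h
    rw [idx_of_mem hT (hC.mem i j h1 h2), idx_of_mem hT (hC.mem i' j' h3 h4)] at h
    exact hC.inj i j i' j' h1 h2 h3 h4 (congrArg Subtype.val h)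

lemma tcount_congr {b b' : ℤ → ℤ → Bool} {L : ℕ} {s : ℤ} {K : ℕ}
    (hb : ∀ i j, strip s K i j → b i j = b' i j) : tcount b L s K = tcount b' L s K := by
  classical
  unfold tcount
  congr 1
  apply filter_congr
  intro x _
  exact ⟨fun h1 => h1.congr hb, fun h1 => h1.congr (fun i j hij => (hb i j hij).symm)⟩

/-- **exponential moments of the number of the strands across a band**, for configurations which
are subsets of `T` -/
theorem exp_moment_Ex.{u} {q : ℝ} (hq : RswQ q) {δ Q : ℝ} (hδ : 0 < δ) (hQ : 1 ≤ Q) :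
    ∃ C : ℝ, 1 ≤ C ∧ ∀ (α : Type u) [DecidableEq α] (L K : ℕ) (T : Finset α) (ψ : ℤ → ℤ → α),
      CylF L K T ψ → δ * L ≤ K → Ex T (fun ω => Q ^ tcount (cbits ψ ω) L 0 K) ≤ C := by
  obtain ⟨C, hC1, hC⟩ := exp_moment.{u} hq hδ hQ
  refine ⟨C, hC1, ?_⟩
  intro α _ L K T ψ hψ hK
  rcases Nat.eq_zero_or_pos K with hK0 | hK0
  · -- no rows
    subst hK0
    have hL : L = 0 := by
      by_contra hL
      have : (0 : ℝ) < L := by exact_mod_cast Nat.pos_of_ne_zero hL
      have h1 : 0 < δ * L := mul_pos hδ this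
      push_cast at hK
      linarith
    subst hL
    have h1 : ∀ S ⊆ T, Q ^ tcount (cbits ψ S) 0 0 0 ≤ (1 : ℝ) := by
      intro S _
      have := tcount_le (cbits ψ S) 0 0 0
      rw [Nat.le_zero.1 this, pow_zero]
    refine (Full.Perc.Ex_mono (g := fun _ => 1) h1).trans ?_
    rw [Full.Perc.Ex_const]
    exact hC1
  · have hT : T.Nonempty := ⟨ψ 0 0, hψ.mem 0 0 le_rfl (by exact_mod_cast hK0)⟩
    have h1 := hC T L K (idx T hT ψ) (hψ.cyl hT) hK
    rw [Ex_eq_avg]
    refine le_trans (le_of_eq ?_) h1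
    congr 1
    funext ω
    congr 1
    apply tcount_congr
    rintro i j ⟨h2, h3⟩
    exact cbits_ofBits hT (hψ.mem i j h2 (by omega)) ω

/-- the tail bound in a window of a chart -/
theorem P_Ye_le {q : ℝ} (hq : RswQ q) {T : Finset α} {ψ : ℤ → ℤ → α} {a s : ℤ} {h : ℕ} (hh : 1 ≤ h)
    (hmem : ∀ t ∈ winF (a - h) (a + 2 * h) s h, ψ t.1 t.2 ∈ T)
    (hinj : ∀ t ∈ winF (a - h) (a + 2 * h) s h, ∀ t' ∈ winF (a - h) (a + 2 * h) s h,
      ψ t.1 t.2 = ψ t'.1 t'.2 → t = t') (ε : ℤ) (k : ℕ) :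
    P T (fun ω => k ≤ Ye ε (cbits ψ ω) a s h) ≤ q ^ k := by
  have hne : (a, s) ∈ winF (a - h) (a + 2 * h) s h := by
    rw [mem_winF]
    simp only
    omega
  have hT : T.Nonempty := ⟨_, hmem _ hne⟩
  have hi : WInj (idx T hT ψ) a s h := by
    intro t ht t' ht' h1
    rw [idx_of_mem hT (hmem t ht), idx_of_mem hT (hmem t' ht')] at h1
    exact hinj t ht t' ht' (congrArg Subtype.val h1)
  rw [P_eq_pr]
  refine le_trans (le_of_eq ?_) (pr_Ye_le hq ε hh hi k)
  refine pr_congr fun ω => ?_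
  have : Ye ε (cbits ψ (ofBits T ω)) a s h = Ye ε (bits (idx T hT ψ) ω) a s h := by
    apply Ye_congr
    intro i j hw
    exact cbits_ofBits hT (hmem (i, j) (by rw [mem_winF]; exact hw)) ω
  rw [this]

end Full.Walk
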