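import Pool.Agent.Full.Walk.Many
import Pool.Agent.Full.Mom.Avg

/-!
# The set of the open tiles of fair bits is a uniform subset
-/

set_option autoImplicit false

namespace Full.Walk

open Finset Full.Mom
open Pool.Agent.Helper69.RSW (P P_insert Up)

section
variable {ι : Type*} [Fintype ι] [DecidableEq ι]

/-- flipping one bit does not change the average -/
lemma avg_flip (i : ι) (f : (ι → Bool) → ℝ) :
    avg (fun ω => f (Function.update ω i (!ω i))) = avg f := by
  unfold avg
  congr 1
  let e : (ι → Bool) ≃ (ι → Bool) :=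
    { toFun := fun ω => Function.update ω i (!ω i)
      invFun := fun ω => Function.update ω i (!ω i)
      left_inv := fun ω => by
        funext k
        by_cases hk : k = i
        · subst hk; simp
        · simp [hk]
      right_inv := fun ω => by
        funext k
        by_cases hk : k = i
        · subst hk; simp
        · simp [hk] }
  exact Equiv.sum_comp e f

lemma pr_congr {E F : (ι → Bool) → Prop} (h : ∀ ω, E ω ↔ F ω) : pr E = pr F :=
  le_antisymm (pr_mono fun ω => (h ω).1) (pr_mono fun ω => (h ω).2)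

lemma pr_split (E G : (ι → Bool) → Prop) :
    pr E = pr (fun ω => G ω ∧ E ω) + pr (fun ω => ¬ G ω ∧ E ω) := by
  classical
  unfold pr
  rw [← avg_add]
  congr 1
  funext ω
  by_cases h1 : E ω <;> by_cases h2 : G ω <;> simp [h1, h2]

lemma pr_true : pr (fun _ : ι → Bool => True) = 1 := by
  unfold pr
  simp only [if_true]
  exact avg_const 1

lemma pr_compl (E : (ι → Bool) → Prop) : pr E + pr (fun ω => ¬ E ω) = 1 := by
  rw [← pr_true (ι := ι), pr_split (fun _ => True) E]
  congr 1
  · exact pr_congr fun ω => by tauto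
  · exact pr_congr fun ω => by tauto

lemma pr_bit (i : ι) (v : Bool) : pr (fun ω : ι → Bool => ω i = v) = 1 / 2 := by
  classical
  have h1 : pr (fun ω : ι → Bool => ω i = v) = pr (fun ω : ι → Bool => ¬ ω i = v) := by
    unfold pr
    rw [← avg_flip i]
    congr 1
    funext ω
    simp only [Function.update_self]
    by_cases h : ω i = v
    · rw [if_neg (by rw [h]; simp), if_neg (by rw [h]; simp)]
    · have h2 : (!ω i) = v := by
        cases hv : v <;> cases hw : ω i <;> simp_all
      rw [if_pos h2, if_pos h]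
  have h2 := pr_compl (fun ω : ι → Bool => ω i = v)
  rw [← h1] at h2
  linarith

end

lemma oset_empty (ε : ℤ) (b : ℤ → ℤ → Bool) : oset ε b ∅ = ∅ := by
  classical
  unfold oset
  exact filter_empty _

open scoped Classical in
lemma oset_insert (ε : ℤ) (b : ℤ → ℤ → Bool) (t : ℤ × ℤ) (F : Finset (ℤ × ℤ)) :
    oset ε b (insert t F) = if opn ε b t then insert t (oset ε b F) else oset ε b F := by
  unfold oset
  rw [filter_insert]

lemma oset_congr {ε : ℤ} {b b' : ℤ → ℤ → Bool} {F : Finset (ℤ × ℤ)}
    (h : ∀ t ∈ F, b t.1 t.2 = b' t.1 t.2) : oset ε b F = oset ε b' F := by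
  ext t
  rw [mem_oset, mem_oset]
  unfold opn
  constructor
  · rintro ⟨h1, h2⟩; exact ⟨h1, by rw [← h t h1]; exact h2⟩
  · rintro ⟨h1, h2⟩; exact ⟨h1, by rw [h t h1]; exact h2⟩

lemma pr_and_indep {ι : Type*} [Fintype ι] [DecidableEq ι] {A : Set ι} {E F : (ι → Bool) → Prop}
    (hE : Dep A E) (hF : Dep Aᶜ F) : pr (fun ω => E ω ∧ F ω) = pr E * pr F := by
  classical
  unfold pr
  rw [← avg_mul (A := A)]
  · congr 1
    funext ω
    by_cases h1 : E ω
    · by_cases h2 : F ω
      · rw [if_pos ⟨h1, h2⟩, if_pos h1, if_pos h2, one_mul]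
      · rw [if_neg (fun h => h2 h.2), if_neg h2, mul_zero]
    · rw [if_neg (fun h => h1 h.1), if_neg h1, zero_mul]
  · intro ω ω' hw
    simp only
    have := hE ω ω' hw
    rw [this]
  · intro ω ω' hw
    simp only
    have := hF ω ω' hw
    rw [this]

/-- the law of the set of the open tiles -/
theorem pr_oset {ι : Type*} [Fintype ι] [DecidableEq ι] (τ : ℤ → ℤ → ι) (ε : ℤ)
    (F : Finset (ℤ × ℤ)) : (∀ t ∈ F, ∀ t' ∈ F, τ t.1 t.2 = τ t'.1 t'.2 → t = t') →
    ∀ A : Finset (ℤ × ℤ) → Prop,
      pr (fun ω : ι → Bool => A (oset ε (fun i j => ω (τ i j)) F)) = P F A := by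
  classical
  induction F using Finset.induction_on with
  | empty =>
    intro _ A
    simp only [oset_empty]
    by_cases h : A ∅
    · rw [pr_congr (F := fun _ => True) (fun _ => by simp [h]), pr_true]
      rw [← Pool.Agent.Helper69.RSW.P_true (∅ : Finset (ℤ × ℤ))]
      refine (Pool.Agent.Helper69.RSW.P_congr fun S hS => ?_).symm
      rw [subset_empty.1 hS]
      simp [h]
    · rw [pr_congr (F := fun _ => ¬ True) (fun _ => by simp [h])]
      have h1 := pr_compl (fun _ : ι → Bool => True)
      rw [pr_true] at h1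
      rw [show pr (fun _ : ι → Bool => ¬ True) = 0 by linarith]
      rw [← Pool.Agent.Helper69.RSW.P_false (∅ : Finset (ℤ × ℤ))]
      refine (Pool.Agent.Helper69.RSW.P_congr fun S hS => ?_).symm
      rw [subset_empty.1 hS]
      simp [h]
  | insert t F ht ih =>
    intro hτ A
    have hτ' : ∀ t ∈ F, ∀ t' ∈ F, τ t.1 t.2 = τ t'.1 t'.2 → t = t' := fun u hu v hv =>
      hτ u (mem_insert_of_mem hu) v (mem_insert_of_mem hv)
    rw [P_insert ht, ← ih hτ' A, ← ih hτ' (fun S => A (insert t S))]
    set b : (ι → Bool) → ℤ → ℤ → Bool := fun ω i j => ω (τ i j) with hb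
    have hdE : Dep ({τ t.1 t.2} : Set ι) (fun ω => opn ε (b ω) t) := by
      intro ω ω' hw
      have := hw _ (Set.mem_singleton _)
      unfold opn
      simp only [hb, this]
    have hdF : Dep ({τ t.1 t.2}ᶜ : Set ι) (fun ω => oset ε (b ω) F) := by
      intro ω ω' hw
      apply oset_congr
      intro u hu
      apply hw
      intro h
      have h1 : τ u.1 u.2 = τ t.1 t.2 := h
      have h2 := hτ u (mem_insert_of_mem hu) t (mem_insert_self _ _) h1
      rw [h2] at hu
      exact ht hu
    have hpE : pr (fun ω => opn ε (b ω) t) = 1 / 2 := by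
      by_cases hc : (t.1 + t.2 - ε) % 2 = 0
      · rw [← pr_bit (τ t.1 t.2) true]
        exact pr_congr fun ω => by unfold opn; simp only [hb, hc, iff_true]
      · rw [← pr_bit (τ t.1 t.2) false]
        exact pr_congr fun ω => by unfold opn; simp only [hb, hc, iff_false, Bool.not_eq_true]
    have hpE' : pr (fun ω => ¬ opn ε (b ω) t) = 1 / 2 := by
      have := pr_compl (fun ω => opn ε (b ω) t)
      linarith
    have h1 : pr (fun ω => A (oset ε (b ω) (insert t F))) =
        pr (fun ω => opn ε (b ω) t ∧ A (insert t (oset ε (b ω) F))) +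
          pr (fun ω => ¬ opn ε (b ω) t ∧ A (oset ε (b ω) F)) := by
      rw [pr_split _ (fun ω => opn ε (b ω) t)]
      congr 1
      · refine pr_congr fun ω => and_congr_right fun hc => ?_
        rw [oset_insert, if_pos hc]
      · refine pr_congr fun ω => and_congr_right fun hc => ?_
        rw [oset_insert, if_neg hc]
    have h2 := pr_and_indep (A := {τ t.1 t.2}) hdE
      (F := fun ω => A (insert t (oset ε (b ω) F))) (hdF.comp (fun S => A (insert t S)))
    have h3 := pr_and_indep (A := {τ t.1 t.2}) (hdE.comp Not)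
      (F := fun ω => A (oset ε (b ω) F)) (hdF.comp A)
    rw [h1, h2, h3, hpE, hpE']
    ring

end Full.Walk
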