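import Mathlib

/-!
# Strands of a tiling of the square grid, followed by a walker

Every tile `(i, j)` carries a bit `b i j`.  The walker state `(i, j, d)` means: entering the tile
`(i, j)` with heading `d`.  The bit `true` turns `N ↔ E`, `S ↔ W`, the bit `false` turns `N ↔ W`,
`S ↔ E`.  The walk is reversible.
-/

set_option autoImplicit false

namespace Full.Walk

/-- headings -/
inductive Dir
  | N | E | S | W
deriving DecidableEq

namespace Dir
/-- first coordinate of the heading -/
def dx : Dir → ℤ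
  | N => 0
  | E => 1
  | S => 0
  | W => -1
/-- second coordinate of the heading -/
def dy : Dir → ℤ
  | N => 1
  | E => 0
  | S => -1
  | W => 0
/-- the opposite heading -/
def neg : Dir → Dir
  | N => S
  | E => W
  | S => N
  | W => E
end Dir

/-- the turn of the strands in a tile -/
def turn : Bool → Dir → Dir
  | true, .N => .E
  | true, .E => .N
  | true, .S => .W
  | true, .W => .S
  | false, .N => .W
  | false, .W => .N
  | false, .S => .E
  | false, .E => .S

@[simp] lemma turn_turn (b : Bool) (d : Dir) : turn b (turn b d) = d := by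
  cases b <;> cases d <;> rfl

@[simp] lemma neg_neg' (d : Dir) : d.neg.neg = d := by cases d <;> rfl

lemma turn_neg (b : Bool) (d : Dir) : turn b d.neg = (turn b d).neg := by
  cases b <;> cases d <;> rfl

@[simp] lemma dx_neg (d : Dir) : d.neg.dx = -d.dx := by cases d <;> rfl
@[simp] lemma dy_neg (d : Dir) : d.neg.dy = -d.dy := by cases d <;> rfl

/-- a walker state: entering the tile `(i, j)` with heading `d` -/
@[ext] structure St where
  /-- column of the tile -/
  i : ℤ
  /-- row of the tile -/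
  j : ℤ
  /-- heading -/
  d : Dir
deriving DecidableEq

variable (b : ℤ → ℤ → Bool)

/-- one step of the walker -/
def step (s : St) : St :=
  ⟨s.i + (turn (b s.i s.j) s.d).dx, s.j + (turn (b s.i s.j) s.d).dy, turn (b s.i s.j) s.d⟩

/-- the step backwards -/
def back (s : St) : St :=
  ⟨s.i - s.d.dx, s.j - s.d.dy, turn (b (s.i - s.d.dx) (s.j - s.d.dy)) s.d⟩

/-- the same side of a tile, traversed in the other direction -/
def rev (s : St) : St := ⟨s.i - s.d.dx, s.j - s.d.dy, s.d.neg⟩

@[simp] lemma back_step (s : St) : back b (step b s) = s := by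
  unfold back step
  ext <;> simp

@[simp] lemma step_back (s : St) : step b (back b s) = s := by
  unfold back step
  ext <;> simp

@[simp] lemma rev_rev (s : St) : rev (rev s) = s := by
  unfold rev
  ext <;> simp

lemma step_rev_step (s : St) : step b (rev (step b s)) = rev s := by
  unfold rev step
  ext <;> simp [turn_neg]
  · ring
  · ring

lemma step_inj {s t : St} (h : step b s = step b t) : s = t := by
  rw [← back_step b s, h, back_step]

/-- the state after `n` steps -/
def pos (s : St) (n : ℕ) : St := (step b)^[n] s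

@[simp] lemma pos_zero (s : St) : pos b s 0 = s := rfl

lemma pos_succ (s : St) (n : ℕ) : pos b s (n + 1) = step b (pos b s n) :=
  Function.iterate_succ_apply' _ _ _

lemma pos_add (s : St) (m n : ℕ) : pos b s (m + n) = pos b (pos b s m) n := by
  unfold pos
  rw [add_comm, Function.iterate_add_apply]

lemma back_pos_succ (s : St) (n : ℕ) : back b (pos b s (n + 1)) = pos b s n := by
  rw [pos_succ, back_step]

lemma pos_inj {s t : St} {n : ℕ} (h : pos b s n = pos b t n) : s = t := by
  induction n with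
  | zero => exact h
  | succ n ih =>
    rw [pos_succ, pos_succ] at h
    exact ih (step_inj b h)

/-- if two walks meet, one of them is a part of the other -/
lemma meet {s t : St} {m n : ℕ} (h : pos b s m = pos b t n) :
    (∃ k, t = pos b s k ∧ m = k + n) ∨ (∃ k, s = pos b t k ∧ n = k + m) := by
  rcases le_total n m with hle | hle
  · left
    obtain ⟨k, rfl⟩ := Nat.exists_eq_add_of_le' hle
    refine ⟨k, ?_, rfl⟩
    rw [pos_add] at h
    exact (pos_inj b h).symm
  · right
    obtain ⟨k, rfl⟩ := Nat.exists_eq_add_of_le' hle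
    refine ⟨k, ?_, rfl⟩
    rw [pos_add] at h
    exact pos_inj b h

/-- a reversed walk -/
lemma pos_rev (s : St) : ∀ {m n : ℕ}, m ≤ n → pos b (rev (pos b s n)) m = rev (pos b s (n - m)) := by
  intro m
  induction m with
  | zero => intro n _; rfl
  | succ m ih =>
    intro n h
    rw [pos_succ, ih (by omega)]
    obtain ⟨k, rfl⟩ : ∃ k, n = k + (m + 1) := ⟨n - (m + 1), by omega⟩
    have e1 : k + (m + 1) - m = k + 1 := by omega
    have e2 : k + (m + 1) - (m + 1) = k := by omega
    rw [e1, e2, pos_succ, step_rev_step]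

/-- the tile of the reversed state is the tile of the state before -/
lemma rev_step_tile (s : St) : (rev (step b s)).i = s.i ∧ (rev (step b s)).j = s.j := by
  unfold rev step
  simp

/-! ### exits of a region -/

/-- the walker from `s` leaves the region `R` at the state `e` -/
def Exits (R : ℤ → ℤ → Prop) (s e : St) : Prop :=
  ∃ n, (∀ m < n, R (pos b s m).i (pos b s m).j) ∧ ¬ R (pos b s n).i (pos b s n).j ∧ pos b s n = e

variable {b}

lemma Exits.unique {R : ℤ → ℤ → Prop} {s e e' : St} (h : Exits b R s e) (h' : Exits b R s e') :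
    e = e' := by
  obtain ⟨n, h1, h2, h3⟩ := h
  obtain ⟨n', h1', h2', h3'⟩ := h'
  have : n = n' := by
    rcases lt_trichotomy n n' with hlt | heq | hlt
    · exact absurd (h1' n hlt) h2
    · exact heq
    · exact absurd (h1 n' hlt) h2'
  subst this
  rw [← h3, ← h3']

lemma pos_congr {R : ℤ → ℤ → Prop} {b' : ℤ → ℤ → Bool} (hb : ∀ i j, R i j → b i j = b' i j) {s : St} :
    ∀ {n : ℕ}, (∀ m < n, R (pos b s m).i (pos b s m).j) → pos b s n = pos b' s n := by
  intro n
  induction n with
  | zero => intro _; rfl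
  | succ n ih =>
    intro h
    rw [pos_succ, pos_succ, ← ih (fun m hm => h m (by omega))]
    unfold step
    rw [hb _ _ (h n (by omega))]

lemma Exits.congr {R : ℤ → ℤ → Prop} {b' : ℤ → ℤ → Bool} (hb : ∀ i j, R i j → b i j = b' i j) {s e : St}
    (h : Exits b R s e) : Exits b' R s e := by
  obtain ⟨n, h1, h2, h3⟩ := h
  have key : ∀ m ≤ n, pos b s m = pos b' s m := fun m hm => pos_congr hb (fun k hk => h1 k (by omega))
  refine ⟨n, fun m hm => ?_, ?_, ?_⟩
  · rw [← key m hm.le]; exact h1 m hm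
  · rw [← key n le_rfl]; exact h2
  · rw [← key n le_rfl]; exact h3

/-- the rows `s, ..., s + K - 1` -/
def strip (s : ℤ) (K : ℕ) (_i j : ℤ) : Prop := s ≤ j ∧ j < s + K

/-- the window with the columns `a, ..., c - 1` and the rows `s, ..., s + h - 1` -/
def win (a c s : ℤ) (h : ℕ) (i j : ℤ) : Prop := a ≤ i ∧ i < c ∧ s ≤ j ∧ j < s + h

variable (b)

/-- the strand which enters the rows `s, ..., s + K - 1` at the column `x` from below leaves them
through the top -/
def Thr (s : ℤ) (K : ℕ) (x : ℤ) : Prop := ∃ e, Exits b (strip s K) ⟨x, s, .N⟩ e ∧ e.j = s + K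

/-- the strand which enters the window at the column `x` from below leaves it, and not through the
floor -/
def Far (a c s : ℤ) (h : ℕ) (x : ℤ) : Prop := ∃ e, Exits b (win a c s h) ⟨x, s, .N⟩ e ∧ e.j ≠ s - 1

variable {b}

lemma Far.congr {b' : ℤ → ℤ → Bool} {a c s : ℤ} {h : ℕ} {x : ℤ}
    (hb : ∀ i j, win a c s h i j → b i j = b' i j) (hf : Far b a c s h x) : Far b' a c s h x := by
  obtain ⟨e, h1, h2⟩ := hf
  exact ⟨e, h1.congr hb, h2⟩

lemma Thr.congr {b' : ℤ → ℤ → Bool} {s : ℤ} {K : ℕ} {x : ℤ}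
    (hb : ∀ i j, strip s K i j → b i j = b' i j) (hf : Thr b s K x) : Thr b' s K x := by
  obtain ⟨e, h1, h2⟩ := hf
  exact ⟨e, h1.congr hb, h2⟩

lemma step_j (s : St) : (step b s).j = s.j + (step b s).d.dy := rfl

lemma step_i (s : St) : (step b s).i = s.i + (step b s).d.dx := rfl

lemma dy_cases (d : Dir) : d.dy = 0 ∨ (d = .N ∧ d.dy = 1) ∨ (d = .S ∧ d.dy = -1) := by
  cases d <;> simp [Dir.dy]

lemma dx_cases (d : Dir) : d.dx = 0 ∨ (d = .E ∧ d.dx = 1) ∨ (d = .W ∧ d.dx = -1) := by
  cases d <;> simp [Dir.dx]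

/-- a through strand of the band leaves every window, and not through the floor -/
lemma Thr.far {a c s : ℤ} {h : ℕ} {x : ℤ} (ht : Thr b s h x) : Far b a c s h x := by
  classical
  obtain ⟨e, ⟨n, h1, h2, h3⟩, h4⟩ := ht
  have hex : ∃ m, ¬ win a c s h (pos b ⟨x, s, .N⟩ m).i (pos b ⟨x, s, .N⟩ m).j :=
    ⟨n, fun hw => h2 ⟨hw.2.2.1, hw.2.2.2⟩⟩
  have hn' := Nat.find_spec hex
  have hmin : ∀ m < Nat.find hex, win a c s h (pos b ⟨x, s, .N⟩ m).i (pos b ⟨x, s, .N⟩ m).j :=
    fun m hm => not_not.1 (Nat.find_min hex hm)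
  have hle : Nat.find hex ≤ n := Nat.find_min' hex (fun hw => h2 ⟨hw.2.2.1, hw.2.2.2⟩)
  refine ⟨_, ⟨Nat.find hex, hmin, hn', rfl⟩, ?_⟩
  intro hj
  rcases hle.lt_or_eq with hlt | heq
  · have := (h1 _ hlt).1
    omega
  · rw [heq, h3] at hj
    omega

/-- the passage of a through strand through a sub-band -/
lemma Thr.sub {s0 : ℤ} {K : ℕ} {x s : ℤ} {h : ℕ} (hs : s0 ≤ s) (hh : 1 ≤ h) (hK : s + h ≤ s0 + K)
    (ht : Thr b s0 K x) : ∃ m x', pos b ⟨x, s0, .N⟩ m = ⟨x', s, .N⟩ ∧ Thr b s h x' ∧
      ∀ k ≤ m, strip s0 K (pos b ⟨x, s0, .N⟩ k).i (pos b ⟨x, s0, .N⟩ k).j := by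
  classical
  obtain ⟨e, ⟨n, h1, h2, h3⟩, h4⟩ := ht
  set p : ℕ → St := pos b ⟨x, s0, .N⟩ with hp
  have pj : ∀ m, (p (m + 1)).j = (p m).j + (p (m + 1)).d.dy := fun m => by
    rw [hp, pos_succ]; exact step_j _
  have pn : (p n).j = s0 + K := by rw [h3, h4]
  have hex : ∃ m, s + h ≤ (p m).j := ⟨n, by omega⟩
  set n1 := Nat.find hex with hn1
  have a1 : s + h ≤ (p n1).j := Nat.find_spec hex
  have a2 : ∀ m < n1, (p m).j < s + h := fun m hm => not_le.1 (Nat.find_min hex hm)
  have a3 : n1 ≤ n := Nat.find_min' hex (by omega)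
  have p0 : (p 0).j = s0 := rfl
  have a4 : n1 ≠ 0 := by
    intro h0
    rw [h0, p0] at a1
    omega
  have a5 : (p n1).j = s + h := by
    obtain ⟨k, hk⟩ := Nat.exists_eq_succ_of_ne_zero a4
    have e1 := pj k
    have e2 := a2 k (by omega)
    have e3 := dy_cases (p (k + 1)).d
    rw [hk] at a1 ⊢
    change s + h ≤ (p (k + 1)).j at a1
    change (p (k + 1)).j = s + h
    omega
  -- the last entrance into the band
  have hex2 : ∃ m, m ≤ n1 ∧ ∀ k, m ≤ k → k < n1 → s ≤ (p k).j :=
    ⟨n1, le_rfl, fun k hk hk' => absurd hk (by omega)⟩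
  set m0 := Nat.find hex2 with hm0
  obtain ⟨b1, b2⟩ := Nat.find_spec hex2
  have b3 : m0 < n1 := by
    rcases Nat.lt_or_ge m0 n1 with hc | hc
    · exact hc
    · exfalso
      have e0 : m0 = n1 := le_antisymm b1 hc
      obtain ⟨k, hk⟩ := Nat.exists_eq_succ_of_ne_zero a4
      have e1 : ¬ (k ≤ n1 ∧ ∀ l, k ≤ l → l < n1 → s ≤ (p l).j) := Nat.find_min hex2 (by omega)
      apply e1
      refine ⟨by omega, fun l hl hl' => ?_⟩
      have e2 : l = k := by omega
      have e3 := pj k
      have e4 := dy_cases (p (k + 1)).d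
      have e5 : (p (k + 1)).j = s + h := by rw [← a5, hk]
      rw [e2]
      omega
  have b4 : s ≤ (p m0).j := b2 m0 le_rfl b3
  have b5 : p m0 = ⟨(p m0).i, s, .N⟩ := by
    rcases Nat.eq_zero_or_pos m0 with h0 | hpos
    · rw [h0] at b4 ⊢
      rw [p0] at b4
      have e1 : s0 = s := by omega
      rw [← e1]
      rfl
    · obtain ⟨k, hk⟩ := Nat.exists_eq_succ_of_ne_zero (by omega : m0 ≠ 0)
      have e1 : ¬ (k ≤ n1 ∧ ∀ l, k ≤ l → l < n1 → s ≤ (p l).j) := Nat.find_min hex2 (by omega)
      have e2 : (p k).j < s := by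
        by_contra hcon
        apply e1
        refine ⟨by omega, fun l hl hl' => ?_⟩
        rcases Nat.eq_or_lt_of_le hl with h | h
        · rw [← h]; omega
        · exact b2 l (by omega) hl'
      have e3 := pj k
      have e4 := dy_cases (p (k + 1)).d
      have e5 : p m0 = p (k + 1) := by rw [hk]
      rw [e5] at b4 ⊢
      ext
      · rfl
      · show (p (k + 1)).j = s
        omega
      · show (p (k + 1)).d = .N
        rcases e4 with h | ⟨h, _⟩ | ⟨_, h⟩
        · omega
        · exact h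
        · omega
  have hsh : ∀ k, pos b ⟨(p m0).i, s, .N⟩ k = p (m0 + k) := fun k => by
    rw [← b5, hp, ← pos_add]
  refine ⟨m0, (p m0).i, b5, ⟨p n1, ⟨n1 - m0, fun k hk => ?_, ?_, ?_⟩, a5⟩, fun k hk => ?_⟩
  · rw [hsh]
    exact ⟨b2 _ (by omega) (by omega), a2 _ (by omega)⟩
  · rw [hsh, show m0 + (n1 - m0) = n1 by omega]
    rintro ⟨_, h⟩
    omega
  · rw [hsh, show m0 + (n1 - m0) = n1 by omega]
  · exact h1 k (by omega)

end Full.Walk
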