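import Pool.Agent.Full.Walk.Fin

/-!
# Strands which cross a long rectangle lengthwise

`XR b a w s H`: the number of the strands which enter the rectangle `[a, a + w) × [s, s + H)`
through its floor and leave it through its top.
-/

set_option autoImplicit false
set_option linter.unusedSectionVars false
set_option linter.unnecessarySeqFocus false

namespace Full.Walk

open Finset Full.Mom
open Pool.Agent.Helper69.RSW (P Up P_mono)

variable {b : ℤ → ℤ → Bool}

/-! ### the right side of a strand -/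

lemma rc_step_left {s : St} (h : ¬ rturn (b s.i s.j) s.d) {ε : ℤ} (hc : col ε (rc s)) :
    (rc s = (dg ε (s.i, s.j)).1 ∧ rc (step b s) = (dg ε (s.i, s.j)).2) ∨
      (rc s = (dg ε (s.i, s.j)).2 ∧ rc (step b s) = (dg ε (s.i, s.j)).1) := by
  obtain ⟨i, j, d⟩ := s
  simp only at h ⊢
  unfold step
  simp only
  unfold col at hc
  unfold dg
  cases hv : b i j <;> cases d <;> rw [hv] at h <;> simp [rturn] at h <;>
    simp only [rc, turn, Dir.dx, Dir.dy] at hc ⊢
  · rw [if_neg (by omega)]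
    left
    refine ⟨Prod.ext ?_ ?_, Prod.ext ?_ ?_⟩ <;> simp only <;> omega
  · rw [if_neg (by omega)]
    right
    refine ⟨Prod.ext ?_ ?_, Prod.ext ?_ ?_⟩ <;> simp only <;> omega
  · rw [if_pos (by omega)]
    left
    refine ⟨Prod.ext ?_ ?_, Prod.ext ?_ ?_⟩ <;> simp only <;> omega
  · rw [if_pos (by omega)]
    right
    refine ⟨Prod.ext ?_ ?_, Prod.ext ?_ ?_⟩ <;> simp only <;> omega

lemma opn_of_left {s : St} (h : ¬ rturn (b s.i s.j) s.d) {ε : ℤ} (hc : col ε (rc s)) :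
    opn ε b (s.i, s.j) := by
  obtain ⟨i, j, d⟩ := s
  simp only at h ⊢
  unfold col at hc
  unfold opn
  simp only
  cases hv : b i j <;> cases d <;> rw [hv] at h <;> simp [rturn] at h <;>
    simp [rc] at hc ⊢ <;> omega

lemma col_rc_step {s : St} {ε : ℤ} (hc : col ε (rc s)) : col ε (rc (step b s)) := by
  by_cases h : rturn (b s.i s.j) s.d
  · rw [rc_step h]
    exact hc
  · have h1 := rc_step_left h hc
    unfold col at hc ⊢
    unfold dg at h1
    rcases h1 with ⟨h1, h2⟩ | ⟨h1, h2⟩ <;> rw [h2] <;> rw [h1] at hc <;> split_ifs at hc ⊢ <;>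
      simp only at hc ⊢ <;> omega

lemma col_rc_pos {t : St} {ε : ℤ} (hc : col ε (rc t)) : ∀ m : ℕ, col ε (rc (pos b t m))
  | 0 => hc
  | m + 1 => by
    rw [pos_succ]
    exact col_rc_step (col_rc_pos hc m)

/-- the corners on the left (on the right) of a walk in `F` are connected by open tiles of `F` -/
lemma conn_left {F : Finset (ℤ × ℤ)} {s0 : St} {ε : ℤ} (hc : col ε (lc s0)) {n : ℕ}
    (hF : ∀ m < n, ((pos b s0 m).i, (pos b s0 m).j) ∈ F) :
    Conn ε (oset ε b F) (lc s0) (lc (pos b s0 n)) := by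
  induction n with
  | zero => exact Relation.ReflTransGen.refl
  | succ m ih =>
    have h1 := ih (fun k hk => hF k (by omega))
    by_cases hr : rturn (b (pos b s0 m).i (pos b s0 m).j) (pos b s0 m).d
    · refine Relation.ReflTransGen.tail h1 ⟨((pos b s0 m).i, (pos b s0 m).j), ?_, ?_⟩
      · rw [mem_oset]
        exact ⟨hF m (by omega), opn_of_right hr (col_pos hc m)⟩
      · rw [pos_succ]
        exact lc_step_right hr (col_pos hc m)
    · rw [pos_succ, lc_step hr]
      exact h1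

lemma conn_right {F : Finset (ℤ × ℤ)} {s0 : St} {ε : ℤ} (hc : col ε (rc s0)) {n : ℕ}
    (hF : ∀ m < n, ((pos b s0 m).i, (pos b s0 m).j) ∈ F) :
    Conn ε (oset ε b F) (rc s0) (rc (pos b s0 n)) := by
  induction n with
  | zero => exact Relation.ReflTransGen.refl
  | succ m ih =>
    have h1 := ih (fun k hk => hF k (by omega))
    by_cases hr : rturn (b (pos b s0 m).i (pos b s0 m).j) (pos b s0 m).d
    · rw [pos_succ, rc_step hr]
      exact h1
    · refine Relation.ReflTransGen.tail h1 ⟨((pos b s0 m).i, (pos b s0 m).j), ?_, ?_⟩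
      · rw [mem_oset]
        exact ⟨hF m (by omega), opn_of_left hr (col_rc_pos hc m)⟩
      · rw [pos_succ]
        exact rc_step_left hr (col_rc_pos hc m)

/-! ### crossings of rectangles -/

/-- the strand which enters the rectangle `[a, c) × [s, s + H)` at the column `x` of its floor
leaves it through its top -/
def CrR (b : ℤ → ℤ → Bool) (a c s : ℤ) (H : ℕ) (x : ℤ) : Prop :=
  ∃ e, Exits b (win a c s H) ⟨x, s, .N⟩ e ∧ e.j = s + H

open scoped Classical in
/-- the number of the strands which cross the rectangle `[a, c) × [s, s + H)` from the floor to the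
top -/
noncomputable def XR (b : ℤ → ℤ → Bool) (a c s : ℤ) (H : ℕ) : ℕ :=
  ((Ico a c).filter (fun x : ℤ => CrR b a c s H x)).card

lemma CrR.congr {b' : ℤ → ℤ → Bool} {a c s : ℤ} {H : ℕ} {x : ℤ}
    (hb : ∀ i j, win a c s H i j → b i j = b' i j) (hf : CrR b a c s H x) : CrR b' a c s H x := by
  obtain ⟨e, h1, h2⟩ := hf
  exact ⟨e, h1.congr hb, h2⟩

lemma XR_congr {b' : ℤ → ℤ → Bool} {a c s : ℤ} {H : ℕ}
    (hb : ∀ i j, win a c s H i j → b i j = b' i j) : XR b a c s H = XR b' a c s H := by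
  classical
  unfold XR
  congr 1
  apply filter_congr
  intro x _
  exact ⟨fun h1 => h1.congr hb, fun h1 => h1.congr (fun i j hw => (hb i j hw).symm)⟩

/-- a crossing strand leaves every larger window of the same height, not through the floor -/
lemma CrR.far {a c s : ℤ} {H : ℕ} {x a' c' : ℤ} (ha : a' ≤ a) (hc : c ≤ c') (h : CrR b a c s H x) :
    Far b a' c' s H x := by
  obtain ⟨e, ⟨n, h1, h2, h3⟩, h4⟩ := h
  refine ⟨e, ⟨n, fun m hm => ?_, ?_, h3⟩, by omega⟩
  · obtain ⟨g1, g2, g3, g4⟩ := h1 m hm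
    exact ⟨by omega, by omega, g3, g4⟩
  · rintro ⟨_, _, _, g4⟩
    rw [h3] at g4
    omega

/-- the passage through a block of full width -/
lemma CrR.sub {a c s0 : ℤ} {K : ℕ} {x s : ℤ} {h : ℕ} (hs : s0 ≤ s) (hh : 1 ≤ h) (hK : s + h ≤ s0 + K)
    (ht : CrR b a c s0 K x) (_hx : a ≤ x ∧ x < c) : ∃ m x', pos b ⟨x, s0, .N⟩ m = ⟨x', s, .N⟩ ∧
      CrR b a c s h x' ∧ (a ≤ x' ∧ x' < c) ∧
      ∀ k ≤ m, win a c s0 K (pos b ⟨x, s0, .N⟩ k).i (pos b ⟨x, s0, .N⟩ k).j := by
  classical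
  obtain ⟨e, ⟨n, h1, h2, h3⟩, h4⟩ := ht
  have hthr : Thr b s0 K x := by
    refine ⟨e, ⟨n, fun m hm => ⟨(h1 m hm).2.2.1, (h1 m hm).2.2.2⟩, ?_, h3⟩, h4⟩
    rintro ⟨_, g⟩
    rw [h3] at g
    omega
  obtain ⟨m, x', g1, g2, g3⟩ := hthr.sub hs hh hK
  have hmn : m < n := by
    by_contra hcon
    have g4 := (g3 n (by omega)).2
    rw [h3] at g4
    omega
  have gwin : ∀ k ≤ m, win a c s0 K (pos b ⟨x, s0, .N⟩ k).i (pos b ⟨x, s0, .N⟩ k).j :=
    fun k hk => h1 k (by omega)
  obtain ⟨e', ⟨n', k1, k2, k3⟩, k4⟩ := g2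
  have hsh : ∀ k, pos b ⟨x', s, .N⟩ k = pos b ⟨x, s0, .N⟩ (m + k) := fun k => by
    rw [← g1, ← pos_add]
  have hn' : m + n' ≤ n := by
    by_contra hcon
    obtain ⟨l, hl⟩ : ∃ l, n = m + l := ⟨n - m, by omega⟩
    have k5 := (k1 l (by omega)).2
    rw [hsh, ← hl, h3] at k5
    omega
  have hx' : a ≤ x' ∧ x' < c := by
    have g5 := gwin m le_rfl
    rw [g1] at g5
    exact ⟨g5.1, g5.2.1⟩
  refine ⟨m, x', g1, ⟨e', ⟨n', fun k hk => ?_, ?_, k3⟩, k4⟩, hx', gwin⟩
  · have g5 := h1 (m + k) (by omega)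
    rw [← hsh] at g5
    exact ⟨g5.1, g5.2.1, (k1 k hk).1, (k1 k hk).2⟩
  · rintro ⟨_, _, g6, g7⟩
    exact k2 ⟨g6, g7⟩

theorem XR_sub {a c s0 s : ℤ} {K h : ℕ} (hs : s0 ≤ s) (hh : 1 ≤ h) (hK : s + h ≤ s0 + K) :
    XR b a c s0 K ≤ XR b a c s h := by
  classical
  have h1 : ∀ x : ℤ, (a ≤ x ∧ x < c) ∧ CrR b a c s0 K x → ∃ m x', pos b ⟨x, s0, .N⟩ m = ⟨x', s, .N⟩ ∧
      CrR b a c s h x' ∧ (a ≤ x' ∧ x' < c) ∧
      ∀ k ≤ m, win a c s0 K (pos b ⟨x, s0, .N⟩ k).i (pos b ⟨x, s0, .N⟩ k).j :=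
    fun x hx => hx.2.sub hs hh hK hx.1
  choose! m x' h2 h3 h4 h5 using h1
  unfold XR
  apply card_le_card_of_injOn x'
  · intro x hx
    rw [mem_coe, mem_filter, mem_Ico] at hx
    rw [mem_coe, mem_filter, mem_Ico]
    exact ⟨h4 x hx, h3 x hx⟩
  · intro x hx y hy hxy
    rw [mem_coe, mem_filter, mem_Ico] at hx hy
    have e1 : pos b ⟨x, s0, .N⟩ (m x) = pos b ⟨y, s0, .N⟩ (m y) := by
      rw [h2 x hx, h2 y hy, hxy]
    have key : ∀ u v : ℤ, (a ≤ u ∧ u < c) ∧ CrR b a c s0 K u → ∀ l, l ≤ m u → 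
        (⟨v, s0, .N⟩ : St) = pos b ⟨u, s0, .N⟩ l → v = u := by
      intro u v hu l hl hv
      rcases Nat.eq_zero_or_pos l with h0 | h0
      · subst h0
        rw [pos_zero] at hv
        injection hv
      · have g := h5 u hu (l - 1) (by omega)
        exact (not_back (K := K) h0 hv ⟨g.2.2.1, g.2.2.2⟩).elim
    rcases meet b e1 with ⟨l, g1, g2⟩ | ⟨l, g1, g2⟩
    · exact (key x y hx l (by omega) g1).symm
    · exact key y x hy l (by omega) g1

/-- a crossing strand of a block of width `< h` and height `h` gives the event `Out` for both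
colours -/
lemma CrR.out {a s : ℤ} {w h : ℕ} (hw : w < h) {x : ℤ} (hx : a ≤ x) (hx' : x < a + w)
    (hc : CrR b a (a + w) s h x) (ε : ℤ) : Out ε a s h (oset ε b (winF (a - h) (a + 2 * h) s h)) := by
  obtain ⟨e, ⟨n, h1, h2, h3⟩, h4⟩ := hc
  have hF : ∀ m < n, ((pos b ⟨x, s, .N⟩ m).i, (pos b ⟨x, s, .N⟩ m).j) ∈ winF (a - h) (a + 2 * h) s h := by
    intro m hm
    rw [mem_winF]
    obtain ⟨g1, g2, g3, g4⟩ := h1 m hm
    simp only
    omega
  have hn : n ≠ 0 := by
    rintro rfl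
    rw [pos_zero] at h3
    rw [← h3] at h4
    simp only at h4
    omega
  obtain ⟨k, rfl⟩ := Nat.exists_eq_succ_of_ne_zero hn
  -- the last step goes up
  have hd : e.d = .N := by
    have g1 := h1 k (Nat.lt_succ_self k)
    have g2 := step_j (b := b) (pos b ⟨x, s, .N⟩ k)
    rw [← pos_succ] at g2
    have g3 : pos b ⟨x, s, .N⟩ (k + 1) = e := h3
    rw [g3] at g2
    have g4 := g1.2.2.2
    rcases dy_cases e.d with g5 | ⟨g5, _⟩ | ⟨_, g5⟩
    · omega
    · exact g5
    · omega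
  have hl : (lc e).2 = s + h := by
    unfold lc
    rw [hd]
    simp only
    exact h4
  have hr : (rc e).2 = s + h := by
    unfold rc
    rw [hd]
    simp only
    exact h4
  rcases Int.emod_two_eq_zero_or_one (x + s - ε) with hp | hp
  · refine ⟨x, lc e, hx, by omega, hp, ?_, Or.inr (Or.inr hl)⟩
    have := conn_left (b := b) (s0 := ⟨x, s, .N⟩) (ε := ε) hp hF
    rw [show pos b ⟨x, s, .N⟩ (k + 1) = e from h3] at this
    exact this
  · have hp' : col ε (rc ⟨x, s, .N⟩) := by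
      unfold col rc
      simp only
      omega
    refine ⟨x + 1, rc e, by omega, by omega, by omega, ?_, Or.inr (Or.inr hr)⟩
    have := conn_right (b := b) (s0 := ⟨x, s, .N⟩) (ε := ε) hp' hF
    rw [show pos b ⟨x, s, .N⟩ (k + 1) = e from h3] at this
    exact this

lemma XR_le {a s : ℤ} {w h : ℕ} (hw : w ≤ h) : XR b a (a + w) s h ≤ Yc b a s h := by
  classical
  unfold XR Yc
  apply card_le_card
  intro x hx
  rw [mem_filter, mem_Ico] at hx ⊢
  exact ⟨⟨hx.1.1, by omega⟩, hx.2.far (by omega) (by omega)⟩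

section prob
variable {ι : Type*} [Fintype ι] [DecidableEq ι]

/-- the chart of the window with itself as index set -/
noncomputable def selfIdx (F : Finset (ℤ × ℤ)) (hF : F.Nonempty) : ℤ → ℤ → F :=
  idx F hF (fun i j => (i, j))

lemma selfIdx_inj {F : Finset (ℤ × ℤ)} (hF : F.Nonempty) : ∀ t ∈ F, ∀ t' ∈ F,
    selfIdx F hF t.1 t.2 = selfIdx F hF t'.1 t'.2 → t = t' := by
  intro t ht t' ht' h
  unfold selfIdx at h
  rw [idx_of_mem hF (by simpa using ht), idx_of_mem hF (by simpa using ht')] at h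
  have := congrArg Subtype.val h
  simpa using this

/-- tail of the number of the strands which cross a block -/
theorem pr_block_le {q : ℝ} (hq : RswQ q) {τ : ℤ → ℤ → ι} {a s : ℤ} {w h : ℕ} (hw : w < h)
    (hτ : ∀ t ∈ winF a (a + w) s h, ∀ t' ∈ winF a (a + w) s h,
      τ t.1 t.2 = τ t'.1 t'.2 → t = t') (k : ℕ) (hk : 1 ≤ k) :
    pr (fun ω : ι → Bool => k ≤ XR (bits τ ω) a (a + w) s h) ≤ min q (2 * q ^ ((k + 1) / 2)) := by
  classical
  have hne : (a, s) ∈ winF (a - h) (a + 2 * h) s h := by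
    rw [mem_winF]
    simp only
    omega
  set F := winF (a - h) (a + 2 * h) s h with hF
  have hFne : F.Nonempty := ⟨_, hne⟩
  have hsub : ∀ t ∈ winF a (a + w) s h, t ∈ F := by
    intro t ht
    rw [hF, mem_winF]
    rw [mem_winF] at ht
    omega
  have hself := selfIdx_inj hFne
  have e1 : pr (fun ω : ι → Bool => k ≤ XR (bits τ ω) a (a + w) s h) =
      pr (fun ω : F → Bool => k ≤ XR (bits (selfIdx F hFne) ω) a (a + w) s h) := by
    apply pr_bits_eq τ (selfIdx F hFne) (winF a (a + w) s h) hτ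
      (fun t ht t' ht' => hself t (hsub t ht) t' (hsub t' ht'))
      (fun b => k ≤ XR b a (a + w) s h)
    intro b b' hb
    rw [XR_congr (b := b) (b' := b') (fun i j hij => hb (i, j) (by rw [mem_winF]; exact hij))]
  rw [e1]
  have hi : WInj (selfIdx F hFne) a s h := hself
  apply le_min
  · -- one strand
    have h1 : pr (fun ω : F → Bool => k ≤ XR (bits (selfIdx F hFne) ω) a (a + w) s h) ≤
        pr (fun ω : F → Bool => Out 0 a s h (oset 0 (fun i j => ω (selfIdx F hFne i j)) F)) := by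
      apply pr_mono
      intro ω hω
      have h2 : 0 < XR (bits (selfIdx F hFne) ω) a (a + w) s h := by omega
      unfold XR at h2
      obtain ⟨x, hx⟩ := card_pos.1 h2
      rw [mem_filter, mem_Ico] at hx
      exact hx.2.out hw hx.1.1 hx.1.2 0
    refine h1.trans ?_
    rw [pr_oset (selfIdx F hFne) 0 F hi]
    exact hq.2.2 0 a s h (by omega)
  · have h1 : pr (fun ω : F → Bool => k ≤ XR (bits (selfIdx F hFne) ω) a (a + w) s h) ≤
        pr (fun ω : F → Bool => (k + 1) / 2 ≤ Ye 0 (bits (selfIdx F hFne) ω) a s h) +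
          pr (fun ω : F → Bool => (k + 1) / 2 ≤ Ye 1 (bits (selfIdx F hFne) ω) a s h) := by
      rw [pr_split _ (fun ω : F → Bool => (k + 1) / 2 ≤ Ye 0 (bits (selfIdx F hFne) ω) a s h)]
      apply add_le_add
      · exact pr_mono fun ω h2 => h2.1
      · apply pr_mono
        intro ω h2
        have h3 := h2.2.trans ((XR_le (b := bits (selfIdx F hFne) ω) (a := a) (s := s) hw.le).trans
          (Yc_le _ _ _ _))
        have h4 := h2.1
        omega
    refine h1.trans ?_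
    have h2 := pr_Ye_le hq 0 (by omega) hi ((k + 1) / 2)
    have h3 := pr_Ye_le hq 1 (by omega) hi ((k + 1) / 2)
    linarith

/-- a base for the tail of a block -/
lemma exists_tail_base {q : ℝ} (h0 : 0 ≤ q) (h1 : q < 1) : ∃ r : ℝ, 0 ≤ r ∧ r < 1 ∧
    ∀ k : ℕ, 1 ≤ k → min q (2 * q ^ ((k + 1) / 2)) ≤ r ^ k := by
  -- `r = q' ^ (1 / K)` with `q' = (1 + q) / 2`, `2 q ^ (k / 2) ≤ ...`
  set p : ℝ := (1 + q) / 2 with hp
  have hp0 : 0 < p := by linarith
  have hp1 : p < 1 := by linarith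
  have hqp : q < p := by linarith
  -- `K` with `2 (q / p) ^ m ≤ 1` for `m ≥ K`
  have hx : 0 ≤ q / p := by positivity
  have hx1 : q / p < 1 := by rw [div_lt_one hp0]; exact hqp
  obtain ⟨K, hK⟩ := exists_pow_lt_of_lt_one (show (0 : ℝ) < 1 / 2 by norm_num) hx1
  set M : ℕ := 2 * K + 2 with hM
  have hMpos : (0 : ℝ) < M := by rw [hM]; positivity
  refine ⟨p ^ ((1 : ℝ) / M), by positivity, ?_, ?_⟩
  · exact Real.rpow_lt_one hp0.le hp1 (by positivity)
  · intro k hk
    have e1 : (p ^ ((1 : ℝ) / M)) ^ k = p ^ ((k : ℝ) / M) := by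
      rw [← Real.rpow_natCast, ← Real.rpow_mul hp0.le]
      congr 1
      ring
    rw [e1]
    by_cases hkM : k ≤ M
    · refine (min_le_left _ _).trans ?_
      calc q ≤ p := hqp.le
        _ = p ^ (1 : ℝ) := (Real.rpow_one p).symm
        _ ≤ p ^ ((k : ℝ) / M) := by
          apply Real.rpow_le_rpow_of_exponent_ge hp0 hp1.le
          rw [div_le_one hMpos]
          exact_mod_cast hkM
    · rw [not_le] at hkM
      refine (min_le_right _ _).trans ?_
      set m := (k + 1) / 2 with hm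
      have hmK : K ≤ m := by omega
      have h2 : 2 * (q / p) ^ m ≤ 1 := by
        have h3 : (q / p) ^ m ≤ (q / p) ^ K := pow_le_pow_of_le_one hx hx1.le hmK
        linarith
      have h4 : 2 * q ^ m ≤ p ^ m := by
        rw [div_pow] at h2
        have hpm : 0 < p ^ m := by positivity
        have h5 : 2 * (q ^ m / p ^ m) * p ^ m ≤ 1 * p ^ m := mul_le_mul_of_nonneg_right h2 hpm.le
        have h6 : 2 * (q ^ m / p ^ m) * p ^ m = 2 * q ^ m := by field_simp
        linarith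
      refine h4.trans ?_
      rw [← Real.rpow_natCast]
      apply Real.rpow_le_rpow_of_exponent_ge hp0 hp1.le
      have h7 : k ≤ 2 * m := by omega
      have h8 : (k : ℝ) ≤ 2 * m := by exact_mod_cast h7
      have h9 : (2 : ℝ) ≤ M := by
        rw [hM]
        push_cast
        have : (0 : ℝ) ≤ K := by positivity
        linarith
      rw [div_le_iff₀ hMpos]
      nlinarith [(by positivity : (0 : ℝ) ≤ m)]

/-- the indices of the tiles of a rectangle -/
def rset (τ : ℤ → ℤ → ι) (a c s : ℤ) (h : ℕ) : Set ι := {k | ∃ i j, win a c s h i j ∧ τ i j = k}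

lemma dep_XR (τ : ℤ → ℤ → ι) (a c s : ℤ) (h : ℕ) :
    Dep (rset τ a c s h) (fun ω : ι → Bool => XR (bits τ ω) a c s h) := by
  intro ω ω' hw
  apply XR_congr
  intro i j hij
  exact hw _ ⟨i, j, hij, rfl⟩

/-- **strands which cross a long rectangle**: the tail -/
theorem pr_XR_le {q r : ℝ} (hq : RswQ q) (hr : ∀ k : ℕ, 1 ≤ k → min q (2 * q ^ ((k + 1) / 2)) ≤ r ^ k)
    {τ : ℤ → ℤ → ι} {a s : ℤ} {w h A H : ℕ} (hw : w < h) (hH : A * h ≤ H)
    (hτ : ∀ t ∈ winF a (a + w) s H, ∀ t' ∈ winF a (a + w) s H,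
      τ t.1 t.2 = τ t'.1 t'.2 → t = t') (k : ℕ) (hk : 1 ≤ k) :
    pr (fun ω : ι → Bool => k ≤ XR (bits τ ω) a (a + w) s H) ≤ (r ^ A) ^ k := by
  classical
  have hband : ∀ l ∈ range A, (s + (l : ℤ) * h) + h ≤ s + H ∧ 0 ≤ (l : ℤ) * h := by
    intro l hl
    rw [mem_range] at hl
    have h1 : (l + 1) * h ≤ A * h := Nat.mul_le_mul_right h hl
    have h2 : ((l : ℤ) + 1) * h ≤ H := by exact_mod_cast h1.trans hH
    exact ⟨by linarith, by positivity⟩
  have key := pr_bands (ι := ι) (range A) (A := fun l => rset τ a (a + w) (s + (l : ℤ) * h) h)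
    (X := fun ω => XR (bits τ ω) a (a + w) s H)
    (Y := fun l ω => XR (bits τ ω) a (a + w) (s + (l : ℤ) * h) h) ?_
    (fun l _ => dep_XR τ a (a + w) _ h) ?_ k
  · refine key.trans ?_
    calc ∏ l ∈ range A, pr (fun ω : ι → Bool => k ≤ XR (bits τ ω) a (a + w) (s + (l : ℤ) * h) h)
        ≤ ∏ _l ∈ range A, r ^ k := by
          apply prod_le_prod
          · intro l _
            exact pr_nonneg _
          · intro l hl
            refine (pr_block_le hq hw ?_ k hk).trans (hr k hk)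
            intro t ht t' ht' h1
            have hl' := hband l hl
            rw [mem_winF] at ht ht'
            exact hτ t (by rw [mem_winF]; omega) t' (by rw [mem_winF]; omega) h1
      _ = (r ^ A) ^ k := by rw [prod_const, card_range, ← pow_mul, ← pow_mul, mul_comm]
  · intro l hl l' hl' hne
    rw [Set.disjoint_left]
    rintro t ⟨i, j, g1, g2⟩ ⟨i', j', g3, g4⟩
    unfold win at g1 g3
    have hb := hband l hl
    have hb' := hband l' hl'
    have h5 := hτ (i, j) (by rw [mem_winF]; simp only; omega) (i', j')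
      (by rw [mem_winF]; simp only; omega) (g2.trans g4.symm)
    have h6 : j = j' := congrArg Prod.snd h5
    have f : (l : ℤ) * h + h ≤ l' * h ∨ (l' : ℤ) * h + h ≤ l * h := by
      rcases lt_or_gt_of_ne hne with hlt | hlt
      · left
        have := mul_le_mul_of_nonneg_right (show (l : ℤ) + 1 ≤ l' by omega)
          (show (0 : ℤ) ≤ h by omega)
        linarith
      · right
        have := mul_le_mul_of_nonneg_right (show (l' : ℤ) + 1 ≤ l by omega)
          (show (0 : ℤ) ≤ h by omega)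
        linarith
    omega
  · intro l hl ω
    have hb := hband l hl
    exact XR_sub (by omega) (by omega) hb.1

/-- the layer cake sum for an exponential moment -/
lemma avg_pow_le_sum {Q : ℝ} (hQ : 1 ≤ Q) (X : (ι → Bool) → ℕ) (u : ℕ → ℝ)
    (h1 : ∀ k, 1 ≤ k → pr (fun ω => k ≤ X ω) ≤ u k) :
    ∃ B : ℕ, avg (fun ω => Q ^ X ω) ≤ 1 + ∑ j ∈ range B, Q ^ (j + 1) * u (j + 1) := by
  classical
  have hQ0 : 0 ≤ Q := by linarith
  obtain ⟨B, hB⟩ : ∃ B, ∀ ω, X ω ≤ B :=
    ⟨univ.sup X, fun ω => le_sup (mem_univ ω)⟩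
  refine ⟨B, ?_⟩
  have h2 : ∀ ω, Q ^ X ω ≤
      1 + ∑ j ∈ range B, Q ^ (j + 1) * (if j + 1 ≤ X ω then (1 : ℝ) else 0) := by
    intro ω
    refine (pow_le_one_add_sum hQ _).trans (add_le_add_right ?_ 1)
    have h4 : ∑ j ∈ range (X ω), Q ^ (j + 1) = ∑ j ∈ range (X ω), Q ^ (j + 1) *
            (if j + 1 ≤ X ω then (1 : ℝ) else 0) := by
      apply sum_congr rfl
      intro j hj
      rw [mem_range] at hj
      rw [if_pos (by omega), mul_one]
    rw [h4]
    apply sum_le_sum_of_subset_of_nonneg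
    · intro j hj
      rw [mem_range] at hj ⊢
      have := hB ω
      omega
    · intro j _ _
      split_ifs <;> positivity
  refine (avg_mono h2).trans ?_
  rw [avg_add, avg_const, avg_sum]
  refine add_le_add_right (sum_le_sum fun j _ => ?_) 1
  rw [avg_mul_left]
  refine mul_le_mul_of_nonneg_left ?_ (by positivity)
  refine le_trans (le_of_eq ?_) (h1 (j + 1) (by omega))
  unfold pr
  congr 1
  funext ω
  congr 1

/-- **exponential moments**: close to one for long rectangles -/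
theorem avg_XR_le {q r Q : ℝ} (hq : RswQ q) (hr0 : 0 ≤ r)
    (hr : ∀ k : ℕ, 1 ≤ k → min q (2 * q ^ ((k + 1) / 2)) ≤ r ^ k) (hQ : 1 ≤ Q)
    {τ : ℤ → ℤ → ι} {a s : ℤ} {w h A H : ℕ} (hw : w < h) (hH : A * h ≤ H) (hA : Q * r ^ A ≤ 1 / 2)
    (hτ : ∀ t ∈ winF a (a + w) s H, ∀ t' ∈ winF a (a + w) s H,
      τ t.1 t.2 = τ t'.1 t'.2 → t = t') :
    avg (fun ω : ι → Bool => Q ^ XR (bits τ ω) a (a + w) s H) ≤ 1 + 2 * (Q * r ^ A) := by
  classical
  have hQ0 : 0 ≤ Q := by linarith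
  set θ := r ^ A with hθ
  have hθ0 : 0 ≤ θ := by positivity
  have h1 := fun k hk => pr_XR_le (τ := τ) (a := a) (s := s) hq hr hw hH hτ k hk
  have h3 := avg_pow_le_sum (ι := ι) hQ (fun ω => XR (bits τ ω) a (a + w) s H)
    (fun j => θ ^ j) (fun k hk => h1 k hk)
  obtain ⟨B, h3⟩ := h3
  refine h3.trans (add_le_add_right ?_ 1)
  have h4 : ∀ j, Q ^ (j + 1) * θ ^ (j + 1) = (Q * θ) * (Q * θ) ^ j := by
    intro j
    rw [← mul_pow, pow_succ]
    ring
  simp only [h4]
  rw [← mul_sum]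
  have h5 : ∑ j ∈ range B, (Q * θ) ^ j ≤ 2 := by
    have hx0 : 0 ≤ Q * θ := by positivity
    calc ∑ j ∈ range B, (Q * θ) ^ j ≤ ∑ j ∈ range B, ((1 : ℝ) / 2) ^ j :=
          sum_le_sum fun j _ => pow_le_pow_left₀ hx0 hA j
      _ ≤ 2 := by
        have := geom_sum_eq (show (1 : ℝ) / 2 ≠ 1 by norm_num) B
        rw [this]
        have h6 : (0 : ℝ) ≤ (1 / 2) ^ B := by positivity
        rw [div_le_iff_of_neg (by norm_num)]
        linarith
  nlinarith [mul_nonneg hQ0 hθ0]

end prob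

end Full.Walk
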