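import Pool.Agent.Helper69.RSW.Prob

/-!
# Windows of tiles and the event that a floor interval is connected to the rest of the boundary

Corners of tiles: points `(i, j)`; the tile `(i, j)` has the corners `(i, j)`, `(i + 1, j)`,
`(i, j + 1)`, `(i + 1, j + 1)`.  A corner has colour `ε` if `i + j - ε` is even; every tile has
exactly one diagonal of colour `ε`.
-/

set_option autoImplicit false

namespace Full.Walk

open Finset

/-- the tiles of the window with the columns `a, ..., c - 1` and the rows `s, ..., s + h - 1` -/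
noncomputable def winF (a c s : ℤ) (h : ℕ) : Finset (ℤ × ℤ) := Finset.Ico a c ×ˢ Finset.Ico s (s + h)

lemma mem_winF {a c s : ℤ} {h : ℕ} {t : ℤ × ℤ} :
    t ∈ winF a c s h ↔ a ≤ t.1 ∧ t.1 < c ∧ s ≤ t.2 ∧ t.2 < s + h := by
  unfold winF
  rw [mem_product, mem_Ico, mem_Ico]
  tauto

/-- the diagonal of colour `ε` of the tile `t` -/
def dg (ε : ℤ) (t : ℤ × ℤ) : (ℤ × ℤ) × (ℤ × ℤ) :=
  if (t.1 + t.2 - ε) % 2 = 0 then (t, (t.1 + 1, t.2 + 1)) else ((t.1 + 1, t.2), (t.1, t.2 + 1))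

/-- `u` and `v` are the ends of the diagonal of colour `ε` of a tile in `O` -/
def AdjE (ε : ℤ) (O : Finset (ℤ × ℤ)) (u v : ℤ × ℤ) : Prop :=
  ∃ t ∈ O, (u = (dg ε t).1 ∧ v = (dg ε t).2) ∨ (u = (dg ε t).2 ∧ v = (dg ε t).1)

/-- `u` and `v` are connected by diagonals of colour `ε` of tiles in `O` -/
def Conn (ε : ℤ) (O : Finset (ℤ × ℤ)) (u v : ℤ × ℤ) : Prop :=
  Relation.ReflTransGen (AdjE ε O) u v

/-- in the window `[a - h, a + 2h) × [s, s + h)`: a corner of colour `ε` on the middle third of the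
floor is connected to the left side, the right side or the top -/
def Out (ε a s : ℤ) (h : ℕ) (O : Finset (ℤ × ℤ)) : Prop :=
  ∃ (x : ℤ) (v : ℤ × ℤ), a ≤ x ∧ x < a + h ∧ (x + s - ε) % 2 = 0 ∧ Conn ε O (x, s) v ∧
    (v.1 = a - h ∨ v.1 = a + 2 * h ∨ v.2 = s + h)

lemma AdjE.mono {ε : ℤ} {O O' : Finset (ℤ × ℤ)} (hO : O ⊆ O') {u v : ℤ × ℤ} (h : AdjE ε O u v) :
    AdjE ε O' u v := by
  obtain ⟨t, ht, h⟩ := h
  exact ⟨t, hO ht, h⟩

lemma Conn.mono {ε : ℤ} {O O' : Finset (ℤ × ℤ)} (hO : O ⊆ O') {u v : ℤ × ℤ} (h : Conn ε O u v) :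
    Conn ε O' u v := by
  unfold Conn at h ⊢
  induction h with
  | refl => exact Relation.ReflTransGen.refl
  | tail _ h2 ih => exact ih.tail (h2.mono hO)

lemma up_Out (ε a s : ℤ) (h : ℕ) : Pool.Agent.Helper69.RSW.Up (Out ε a s h) := by
  intro O O' hO hc
  obtain ⟨x, v, h1, h2, h3, h4, h5⟩ := hc
  exact ⟨x, v, h1, h2, h3, h4.mono hO, h5⟩

end Full.Walk
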