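import Pool.Agent.Full.Walk.Band

/-!
# Exponential moments of the number of strands across a band of bounded shape

`exp_moment`: for all `δ > 0`, `Q` there is a constant `C` such that for the cylinder with `L`
columns (even or odd) and `K ≥ δ L` rows of fair tiles the average of `Q ^ t` is at most `C`, where
`t` is the number of the strands which cross the rows.
-/

set_option autoImplicit false

namespace Full.Walk

open Finset Full.Mom

/-- a base with a finite moment for a window -/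
lemma exists_base {q : ℝ} (h1 : q < 1) : ∃ y : ℝ, 1 < y ∧ y ^ 12 * q < 1 := by
  have hc : Filter.Tendsto (fun y : ℝ => y ^ 12 * q) (nhdsWithin 1 (Set.Ioi 1)) (nhds (1 ^ 12 * q)) := by
    apply Filter.Tendsto.mono_left _ nhdsWithin_le_nhds
    exact (((continuous_id.pow 12).mul continuous_const).tendsto 1)
  rw [one_pow, one_mul] at hc
  have h2 := hc.eventually (gt_mem_nhds h1)
  have h3 := (h2.and self_mem_nhdsWithin).exists
  obtain ⟨y, h4, h5⟩ := h3
  exact ⟨y, h5, h4⟩

theorem exp_moment.{u} {q : ℝ} (hq : RswQ q) {δ Q : ℝ} (hδ : 0 < δ) (hQ : 1 ≤ Q) :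
    ∃ C : ℝ, 1 ≤ C ∧ ∀ (ι : Type u) [Fintype ι] [DecidableEq ι] (L K : ℕ) (τ : ℤ → ℤ → ι),
      Cyl L K τ → δ * L ≤ K → avg (fun ω : ι → Bool => Q ^ tcount (bits τ ω) L 0 K) ≤ C := by
  obtain ⟨y, hy1, hyq⟩ := exists_base hq.2.1
  obtain ⟨m0, hm0⟩ := pow_unbounded_of_one_lt Q hy1
  -- m ≥ 1 bands
  set m := m0 + 1 with hm
  have hQm : Q ≤ y ^ m := hm0.le.trans (pow_le_pow_right₀ hy1.le (by omega))
  set D : ℝ := 1 + 1 / (1 - y ^ 12 * q) with hD
  have hpos : 0 < 1 - y ^ 12 * q := by linarith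
  have hD1 : 1 ≤ D := by
    have : 0 ≤ 1 / (1 - y ^ 12 * q) := by positivity
    linarith
  have hmpos : (0 : ℝ) < m := by rw [hm]; positivity
  set η : ℝ := min (δ / m) (1 / 3) with hη
  have hη0 : 0 < η := lt_min (div_pos hδ hmpos) (by norm_num)
  have hη1 : m * η ≤ δ := by
    have h1 := min_le_left (δ / m) (1 / 3 : ℝ)
    calc m * η ≤ m * (δ / m) := mul_le_mul_of_nonneg_left h1 hmpos.le
      _ = δ := by field_simp
  have hη2 : 3 * η ≤ 1 := by
    have h1 := min_le_right (δ / m) (1 / 3 : ℝ)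
    linarith
  set L0 : ℕ := ⌈1 / η⌉₊ with hL0
  set n0 : ℕ := ⌈2 / η⌉₊ + 1 with hn0
  refine ⟨max (Q ^ L0) ((6 * D ^ n0) ^ m), ?_, ?_⟩
  · exact le_max_of_le_left (one_le_pow₀ hQ)
  intro ι _ _ L K τ hC hK
  by_cases hL : L < L0
  · -- small circumference
    refine le_max_of_le_left ?_
    rw [← avg_const (ι := ι) (Q ^ L0)]
    apply avg_mono
    intro ω
    exact pow_le_pow_right₀ hQ ((tcount_le _ _ _ _).trans hL.le)
  rw [not_lt] at hL
  refine le_max_of_le_right ?_
  have hLr : 1 / η ≤ L := (Nat.le_ceil _).trans (by exact_mod_cast hL)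
  have hηL : 1 ≤ η * L := by
    rw [div_le_iff₀ hη0] at hLr
    linarith
  set h : ℕ := ⌊η * L⌋₊ with hh
  have hh1 : 1 ≤ h := by
    rw [hh, Nat.one_le_floor_iff]
    exact hηL
  have hhr : (h : ℝ) ≤ η * L := Nat.floor_le (by positivity)
  have hhr2 : η * L < h + 1 := Nat.lt_floor_add_one _
  have hh1r : (1 : ℝ) ≤ h := by exact_mod_cast hh1
  have hmh : m * h ≤ K := by
    have h1 : ((m * h : ℕ) : ℝ) ≤ K := by
      push_cast
      calc (m : ℝ) * h ≤ m * (η * L) := mul_le_mul_of_nonneg_left hhr hmpos.le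
        _ = (m * η) * L := by ring
        _ ≤ δ * L := mul_le_mul_of_nonneg_right hη1 (by positivity)
        _ ≤ K := hK
    exact_mod_cast h1
  have h3L : 3 * h ≤ L := by
    have h1 : ((3 * h : ℕ) : ℝ) ≤ L := by
      push_cast
      calc (3 : ℝ) * h ≤ 3 * (η * L) := by linarith
        _ = (3 * η) * L := by ring
        _ ≤ 1 * L := mul_le_mul_of_nonneg_right hη2 (by positivity)
        _ = L := one_mul _
    exact_mod_cast h1
  -- the boxes
  set B : ℕ := (L + h - 1) / h with hB
  have hdm := Nat.div_add_mod (L + h - 1) h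
  have hml := Nat.mod_lt (L + h - 1) (show h > 0 by omega)
  rw [← hB] at hdm
  have hB1 : L ≤ B * h := by
    rw [mul_comm]
    omega
  have hB2 : (B - 1) * h ≤ L := by
    rcases Nat.eq_zero_or_pos B with h0 | h0
    · rw [h0]; simp
    · obtain ⟨B', hB'⟩ := Nat.exists_eq_succ_of_ne_zero (by omega : B ≠ 0)
      rw [hB'] at hdm ⊢
      have e : h * (B' + 1) = h * B' + h := by ring
      have e2 : (B' + 1 - 1) * h = h * B' := by
        rw [Nat.add_sub_cancel, mul_comm]
      change h * (B' + 1) + (L + h - 1) % h = L + h - 1 at hdm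
      change (B' + 1 - 1) * h ≤ L
      rw [e2]
      omega
  have hBn : B ≤ n0 := by
    have h1 : ((B - 1 : ℕ) : ℝ) * h ≤ L := by exact_mod_cast hB2
    have h2 : η * L ≤ 2 * h := by linarith
    have h3 : ((B - 1 : ℕ) : ℝ) ≤ 2 / η := by
      rw [le_div_iff₀ hη0]
      have h4 : ((B - 1 : ℕ) : ℝ) * h * η ≤ L * η := mul_le_mul_of_nonneg_right h1 hη0.le
      have h5 : ((B - 1 : ℕ) : ℝ) * η * h ≤ 2 * h := by
        calc ((B - 1 : ℕ) : ℝ) * η * h = ((B - 1 : ℕ) : ℝ) * h * η := by ring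
          _ ≤ L * η := h4
          _ = η * L := mul_comm _ _
          _ ≤ 2 * h := h2
      exact le_of_mul_le_mul_right h5 (by linarith)
    have h4 : B - 1 ≤ ⌈2 / η⌉₊ := by
      have : ((B - 1 : ℕ) : ℝ) ≤ (⌈2 / η⌉₊ : ℝ) := h3.trans (Nat.le_ceil _)
      exact_mod_cast this
    omega
  have hband : ∀ k ∈ range m, 0 ≤ ((k : ℤ) * h) ∧ (k : ℤ) * h + h ≤ K := by
    intro k hk
    rw [mem_range] at hk
    refine ⟨by positivity, ?_⟩
    have h1 : (k + 1) * h ≤ m * h := Nat.mul_le_mul_right h hk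
    have h2 : ((k : ℤ) + 1) * h ≤ K := by exact_mod_cast h1.trans hmh
    linarith
  have key := avg_pow_bands (ι := ι) (range m) (A := fun k => bset τ ((k : ℤ) * h) h)
    (X := fun ω => tcount (bits τ ω) L 0 K) (Y := fun k ω => tcount (bits τ ω) L ((k : ℤ) * h) h)
    (x := Q) (y := y) ?_ (fun k _ => dep_tcount τ L _ h) ?_ (by linarith) hy1.le
    (by rw [card_range]; exact hQm)
  · refine key.trans ?_
    calc ∏ k ∈ range m, avg (fun ω : ι → Bool => y ^ tcount (bits τ ω) L ((k : ℤ) * h) h)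
        ≤ ∏ _k ∈ range m, (6 * D ^ n0) := by
          apply prod_le_prod
          · intro k _
            exact avg_nonneg fun ω => by positivity
          · intro k hk
            refine (avg_tcount_thin hq hy1.le hyq hC hh1 (hband k hk).1 (hband k hk).2 h3L hB1
              hB2).trans ?_
            have := pow_le_pow_right₀ hD1 hBn
            linarith
      _ = (6 * D ^ n0) ^ m := by rw [prod_const, card_range]
  · intro k hk l hl hkl
    rw [Set.disjoint_left]
    rintro t ⟨i, j, ⟨g1, g2⟩, g3⟩ ⟨i', j', ⟨g4, g5⟩, g6⟩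
    have hk' := hband k hk
    have hl' := hband l hl
    obtain ⟨h5, -⟩ := hC.inj i j i' j' (by omega) (by omega) (by omega) (by omega) (g3.trans g6.symm)
    have f : (k : ℤ) * h + h ≤ l * h ∨ (l : ℤ) * h + h ≤ k * h := by
      rcases lt_or_gt_of_ne hkl with hlt | hlt
      · left
        have := mul_le_mul_of_nonneg_right (show (k : ℤ) + 1 ≤ l by omega)
          (show (0 : ℤ) ≤ h by omega)
        linarith
      · right
        have := mul_le_mul_of_nonneg_right (show (l : ℤ) + 1 ≤ k by omega)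
          (show (0 : ℤ) ≤ h by omega)
        linarith
    omega
  · intro k hk ω
    have hk' := hband k hk
    exact tcount_sub (fun i j => by unfold bits; rw [hC.per]) hk'.1 hh1 (by rw [zero_add]; exact hk'.2)

end Full.Walk
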