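import Pool.Agent.Full.Walk.Planar
import Pool.Agent.Full.Walk.RswIn

/-!
# Far strands of planar regions

`farc T ω r`: the number of the boundary half edges whose strand visits a tile at distance at least `r`.
-/

set_option autoImplicit false
set_option linter.unusedSectionVars false

namespace Full.Walk

open Finset Full.Mom Function
open Full.Corner (longs conf sd LongBound)
open Full.Perc (Ex Ex_congr)

/-- a set of boundary half edges whose strands go far -/
theorem card_far_le {T ω : Finset (ℤ × ℤ)} {b : ℤ → ℤ → Bool}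
    (hb : ∀ t ∈ T, b t.1 t.2 = sB ω t.1 t.2) {a c : ℤ} {n K m : ℕ} (hK : 1 ≤ K) (hm : 2 * K ≤ m)
    (hT : ∀ t ∈ T, a ≤ t.1 ∧ t.1 < a + n ∧ c ≤ t.2 ∧ t.2 < c + n) (S : Finset (Half (ℤ × ℤ)))
    (hS : ∀ x ∈ S, Bd T (plane.glue T) x ∧
      ∃ z, Full.Conn (mate ω) (plane.glue T) x z ∧ m ≤ sd x.1 z.1) :
    S.card ≤ 2 * NB b a c n K := by
  classical
  apply card_long_le (b := b) S hK stOf (fun x => hlp T ω x - 1)
  · intro x hx k hk
    have hxB := (hS x hx).1
    have h1 := hlp_pos (ω := ω) hxB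
    rw [pos_eq_sB hb hxB (by omega)]
    have h2 := (iter_plane (ω := ω) hxB (k := k) (by unfold hlp at h1 hk; omega)).2
    have h3 := hT _ h2
    exact h3
  · intro x hx
    obtain ⟨hxB, z, hzc, hlong⟩ := hS x hx
    have h1 := hlp_pos (ω := ω) hxB
    obtain ⟨k, hk, hz⟩ := conn_plane (ω := ω) hxB hzc
    have hk' : k < hlp T ω x := hk
    have ek := pos_eq_sB hb hxB hk'
    have hs : (x.1.1 : ℤ) = (pos b (stOf x) 0).i ∧ (x.1.2 : ℤ) = (pos b (stOf x) 0).j := ⟨rfl, rfl⟩
    rw [hz, ← ek] at hlong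
    unfold sd at hlong
    simp only at hlong
    rw [hs.1, hs.2] at hlong
    have h4 : (0 : ℕ) ≤ hlp T ω x - 1 := Nat.zero_le _
    have h5 : k ≤ hlp T ω x - 1 := by omega
    rcases le_max_iff.1 hlong with h6 | h6
    · rcases le_total (pos b (stOf x) 0).i (pos b (stOf x) k).i with h7 | h7
      · exact ⟨0, k, h4, h5, Or.inl (by omega)⟩
      · exact ⟨k, 0, h5, h4, Or.inl (by omega)⟩
    · rcases le_total (pos b (stOf x) 0).j (pos b (stOf x) k).j with h7 | h7
      · exact ⟨0, k, h4, h5, Or.inr (by omega)⟩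
      · exact ⟨k, 0, h5, h4, Or.inr (by omega)⟩
  · -- different strands are disjoint
    have key : ∀ x ∈ S, ∀ y ∈ S, ∀ k, k < hlp T ω x → stOf y = pos b (stOf x) k → y = x := by
      intro x hx y hy k hk h
      have hxB := (hS x hx).1
      have hyB := (hS y hy).1
      have hG := plane.glu T
      have hTwo := hG.two ω
      have hper := hG.periodic ω x
      have hev := hTwo.even hxB.2 hper
      have hpos := Two.period_pos (m := mate ω) hper
      rw [pos_eq_sB hb hxB hk] at h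
      have h1 := (iter_plane (ω := ω) hxB (k := k) hk).1
      rw [← h, hfe_stOf] at h1
      have h2 : Full.Conn (mate ω) (plane.glue T) x y := by rw [← h1]; exact Full.Conn.iter _ _
      rcases hTwo.eq_or_eq_other hxB.2 hper hyB.2 h2 with h3 | h3
      · exact h3
      · exfalso
        rw [← h1] at h3
        unfold other at h3
        unfold hlp at hk
        have h4 := (iterate_eq_iterate_iff_of_lt_minimalPeriod (f := plane.glue T ∘ mate ω) (x := x)
          (by omega) (by omega)).1 h3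
        omega
    intro x hx y hy l l' h1 h2 h3 h4 h5
    have hx1 := hlp_pos (ω := ω) (hS x hx).1
    have hy1 := hlp_pos (ω := ω) (hS y hy).1
    rcases meet b h5 with ⟨k, e1, e2⟩ | ⟨k, e1, e2⟩
    · exact (key x hx y hy k (by omega) e1).symm
    · exact key y hy x hx k (by omega) e1

open scoped Classical in
/-- the number of the boundary half edges whose strand visits a tile at distance at least `r` -/
noncomputable def farc (T ω : Finset (ℤ × ℤ)) (r : ℕ) : ℕ :=
  ((T ×ˢ (univ : Finset Full.Dir)).filter (fun x => plane.glue T x = x ∧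
    ∃ z, Full.Conn (mate ω) (plane.glue T) x z ∧ r ≤ sd x.1 z.1)).card

lemma farc_le (T ω : Finset (ℤ × ℤ)) (r : ℕ) : farc T ω r ≤ 4 * T.card := by
  classical
  unfold farc
  refine (card_filter_le _ _).trans ?_
  rw [card_product]
  have : (univ : Finset Full.Dir).card = 4 := by decide
  rw [this, mul_comm]

/-- **exponential moments of the number of far strands of a planar region in a box** -/
theorem exp_far {q : ℝ} (hq : RswQ q) {δ Q : ℝ} (hδ : 0 < δ) (hQ : 1 ≤ Q) :
    ∃ C : ℝ, 1 ≤ C ∧ ∀ (n K : ℕ) (a c : ℤ) (T : Finset (ℤ × ℤ)), 1 ≤ n → 1 ≤ K → δ * n ≤ K →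
      (∀ t ∈ T, a ≤ t.1 ∧ t.1 < a + n ∧ c ≤ t.2 ∧ t.2 < c + n) →
      Ex T (fun ω => Q ^ farc T ω (2 * K)) ≤ C := by
  classical
  obtain ⟨C, hC1, hC⟩ := exp_moment_NB.{0} hq hδ (Q := Q ^ 2) (one_le_pow₀ hQ)
  refine ⟨C, hC1, ?_⟩
  intro n K a c T hn hK hδn hT
  set F : Finset (ℤ × ℤ) := Ico a (a + n) ×ˢ Ico c (c + n) with hF
  have hFmem : ∀ t : ℤ × ℤ, t ∈ F ↔ a ≤ t.1 ∧ t.1 < a + n ∧ c ≤ t.2 ∧ t.2 < c + n := by
    intro t
    rw [hF, mem_product, mem_Ico, mem_Ico]
    tauto
  have hFne : F.Nonempty := ⟨(a, c), (hFmem _).2 ⟨le_rfl, by simp only; omega, le_rfl, by simp only; omega⟩⟩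
  have hTF : ∀ t ∈ T, t ∈ F := fun t ht => (hFmem t).2 (hT t ht)
  set f : (ℤ → ℤ → Bool) → ℝ :=
    fun b => Q ^ farc T (T.filter (fun t => b t.1 t.2 = true)) (2 * K) with hf
  have e1 : Ex T (fun ω => Q ^ farc T ω (2 * K)) = Ex T (fun S => f (sbits S)) := by
    apply Ex_congr
    intro S hS
    rw [hf]
    simp only
    congr 2
    ext t
    rw [mem_filter]
    unfold sbits
    simp only [Prod.mk.eta, decide_eq_true_eq]
    exact ⟨fun h => ⟨hS h, h⟩, fun h => h.2⟩
  have e2 := avg_bits (ι := F) (selfIdx F hFne) T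
    (fun t ht t' ht' h => selfIdx_inj hFne t (hTF t ht) t' (hTF t' ht') h) f
    (fun b b' h => by
      rw [hf]
      simp only
      congr 2
      apply filter_congr
      intro t ht
      rw [h t ht])
  rw [e1, ← e2]
  have h1 : avg (fun ω : F → Bool => f (bits (selfIdx F hFne) ω)) ≤
      avg (fun ω : F → Bool => (Q ^ 2) ^ NB (bits (selfIdx F hFne) ω) a c n K) := by
    apply avg_mono
    intro ω
    rw [hf]
    simp only
    rw [← pow_mul]
    apply pow_le_pow_right₀ hQ
    unfold farc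
    apply card_far_le (K := K) (m := 2 * K) _ hK le_rfl (fun t ht => (hFmem t).1 (hTF t ht))
    · intro x hx
      rw [mem_filter, mem_product] at hx
      exact ⟨⟨hx.1.1, hx.2.1⟩, hx.2.2⟩
    · intro t ht
      unfold sB
      simp only [mem_filter, Prod.mk.eta, ht, true_and]
      cases bits (selfIdx F hFne) ω t.1 t.2 <;> simp
  refine h1.trans (hC F n K a c (selfIdx F hFne) hn hK ?_ hδn)
  intro i j i' j' g1 g2 g3 g4 g5 g6 g7 g8 h
  have h2 := selfIdx_inj hFne (i, j) ((hFmem _).2 ⟨g1, g2, g3, g4⟩) (i', j')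
    ((hFmem _).2 ⟨g5, g6, g7, g8⟩) h
  exact ⟨congrArg Prod.fst h2, congrArg Prod.snd h2⟩

end Full.Walk
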