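import Pool.Agent.Full.Walk.Basic
import Pool.Agent.Full.Def.Inst

/-!
# Strands of a glued region and the walker of a chart

`ofSt ψ s`: the half edge through which the walker in the state `s` enters the tile `ψ (s.i, s.j)`.
One step of the walker is `g ∘ mate ω`, as long as the side through which it leaves the tile is glued to
the planar neighbour in the chart `ψ`.
-/

set_option autoImplicit false

namespace Full.Walk

open Function

/-- the side through which a tile is entered with the heading `d` -/
def gside : Dir → Full.Dir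
  | .N => .S
  | .E => .W
  | .S => .N
  | .W => .E

/-- the heading with which a tile is entered through the side `d` -/
def ghead : Full.Dir → Dir
  | .S => .N
  | .W => .E
  | .N => .S
  | .E => .W

@[simp] lemma gside_ghead (d : Full.Dir) : gside (ghead d) = d := by cases d <;> rfl
@[simp] lemma ghead_gside (d : Dir) : ghead (gside d) = d := by cases d <;> rfl

lemma gside_inj {d d' : Dir} (h : gside d = gside d') : d = d' := by
  rw [← ghead_gside d, h, ghead_gside]

/-- the side through which the tile is left, and the heading after the tile -/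
lemma mt_gside (v : Bool) (d : Dir) : Full.Dir.mt v (gside d) = (gside (turn v d)).opp := by
  cases v <;> cases d <;> rfl

lemma vec_gside (d : Dir) : (gside d).opp.vec = (d.dx, d.dy) := by cases d <;> rfl

section chart
variable {τ : Type*}

/-- the half edge of a state -/
def ofSt (ψ : ℤ × ℤ → τ) (s : St) : Half τ := (ψ (s.i, s.j), gside s.d)

/-- the bits of the chart -/
noncomputable def chB [DecidableEq τ] (ψ : ℤ × ℤ → τ) (ω : Finset τ) : ℤ → ℤ → Bool :=
  fun i j => decide (ψ (i, j) ∈ ω)

variable [DecidableEq τ] {ψ : ℤ × ℤ → τ} {ω : Finset τ}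

/-- the side through which the walker leaves the tile -/
lemma mate_ofSt (s : St) :
    mate ω (ofSt ψ s) = (ψ (s.i, s.j), (gside (turn (chB ψ ω s.i s.j) s.d)).opp) := by
  unfold mate ofSt chB
  simp only [mt_gside]

/-- the planar neighbour of the side through which the walker leaves the tile -/
lemma step_pos (s : St) (b : ℤ → ℤ → Bool) :
    ((s.i, s.j) : ℤ × ℤ) + (gside (turn (b s.i s.j) s.d)).opp.vec = ((step b s).i, (step b s).j) := by
  rw [vec_gside]
  rfl

/-- the link of the side `d` of the tile `p` of the chart is open or planar -/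
def Planar (g : Half τ → Half τ) (ψ : ℤ × ℤ → τ) (p : ℤ × ℤ) : Prop :=
  ∀ d : Full.Dir, g (ψ p, d) = (ψ p, d) ∨ g (ψ p, d) = (ψ (p + d.vec), d.opp)

variable {g : Half τ → Half τ}

/-- one step -/
lemma glue_mate_ofSt {s : St} (hP : Planar g ψ (s.i, s.j))
    (hne : g (mate ω (ofSt ψ s)) ≠ mate ω (ofSt ψ s)) :
    g (mate ω (ofSt ψ s)) = ofSt ψ (step (chB ψ ω) s) := by
  rw [mate_ofSt] at hne ⊢
  rcases hP (gside (turn (chB ψ ω s.i s.j) s.d)).opp with h | h
  · exact absurd h hne
  · rw [h, step_pos, Full.Dir.opp_opp]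
    rfl

/-- **the walker follows the strand** -/
theorem iter_ofSt {s : St} {k : ℕ}
    (hP : ∀ m < k, Planar g ψ ((pos (chB ψ ω) s m).i, (pos (chB ψ ω) s m).j))
    (hne : ∀ m < k, g (mate ω ((g ∘ mate ω)^[m] (ofSt ψ s))) ≠ mate ω ((g ∘ mate ω)^[m] (ofSt ψ s))) :
    ∀ m ≤ k, (g ∘ mate ω)^[m] (ofSt ψ s) = ofSt ψ (pos (chB ψ ω) s m) := by
  intro m
  induction m with
  | zero => intro _; rfl
  | succ m ih =>
    intro hm
    have h1 := ih (by omega)
    have h2 := hne m (by omega)
    rw [iterate_succ_apply', h1, pos_succ]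
    rw [h1] at h2
    exact glue_mate_ofSt (hP m (by omega)) h2

/-- **a walk through glued tiles is a strand** -/
theorem conn_of_walk {s : St} {k : ℕ}
    (hg : ∀ m < k, g (ψ ((pos (chB ψ ω) s m).i, (pos (chB ψ ω) s m).j), (gside (pos (chB ψ ω) s (m + 1)).d).opp) =
      (ψ ((pos (chB ψ ω) s (m + 1)).i, (pos (chB ψ ω) s (m + 1)).j), gside (pos (chB ψ ω) s (m + 1)).d)) :
    Full.Conn (mate ω) g (ofSt ψ s) (ofSt ψ (pos (chB ψ ω) s k)) := by
  induction k with
  | zero => exact Full.Conn.refl _
  | succ k ih =>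
    have h1 := ih fun m hm => hg m (by omega)
    refine h1.trans ((Full.Conn.m_step _).trans ?_)
    have h2 := hg k (Nat.lt_succ_self k)
    rw [mate_ofSt]
    have h3 : (pos (chB ψ ω) s (k + 1)).d =
        turn (chB ψ ω (pos (chB ψ ω) s k).i (pos (chB ψ ω) s k).j) (pos (chB ψ ω) s k).d := by
      rw [pos_succ]
      rfl
    rw [← h3]
    refine ((Full.Conn.g_step _).trans ?_)
    rw [h2]
    exact Full.Conn.refl _

end chart

/-! ### the plane -/

section plane
variable {T ω : Finset (ℤ × ℤ)}

/-- the half edge of a state in the plane -/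
def hfe (s : St) : Half (ℤ × ℤ) := ((s.i, s.j), gside s.d)

/-- the state of a half edge of the plane -/
def stOf (x : Half (ℤ × ℤ)) : St := ⟨x.1.1, x.1.2, ghead x.2⟩

@[simp] lemma hfe_stOf (x : Half (ℤ × ℤ)) : hfe (stOf x) = x := by
  unfold hfe stOf
  rw [gside_ghead]

@[simp] lemma stOf_hfe (s : St) : stOf (hfe s) = s := by
  unfold hfe stOf
  simp only [ghead_gside]

lemma hfe_inj {s t : St} (h : hfe s = hfe t) : s = t := by rw [← stOf_hfe s, h, stOf_hfe]

lemma stOf_inj {x y : Half (ℤ × ℤ)} (h : stOf x = stOf y) : x = y := by rw [← hfe_stOf x, h, hfe_stOf]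

/-- the bits of a set of tiles -/
noncomputable def sB (ω : Finset (ℤ × ℤ)) : ℤ → ℤ → Bool := fun i j => decide ((i, j) ∈ ω)

lemma hfe_eq (s : St) : hfe s = ofSt id s := rfl

lemma sB_eq (ω : Finset (ℤ × ℤ)) : sB ω = chB id ω := rfl

lemma planar_glue (T : Finset (ℤ × ℤ)) (p : ℤ × ℤ) : Planar (plane.glue T) id p := by
  intro d
  show plane.glue T (p, d) = (p, d) ∨ plane.glue T (p, d) = (p + d.vec, d.opp)
  rw [plane_glue]
  split_ifs
  · exact Or.inr rfl
  · exact Or.inl rfl

lemma mate_hfe (s : St) : mate ω (hfe s) = ((s.i, s.j), (gside (turn (sB ω s.i s.j) s.d)).opp) :=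
  mate_ofSt (ψ := id) s

/-- the strand of the plane region from the state `s`: as long as the walker stays in `T` -/
theorem iter_hfe {s : St} {k : ℕ}
    (hT : ∀ m ≤ k, ((pos (sB ω) s m).i, (pos (sB ω) s m).j) ∈ T) :
    ∀ m ≤ k, (plane.glue T ∘ mate ω)^[m] (hfe s) = hfe (pos (sB ω) s m) := by
  intro m
  induction m with
  | zero => intro _; rfl
  | succ m ih =>
    intro hm
    have h1 := ih (by omega)
    rw [iterate_succ_apply', h1, pos_succ]
    show plane.glue T (mate ω (hfe (pos (sB ω) s m))) = _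
    rw [mate_hfe, plane_glue, if_pos]
    · rw [step_pos, Full.Dir.opp_opp]
      rfl
    · refine ⟨hT m (by omega), ?_⟩
      rw [step_pos, ← pos_succ]
      exact hT (m + 1) hm

/-- the steps of the strand from a boundary half edge -/
theorem iter_plane {x : Half (ℤ × ℤ)} (hx : Bd T (plane.glue T) x) {k : ℕ}
    (hk : k < minimalPeriod (plane.glue T ∘ mate ω) x / 2) :
    (plane.glue T ∘ mate ω)^[k] x = hfe (pos (sB ω) (stOf x) k) ∧
      ((pos (sB ω) (stOf x) k).i, (pos (sB ω) (stOf x) k).j) ∈ T := by
  have hG := plane.glu T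
  have hTwo := hG.two ω
  have hper := hG.periodic ω x
  have hev := hTwo.even hx.2 hper
  have key : ∀ m ≤ k, (plane.glue T ∘ mate ω)^[m] x = hfe (pos (sB ω) (stOf x) m) := by
    have h1 := iter_ofSt (ψ := id) (ω := ω) (g := plane.glue T) (s := stOf x) (k := k)
      (fun m _ => planar_glue T _) ?_
    · intro m hm
      have h2 := h1 m hm
      rw [← hfe_eq, ← hfe_eq, hfe_stOf] at h2
      exact h2
    · intro m hm
      rw [← hfe_eq, hfe_stOf]
      intro h2
      -- the side is fixed only at the half of the period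
      have h3 := hTwo.m_iter hx.2 (k := m) (by omega)
      have h4 : (plane.glue T ∘ mate ω)^[m + 1] x =
          (plane.glue T ∘ mate ω)^[minimalPeriod (plane.glue T ∘ mate ω) x - (m + 1)] x := by
        rw [iterate_succ_apply', ← h3]
        exact h2
      have h5 := (iterate_eq_iterate_iff_of_lt_minimalPeriod (f := plane.glue T ∘ mate ω) (x := x)
        (by omega) (by omega)).1 h4
      omega
  refine ⟨key k le_rfl, ?_⟩
  have h1 := hG.conn_mem (Full.Conn.iter (m := mate ω) (g := plane.glue T) k x) hx.1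
  rw [key k le_rfl] at h1
  exact h1

/-- the tiles of the strand -/
theorem conn_plane {x z : Half (ℤ × ℤ)} (hx : Bd T (plane.glue T) x)
    (hz : Full.Conn (mate ω) (plane.glue T) x z) : ∃ k < minimalPeriod (plane.glue T ∘ mate ω) x / 2,
      z.1 = ((pos (sB ω) (stOf x) k).i, (pos (sB ω) (stOf x) k).j) := by
  have hG := plane.glu T
  have hTwo := hG.two ω
  have hper := hG.periodic ω x
  have hev := hTwo.even hx.2 hper
  have hpos := Two.period_pos (m := mate ω) hper
  obtain ⟨k, hk, rfl⟩ := hTwo.exists_iter hx.2 hper hz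
  by_cases h : k < minimalPeriod (plane.glue T ∘ mate ω) x / 2
  · exact ⟨k, h, by rw [(iter_plane hx h).1]; rfl⟩
  · have hk' : minimalPeriod (plane.glue T ∘ mate ω) x - (k + 1) <
        minimalPeriod (plane.glue T ∘ mate ω) x / 2 := by omega
    refine ⟨_, hk', ?_⟩
    have h1 := hTwo.m_iter hx.2 (k := k) (by omega)
    have h2 : ((plane.glue T ∘ mate ω)^[k] x).1 =
        ((plane.glue T ∘ mate ω)^[minimalPeriod (plane.glue T ∘ mate ω) x - (k + 1)] x).1 := by
      rw [← h1]
      rfl
    rw [h2, (iter_plane hx hk').1]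
    rfl

end plane

end Full.Walk
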