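import Pool.Agent.Full.Walk.Basic
import Pool.Agent.Full.Walk.Defs

/-!
# The open tiles on the left of different strands are disjoint

`lc`, `rc`: the corners on the left and on the right of the side through which the walker enters a
tile.  For a strand which enters the window through the floor and leaves it not through the floor,
the function `pf` (parity of the number of sides of the strand on a path of corners) is `0` on its
left, `1` on its right, and constant along both sides of every other strand.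
-/

set_option autoImplicit false
set_option linter.unnecessarySeqFocus false

namespace Full.Walk

open Finset

/-- the corner on the left of the side through which the tile is entered -/
def lc (s : St) : ℤ × ℤ :=
  match s.d with
  | .N => (s.i, s.j)
  | .E => (s.i, s.j + 1)
  | .S => (s.i + 1, s.j + 1)
  | .W => (s.i + 1, s.j)

/-- the corner on the right of the side through which the tile is entered -/
def rc (s : St) : ℤ × ℤ :=
  match s.d with
  | .N => (s.i + 1, s.j)
  | .E => (s.i, s.j)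
  | .S => (s.i, s.j + 1)
  | .W => (s.i + 1, s.j + 1)

/-- the side through which the tile is entered: `(true, i, j)` is the side from the corner `(i, j)`
to `(i + 1, j)`, `(false, i, j)` the side from `(i, j)` to `(i, j + 1)` -/
def side (s : St) : Bool × ℤ × ℤ :=
  match s.d with
  | .N => (true, s.i, s.j)
  | .E => (false, s.i, s.j)
  | .S => (true, s.i, s.j + 1)
  | .W => (false, s.i + 1, s.j)

lemma side_rev (s : St) : side (rev s) = side s := by
  obtain ⟨i, j, d⟩ := s
  cases d <;> simp [side, rev, Dir.neg, Dir.dx, Dir.dy]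

lemma lc_rev (s : St) : lc (rev s) = rc s := by
  obtain ⟨i, j, d⟩ := s
  cases d <;> simp [lc, rc, rev, Dir.neg, Dir.dx, Dir.dy]

lemma rc_rev (s : St) : rc (rev s) = lc s := by
  obtain ⟨i, j, d⟩ := s
  cases d <;> simp [lc, rc, rev, Dir.neg, Dir.dx, Dir.dy]

lemma side_eq {s t : St} (h : side s = side t) : s = t ∨ s = rev t := by
  obtain ⟨i, j, d⟩ := s
  obtain ⟨i', j', d'⟩ := t
  cases d <;> cases d' <;> simp [side, rev, Dir.neg, Dir.dx, Dir.dy] at h ⊢ <;> omega

/-- the two right turns -/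
def rturn (v : Bool) (d : Dir) : Prop :=
  match v, d with
  | true, .N => True
  | true, .S => True
  | false, .E => True
  | false, .W => True
  | _, _ => False

variable {b : ℤ → ℤ → Bool}

lemma rc_step {s : St} (h : rturn (b s.i s.j) s.d) : rc (step b s) = rc s := by
  obtain ⟨i, j, d⟩ := s
  simp only at h
  unfold step
  simp only
  cases hv : b i j <;> cases d <;> rw [hv] at h <;> simp [rturn] at h <;>
    simp [rc, turn, Dir.dx, Dir.dy]

lemma lc_step {s : St} (h : ¬ rturn (b s.i s.j) s.d) : lc (step b s) = lc s := by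
  obtain ⟨i, j, d⟩ := s
  simp only at h
  unfold step
  simp only
  cases hv : b i j <;> cases d <;> rw [hv] at h <;> simp [rturn] at h <;>
    simp [lc, turn, Dir.dx, Dir.dy]

/-- colour `ε` of a corner -/
def col (ε : ℤ) (u : ℤ × ℤ) : Prop := (u.1 + u.2 - ε) % 2 = 0

lemma lc_step_right {s : St} (h : rturn (b s.i s.j) s.d) {ε : ℤ} (hc : col ε (lc s)) :
    (lc s = (dg ε (s.i, s.j)).1 ∧ lc (step b s) = (dg ε (s.i, s.j)).2) ∨
      (lc s = (dg ε (s.i, s.j)).2 ∧ lc (step b s) = (dg ε (s.i, s.j)).1) := by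
  obtain ⟨i, j, d⟩ := s
  simp only at h ⊢
  unfold step
  simp only
  unfold col at hc
  unfold dg
  cases hv : b i j <;> cases d <;> rw [hv] at h <;> simp [rturn] at h <;>
    simp only [lc, turn, Dir.dx, Dir.dy] at hc ⊢
  · rw [if_neg (by omega)]
    right
    refine ⟨Prod.ext ?_ ?_, Prod.ext ?_ ?_⟩ <;> simp only <;> omega
  · rw [if_neg (by omega)]
    left
    refine ⟨Prod.ext ?_ ?_, Prod.ext ?_ ?_⟩ <;> simp only <;> omega
  · rw [if_pos (by omega)]
    left
    refine ⟨Prod.ext ?_ ?_, Prod.ext ?_ ?_⟩ <;> simp only <;> omega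
  · rw [if_pos (by omega)]
    right
    refine ⟨Prod.ext ?_ ?_, Prod.ext ?_ ?_⟩ <;> simp only <;> omega

lemma col_step {s : St} {ε : ℤ} (hc : col ε (lc s)) : col ε (lc (step b s)) := by
  by_cases h : rturn (b s.i s.j) s.d
  · have h1 := lc_step_right h hc
    unfold col at hc ⊢
    unfold dg at h1
    rcases h1 with ⟨h1, h2⟩ | ⟨h1, h2⟩ <;> rw [h2] <;> rw [h1] at hc <;> split_ifs at hc ⊢ <;>
      simp only at hc ⊢ <;> omega
  · rw [lc_step h]
    exact hc

/-- the tile `t` connects its diagonal of colour `ε` -/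
def opn (ε : ℤ) (b : ℤ → ℤ → Bool) (t : ℤ × ℤ) : Prop := b t.1 t.2 = true ↔ (t.1 + t.2 - ε) % 2 = 0

lemma opn_of_right {s : St} (h : rturn (b s.i s.j) s.d) {ε : ℤ} (hc : col ε (lc s)) :
    opn ε b (s.i, s.j) := by
  obtain ⟨i, j, d⟩ := s
  simp only at h ⊢
  unfold col at hc
  unfold opn
  simp only
  cases hv : b i j <;> cases d <;> rw [hv] at h <;> simp [rturn] at h <;>
    simp [lc] at hc ⊢ <;> omega

/-! ### the parity function of a set of sides -/

/-- the parity function -/
noncomputable def pf (χ : Bool × ℤ × ℤ → ZMod 2) (a s : ℤ) (u : ℤ × ℤ) : ZMod 2 :=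
  ∑ k ∈ range (u.1 - a).toNat, χ (true, a + k, s) + ∑ k ∈ range (u.2 - s).toNat, χ (false, u.1, s + k)

lemma zmod2_add_self (x : ZMod 2) : x + x = 0 := CharTwo.add_self_eq_zero x

section parity
variable {χ : Bool × ℤ × ℤ → ZMod 2} {a c s : ℤ} {h : ℕ}

lemma pf_up {p q : ℤ} (hq : s ≤ q) : pf χ a s (p, q + 1) = pf χ a s (p, q) + χ (false, p, q) := by
  unfold pf
  simp only
  have e1 : (q + 1 - s).toNat = (q - s).toNat + 1 := by omega
  have e2 : s + ((q - s).toNat : ℤ) = q := by omega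
  rw [e1, sum_range_succ, e2, add_assoc]

/-- evenness of every tile of the window -/
def Even4 (χ : Bool × ℤ × ℤ → ZMod 2) (a c s : ℤ) (h : ℕ) : Prop :=
  ∀ p q : ℤ, win a c s h p q → χ (true, p, q) + χ (false, p + 1, q) = χ (false, p, q) + χ (true, p, q + 1)

lemma pf_right (hE : Even4 χ a c s h) {p : ℤ} (hp : a ≤ p) (hp' : p < c) :
    ∀ (n : ℕ), n ≤ h → pf χ a s (p + 1, s + n) = pf χ a s (p, s + n) + χ (true, p, s + n) := by
  intro n
  induction n with
  | zero =>
    intro _
    unfold pf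
    simp only
    have e1 : (p + 1 - a).toNat = (p - a).toNat + 1 := by omega
    have e2 : a + ((p - a).toNat : ℤ) = p := by omega
    rw [e1, sum_range_succ, e2]
    simp
  | succ n ih =>
    intro hn
    have h1 := ih (by omega)
    have h2 := hE p (s + n) ⟨hp, hp', by omega, by omega⟩
    have e : s + ((n + 1 : ℕ) : ℤ) = s + n + 1 := by push_cast; ring
    rw [e, pf_up (by omega), pf_up (by omega), h1]
    linear_combination h2

lemma pf_side (hE : Even4 χ a c s h) {t : St} (hw : win a c s h t.i t.j) :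
    pf χ a s (rc t) = pf χ a s (lc t) + χ (side t) := by
  obtain ⟨i, j, d⟩ := t
  obtain ⟨h1, h2, h3, h4⟩ := hw
  simp only at h1 h2 h3 h4
  obtain ⟨n, rfl⟩ : ∃ n : ℕ, j = s + n := ⟨(j - s).toNat, by omega⟩
  have e : s + ((n + 1 : ℕ) : ℤ) = s + n + 1 := by push_cast; ring
  have k1 := pf_right hE h1 h2 n (by omega)
  have k2 := pf_right hE h1 h2 (n + 1) (by omega)
  rw [e] at k2
  have k3 := pf_up (χ := χ) (a := a) (s := s) (p := i) (q := s + n) (by omega)
  have k4 := pf_up (χ := χ) (a := a) (s := s) (p := i + 1) (q := s + n) (by omega)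
  cases d <;> simp only [lc, rc, side]
  · exact k1
  · rw [k3]
    linear_combination -(zmod2_add_self (χ (false, i, s + ↑n)))
  · rw [k2]
    linear_combination -(zmod2_add_self (χ (true, i, s + ↑n + 1)))
  · exact k4

lemma pf_side' (hE : Even4 χ a c s h) {t : St} (hw : win a c s h t.i t.j) :
    pf χ a s (rc (step b t)) = pf χ a s (lc (step b t)) + χ (side (step b t)) := by
  have h1 := rev_step_tile b t
  have h2 := pf_side (t := rev (step b t)) hE (by rw [h1.1, h1.2]; exact hw)
  rw [rc_rev, lc_rev, side_rev] at h2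
  rw [h2, add_assoc, zmod2_add_self, add_zero]

/-- the parity function on the left of a walk: both sides of the tile on the walk or both not -/
lemma pf_lc_step (hE : Even4 χ a c s h) {t : St} (hw : win a c s h t.i t.j)
    (hχ : χ (side (step b t)) = χ (side t)) : pf χ a s (lc (step b t)) = pf χ a s (lc t) := by
  by_cases hr : rturn (b t.i t.j) t.d
  · have h1 := pf_side (t := t) hE hw
    have h2 := pf_side' (b := b) (t := t) hE hw
    rw [rc_step hr, h1, hχ] at h2
    exact (add_right_cancel h2).symm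
  · rw [lc_step hr]

end parity

/-! ### strands which leave the window, but not through the floor -/

/-- the strand from `(x, s)` leaves the window at the time `n`, not through the floor -/
structure FD (b : ℤ → ℤ → Bool) (a c s : ℤ) (h : ℕ) (x : ℤ) (n : ℕ) : Prop where
  stay : ∀ m < n, win a c s h (pos b ⟨x, s, .N⟩ m).i (pos b ⟨x, s, .N⟩ m).j
  out : ¬ win a c s h (pos b ⟨x, s, .N⟩ n).i (pos b ⟨x, s, .N⟩ n).j
  top : (pos b ⟨x, s, .N⟩ n).j ≠ s - 1

lemma far_iff {a c s : ℤ} {h : ℕ} {x : ℤ} : Far b a c s h x ↔ ∃ n, FD b a c s h x n := by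
  constructor
  · rintro ⟨e, ⟨n, h1, h2, h3⟩, h4⟩
    exact ⟨n, h1, h2, by rw [h3]; exact h4⟩
  · rintro ⟨n, h1, h2, h3⟩
    exact ⟨_, ⟨n, h1, h2, rfl⟩, h3⟩

open scoped Classical in
/-- indicator of the sides of a strand -/
noncomputable def chi (b : ℤ → ℤ → Bool) (s0 : St) (n : ℕ) (σ : Bool × ℤ × ℤ) : ZMod 2 :=
  if ∃ m ≤ n, side (pos b s0 m) = σ then 1 else 0

lemma chi_self {s0 : St} {n m : ℕ} (hm : m ≤ n) : chi b s0 n (side (pos b s0 m)) = 1 := by
  unfold chi
  rw [if_pos ⟨m, hm, rfl⟩]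

section fd
variable {a c s : ℤ} {h : ℕ} {x : ℤ} {n : ℕ}

lemma rev_step (t : St) : rev (step b t) = ⟨t.i, t.j, (turn (b t.i t.j) t.d).neg⟩ := by
  unfold rev step
  ext <;> simp

/-- the sides of a strand are paired in every tile of the window -/
lemma FD.pair (hF : FD b a c s h x n) {p q : ℤ} (hw : win a c s h p q) (d : Dir)
    (he : ∃ m ≤ n, side (pos b ⟨x, s, .N⟩ m) = side ⟨p, q, d⟩) :
    ∃ m ≤ n, side (pos b ⟨x, s, .N⟩ m) = side ⟨p, q, (turn (b p q) d).neg⟩ := by
  obtain ⟨m, hm, h1⟩ := he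
  rcases side_eq h1 with h2 | h2
  · have hmn : m ≠ n := by
      rintro rfl
      apply hF.out
      rw [h2]
      exact hw
    refine ⟨m + 1, by omega, ?_⟩
    rw [pos_succ, h2, ← side_rev, rev_step]
  · rcases Nat.eq_zero_or_pos m with h0 | h0
    · exfalso
      rw [h0] at h2
      unfold win at hw
      have h3 : (⟨x, s, .N⟩ : St) = rev ⟨p, q, d⟩ := h2
      unfold rev at h3
      cases d <;> simp [Dir.neg, Dir.dx, Dir.dy] at h3 <;> omega
    · obtain ⟨k, rfl⟩ := Nat.exists_eq_succ_of_ne_zero (by omega : m ≠ 0)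
      refine ⟨k, by omega, ?_⟩
      have h3 : pos b ⟨x, s, .N⟩ k = back b (rev ⟨p, q, d⟩) := by
        rw [← h2]
        exact (back_pos_succ b _ k).symm
      rw [h3]
      unfold back rev
      simp only [dx_neg, dy_neg, sub_neg_eq_add, sub_add_cancel, turn_neg]

lemma FD.pair_iff (hF : FD b a c s h x n) {p q : ℤ} (hw : win a c s h p q) (d : Dir) :
    chi b ⟨x, s, .N⟩ n (side ⟨p, q, d⟩) = chi b ⟨x, s, .N⟩ n (side ⟨p, q, (turn (b p q) d).neg⟩) := by
  unfold chi
  congr 1
  apply propext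
  constructor
  · exact hF.pair hw d
  · intro h1
    have h2 := hF.pair hw _ h1
    rwa [turn_neg, turn_turn, neg_neg'] at h2

lemma FD.even (hF : FD b a c s h x n) : Even4 (chi b ⟨x, s, .N⟩ n) a c s h := by
  intro p q hw
  have h1 := hF.pair_iff hw .N
  have h2 := hF.pair_iff hw .S
  cases hb : b p q <;> rw [hb] at h1 h2 <;> simp only [side, turn, Dir.neg] at h1 h2
  · rw [h1, h2]
  · rw [h1, h2, zmod2_add_self, zmod2_add_self]

/-- the only floor side of the strand is the first one -/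
lemma FD.floor (hF : FD b a c s h x n) (u : ℤ) :
    chi b ⟨x, s, .N⟩ n (true, u, s) = if u = x then 1 else 0 := by
  unfold chi
  by_cases hu : u = x
  · subst hu
    rw [if_pos rfl, if_pos ⟨0, Nat.zero_le _, rfl⟩]
  · rw [if_neg hu, if_neg]
    rintro ⟨m, hm, h1⟩
    have h2 : side (pos b ⟨x, s, .N⟩ m) = side ⟨u, s, .N⟩ := h1
    rcases side_eq h2 with h3 | h3
    · rcases Nat.eq_zero_or_pos m with h0 | h0
      · rw [h0] at h3
        have h4 : (⟨x, s, .N⟩ : St) = ⟨u, s, .N⟩ := h3
        injection h4 with h5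
        exact hu h5.symm
      · obtain ⟨k, rfl⟩ := Nat.exists_eq_succ_of_ne_zero (by omega : m ≠ 0)
        have h4 : pos b ⟨x, s, .N⟩ k = back b ⟨u, s, .N⟩ := by
          rw [← h3]
          exact (back_pos_succ b _ k).symm
        have h5 := hF.stay k (by omega)
        rw [h4] at h5
        unfold win back at h5
        simp [Dir.dy] at h5
    · have h4 : (pos b ⟨x, s, .N⟩ m).j = s - 1 := by
        rw [h3]
        simp [rev, Dir.dy]
      have h5 : m = n := by
        by_contra h6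
        have := (hF.stay m (by omega)).2.2.1
        omega
      rw [h5] at h4
      exact hF.top h4

lemma FD.pf_floor (hF : FD b a c s h x n) {u : ℤ} (hx : a ≤ x) :
    pf (chi b ⟨x, s, .N⟩ n) a s (u, s) = if x < u then 1 else 0 := by
  unfold pf
  simp only [sub_self, Int.toNat_zero, range_zero, sum_empty, add_zero]
  have h1 : ∀ k ∈ range (u - a).toNat, chi b ⟨x, s, .N⟩ n (true, a + k, s) =
      if k = (x - a).toNat then 1 else 0 := by
    intro k hk
    rw [hF.floor]
    by_cases h2 : k = (x - a).toNat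
    · rw [if_pos h2, if_pos (by omega)]
    · rw [if_neg h2, if_neg (by omega)]
  rw [sum_congr rfl h1, sum_ite_eq']
  by_cases h2 : x < u
  · rw [if_pos h2, if_pos (by rw [mem_range]; omega)]
  · rw [if_neg h2, if_neg (by rw [mem_range]; omega)]

/-- along the strand itself the function is `0` on the left -/
lemma FD.pf_left (hF : FD b a c s h x n) (hx : a ≤ x) : ∀ {m : ℕ}, m ≤ n →
    pf (chi b ⟨x, s, .N⟩ n) a s (lc (pos b ⟨x, s, .N⟩ m)) = 0 := by
  intro m
  induction m with
  | zero =>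
    intro _
    have h1 : lc (pos b ⟨x, s, .N⟩ 0) = (x, s) := rfl
    rw [h1, hF.pf_floor hx, if_neg (lt_irrefl _)]
  | succ m ih =>
    intro hm
    rw [pos_succ, pf_lc_step hF.even (hF.stay m (by omega)), ih (by omega)]
    rw [← pos_succ, chi_self hm, chi_self (by omega)]

/-- two such strands have no common side -/
lemma FD.no_common {x' : ℤ} {n' : ℕ} (hF : FD b a c s h x n) (hF' : FD b a c s h x' n')
    (hne : x ≠ x') {m m' : ℕ} (hm : m ≤ n) (hm' : m' ≤ n') :
    side (pos b ⟨x, s, .N⟩ m) ≠ side (pos b ⟨x', s, .N⟩ m') := by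
  intro h1
  have hback : ∀ (y y' : ℤ) (N k : ℕ), FD b a c s h y N → k ≤ N → y ≠ y' →
      (⟨y', s, .N⟩ : St) ≠ pos b ⟨y, s, .N⟩ k := by
    intro y y' N k hG hk hyy h2
    rcases Nat.eq_zero_or_pos k with h0 | h0
    · rw [h0] at h2
      have h3 : (⟨y', s, .N⟩ : St) = ⟨y, s, .N⟩ := h2
      injection h3 with h4
      exact hyy h4.symm
    · obtain ⟨l, rfl⟩ := Nat.exists_eq_succ_of_ne_zero (by omega : k ≠ 0)
      have h4 : pos b ⟨y, s, .N⟩ l = back b ⟨y', s, .N⟩ := by
        rw [h2]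
        exact (back_pos_succ b _ l).symm
      have h5 := hG.stay l (by omega)
      rw [h4] at h5
      unfold win back at h5
      simp [Dir.dy] at h5
  rcases side_eq h1 with h2 | h2
  · rcases meet b h2 with ⟨k, h3, h4⟩ | ⟨k, h3, h4⟩
    · exact hback x x' n k hF (by omega) hne h3
    · exact hback x' x n' k hF' (by omega) (Ne.symm hne) h3
  · -- opposite directions
    have h3 : ∀ i ≤ m', pos b ⟨x, s, .N⟩ (m + i) = rev (pos b ⟨x', s, .N⟩ (m' - i)) := by
      intro i hi
      rw [pos_add, h2]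
      exact pos_rev b _ hi
    have h4 : ∀ i < m', win a c s h (pos b ⟨x, s, .N⟩ (m + i)).i (pos b ⟨x, s, .N⟩ (m + i)).j := by
      intro i hi
      obtain ⟨l, hl⟩ : ∃ l, m' - i = l + 1 := ⟨m' - i - 1, by omega⟩
      rw [h3 i hi.le, hl, pos_succ]
      have h5 := rev_step_tile b (pos b ⟨x', s, .N⟩ l)
      rw [h5.1, h5.2]
      exact hF'.stay l (by omega)
    have h5 : m + m' ≤ n := by
      by_contra hcon
      obtain ⟨i, hi⟩ : ∃ i, n = m + i := ⟨n - m, by omega⟩
      apply hF.out
      rw [hi]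
      exact h4 i (by omega)
    have h6 := h3 m' le_rfl
    rw [Nat.sub_self, pos_zero] at h6
    have h7 : (pos b ⟨x, s, .N⟩ (m + m')).j = s - 1 := by
      rw [h6]
      simp [rev, Dir.dy]
    have h8 : m + m' = n := by
      by_contra h9
      have := (hF.stay (m + m') (by omega)).2.2.1
      omega
    rw [h8] at h7
    exact hF.top h7

/-- along the left of another strand -/
lemma FD.pf_other {x' : ℤ} {n' : ℕ} (hF : FD b a c s h x n) (hF' : FD b a c s h x' n')
    (hne : x ≠ x') (hx : a ≤ x) : ∀ {m : ℕ}, m ≤ n' →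
    pf (chi b ⟨x, s, .N⟩ n) a s (lc (pos b ⟨x', s, .N⟩ m)) = if x < x' then 1 else 0 := by
  have h0 : ∀ m ≤ n', chi b ⟨x, s, .N⟩ n (side (pos b ⟨x', s, .N⟩ m)) = 0 := by
    intro m hm
    unfold chi
    rw [if_neg]
    rintro ⟨k, hk, h1⟩
    exact hF.no_common hF' hne hk hm h1
  intro m
  induction m with
  | zero =>
    intro _
    have h1 : lc (pos b ⟨x', s, .N⟩ 0) = (x', s) := rfl
    rw [h1, hF.pf_floor hx]
  | succ m ih =>
    intro hm
    rw [pos_succ, pf_lc_step hF.even (hF'.stay m (by omega)), ih (by omega)]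
    rw [← pos_succ, h0 _ hm, h0 _ (by omega)]

lemma col_pos {t : St} {ε : ℤ} (hc : col ε (lc t)) : ∀ m : ℕ, col ε (lc (pos b t m))
  | 0 => hc
  | m + 1 => by
    rw [pos_succ]
    exact col_step (col_pos hc m)

/-- two strands with the same colour on the left do not turn right in the same tile -/
theorem FD.left_disj {x' : ℤ} {n' : ℕ} {ε : ℤ} (hF : FD b a c s h x n) (hF' : FD b a c s h x' n')
    (hne : x ≠ x') (hx : a ≤ x) (hx' : a ≤ x') (hc : col ε (x, s)) (hc' : col ε (x', s))
    {m m' : ℕ} (hm : m < n) (hm' : m' < n')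
    (hr : rturn (b (pos b ⟨x, s, .N⟩ m).i (pos b ⟨x, s, .N⟩ m).j) (pos b ⟨x, s, .N⟩ m).d)
    (hr' : rturn (b (pos b ⟨x', s, .N⟩ m').i (pos b ⟨x', s, .N⟩ m').j) (pos b ⟨x', s, .N⟩ m').d)
    (hi : (pos b ⟨x, s, .N⟩ m).i = (pos b ⟨x', s, .N⟩ m').i)
    (hj : (pos b ⟨x, s, .N⟩ m).j = (pos b ⟨x', s, .N⟩ m').j) : False := by
  have key : ∀ (y y' : ℤ) (N N' k k' : ℕ), FD b a c s h y N → FD b a c s h y' N' → y ≠ y' → a ≤ y →
      col ε (y, s) → col ε (y', s) → k < N → k' < N' →
      rturn (b (pos b ⟨y, s, .N⟩ k).i (pos b ⟨y, s, .N⟩ k).j) (pos b ⟨y, s, .N⟩ k).d →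
      rturn (b (pos b ⟨y', s, .N⟩ k').i (pos b ⟨y', s, .N⟩ k').j) (pos b ⟨y', s, .N⟩ k').d →
      (pos b ⟨y, s, .N⟩ k).i = (pos b ⟨y', s, .N⟩ k').i →
      (pos b ⟨y, s, .N⟩ k).j = (pos b ⟨y', s, .N⟩ k').j → ¬ y < y' := by
    intro y y' N N' k k' hG hG' hyy hay hcy hcy' hk hk' hry hry' hii hjj hlt
    have e1 := lc_step_right hry (col_pos (b := b) (t := ⟨y, s, .N⟩) hcy k)
    have e2 := lc_step_right hry' (col_pos (b := b) (t := ⟨y', s, .N⟩) hcy' k')
    rw [← pos_succ] at e1 e2
    rw [← hii, ← hjj] at e2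
    have f1 := hG.pf_left hay (m := k) (by omega)
    have f2 := hG.pf_left hay (m := k + 1) (by omega)
    have f3 := hG.pf_other hG' hyy hay (m := k') (by omega)
    rw [if_pos hlt] at f3
    rcases e1 with ⟨e1, e1'⟩ | ⟨e1, e1'⟩ <;> rcases e2 with ⟨e2, _⟩ | ⟨e2, _⟩ <;>
      rw [e1] at f1 <;> rw [e1'] at f2 <;> rw [e2] at f3
    · rw [f1] at f3; exact zero_ne_one f3
    · rw [f2] at f3; exact zero_ne_one f3
    · rw [f2] at f3; exact zero_ne_one f3
    · rw [f1] at f3; exact zero_ne_one f3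
  rcases lt_or_gt_of_ne hne with hlt | hlt
  · exact key x x' n n' m m' hF hF' hne hx hc hc' hm hm' hr hr' hi hj hlt
  · exact key x' x n' n m' m hF' hF (Ne.symm hne) hx' hc' hc hm' hm hr' hr hi.symm hj.symm hlt

end fd

end Full.Walk
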