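import Pool.Agent.Full.Walk.Channel

/-!
# Long pieces of strands in a box

`NB b a c n K`: the number of the crossings, in the long direction of the bands, of the bands of height
`K` of the box `[a, a + n) × [c, c + n)`, vertically and horizontally.  Every piece of a strand in the box
with sup-diameter at least `2 K` contains such a crossing; all exponential moments of `NB` are bounded.
-/

set_option autoImplicit false

namespace Full.Walk

open Finset Full.Mom

variable {b : ℤ → ℤ → Bool}

/-! ### a walk which goes up crosses a band -/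

/-- a walk in the columns `[a, c)` which starts below the row `s` and reaches the row `s + K` crosses the
rectangle `[a, c) × [s, s + K)` upwards -/
theorem cross_up {a c s : ℤ} {K : ℕ} {s0 : St} {m1 m2 : ℕ} (hm : m1 ≤ m2)
    (hcol : ∀ m, m1 ≤ m → m ≤ m2 → a ≤ (pos b s0 m).i ∧ (pos b s0 m).i < c)
    (h1 : (pos b s0 m1).j < s) (h2 : s + K ≤ (pos b s0 m2).j) :
    ∃ m x, m1 < m ∧ m ≤ m2 ∧ pos b s0 m = ⟨x, s, .N⟩ ∧ CrR b a c s K x ∧ a ≤ x ∧ x < c := by
  classical
  -- the first time after `m1` at the height `s + K`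
  have hex : ∃ k, m1 ≤ k ∧ s + K ≤ (pos b s0 k).j := ⟨m2, hm, h2⟩
  set M := Nat.find hex with hM
  have hMs := Nat.find_spec hex
  rw [← hM] at hMs
  have hMle : M ≤ m2 := Nat.find_min' hex ⟨hm, h2⟩
  have hmin : ∀ k, m1 ≤ k → k < M → (pos b s0 k).j < s + K := by
    intro k hk hkM
    by_contra hcon
    exact Nat.find_min hex hkM ⟨hk, by omega⟩
  have hM1 : m1 < M := by
    rcases lt_or_eq_of_le hMs.1 with h | h
    · exact h
    · rw [← h] at hMs
      omega
  -- the last time before `M` below the row `s`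
  set l := Nat.findGreatest (fun k => (pos b s0 k).j < s) M with hl
  have hls : (pos b s0 l).j < s := by
    have := Nat.findGreatest_spec (P := fun k => (pos b s0 k).j < s) hM1.le h1
    exact this
  have hl1 : m1 ≤ l := Nat.le_findGreatest hM1.le h1
  have hlM : l ≤ M := Nat.findGreatest_le M
  have hlM' : l < M := by
    rcases lt_or_eq_of_le hlM with h | h
    · exact h
    · rw [h] at hls
      omega
  have hbig : ∀ k, l < k → k ≤ M → s ≤ (pos b s0 k).j := by
    intro k hk hkM
    have := Nat.findGreatest_is_greatest (P := fun k => (pos b s0 k).j < s) hk hkM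
    simpa using this
  have hj1 := hbig (l + 1) (Nat.lt_succ_self l) hlM'
  have hst := step_j (b := b) (pos b s0 l)
  rw [← pos_succ] at hst
  have hd := dy_cases (pos b s0 (l + 1)).d
  have hheading : (pos b s0 (l + 1)).d = .N ∧ (pos b s0 (l + 1)).j = s := by
    rcases hd with g | ⟨g, g'⟩ | ⟨g, g'⟩
    · omega
    · exact ⟨g, by omega⟩
    · omega
  have hcl := hcol (l + 1) (by omega) (by omega)
  refine ⟨l + 1, (pos b s0 (l + 1)).i, by omega, by omega, ?_, ?_, hcl⟩
  · ext
    · rfl
    · exact hheading.2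
    · exact hheading.1
  · -- the exit at `M`
    have e0 : (⟨(pos b s0 (l + 1)).i, s, .N⟩ : St) = pos b s0 (l + 1) := by
      ext
      · rfl
      · exact hheading.2.symm
      · exact hheading.1.symm
    have e1 : ∀ k, pos b ⟨(pos b s0 (l + 1)).i, s, .N⟩ k = pos b s0 (l + 1 + k) := by
      intro k
      rw [e0, ← pos_add]
    have hMj : (pos b s0 M).j = s + K := by
      obtain ⟨M', hM'⟩ := Nat.exists_eq_succ_of_ne_zero (by omega : M ≠ 0)
      have g1 := hmin M' (by omega) (by omega)
      have g2 := step_j (b := b) (pos b s0 M')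
      rw [← pos_succ] at g2
      have g3 : M' + 1 = M := hM'.symm
      rw [g3] at g2
      have g4 := hMs.2
      rcases dy_cases (pos b s0 M).d with g | ⟨_, g⟩ | ⟨_, g⟩
      · omega
      · omega
      · omega
    refine ⟨pos b s0 M, ⟨M - (l + 1), ?_, ?_, ?_⟩, hMj⟩
    · intro k hk
      rw [e1]
      have g1 := hbig (l + 1 + k) (by omega) (by omega)
      have g2 := hmin (l + 1 + k) (by omega) (by omega)
      have g3 := hcol (l + 1 + k) (by omega) (by omega)
      exact ⟨g3.1, g3.2, g1, g2⟩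
    · rw [e1, show l + 1 + (M - (l + 1)) = M by omega]
      rintro ⟨_, _, _, g⟩
      omega
    · rw [e1, show l + 1 + (M - (l + 1)) = M by omega]

/-- the states at which the bands of the box are crossed upwards -/
def CrSt (b : ℤ → ℤ → Bool) (a c : ℤ) (n K : ℕ) (k : ℕ) (x : ℤ) : Prop :=
  k < n / K ∧ a ≤ x ∧ x < a + n ∧ CrR b a (a + n) (c + k * K) K x

/-- a piece of a walk in the box with vertical extension at least `2 K` crosses a band upwards, the piece
itself or the reversed piece -/
theorem cross_vert {a c : ℤ} {n K : ℕ} (hK : 1 ≤ K) {s0 : St} {N m1 m2 : ℕ} (h1 : m1 ≤ N) (h2 : m2 ≤ N)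
    (hbox : ∀ m ≤ N, win a (a + n) c n (pos b s0 m).i (pos b s0 m).j)
    (hd : (pos b s0 m1).j + 2 * K ≤ (pos b s0 m2).j) :
    ∃ k x l, CrSt b a c n K k x ∧ 1 ≤ l ∧ l ≤ N ∧
      ((⟨x, c + k * K, .N⟩ : St) = pos b s0 l ∨ (⟨x, c + k * K, .N⟩ : St) = rev (pos b s0 l)) := by
  set j1 := (pos b s0 m1).j with hj1
  obtain ⟨-, -, g1, g2⟩ := hbox m1 h1
  obtain ⟨-, -, g3, g4⟩ := hbox m2 h2
  rw [← hj1] at g1 g2
  have hK' : (0 : ℤ) < K := by exact_mod_cast hK
  -- the band
  set k : ℕ := ((j1 - c) / K).toNat + 1 with hk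
  have hq : 0 ≤ (j1 - c) / K := Int.ediv_nonneg (by omega) hK'.le
  have hkz : (k : ℤ) = (j1 - c) / K + 1 := by
    rw [hk]
    push_cast
    rw [Int.toNat_of_nonneg hq]
  have hdm := Int.emod_add_mul_ediv (j1 - c) K
  have hm0 := Int.emod_nonneg (j1 - c) hK'.ne'
  have hm1 := Int.emod_lt_of_pos (j1 - c) hK'
  have hs : c + k * K = j1 - (j1 - c) % K + K := by
    rw [hkz]
    linear_combination hdm
  have hs1 : j1 < c + k * K := by omega
  have hs2 : c + k * K + K ≤ (pos b s0 m2).j := by omega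
  have hkn : k < n / K := by
    have e1 : (k + 1) * K ≤ n := by
      have : ((k : ℤ) + 1) * K ≤ n := by linarith
      exact_mod_cast this
    have := (Nat.le_div_iff_mul_le (by omega : 0 < K)).2 e1
    omega
  rcases le_total m1 m2 with hle | hle
  · obtain ⟨m, x, e1, e2, e3, e4, e5, e6⟩ := cross_up (b := b) (a := a) (c := a + n) (s := c + k * K) (K := K)
      (s0 := s0) hle (fun m _ hm => ⟨(hbox m (by omega)).1, (hbox m (by omega)).2.1⟩) hs1 hs2
    exact ⟨k, x, m, ⟨hkn, e5, e6, e4⟩, by omega, by omega, Or.inl e3.symm⟩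
  · -- the reversed walk
    have hr : ∀ m, m ≤ m1 + 1 → pos b (rev (pos b s0 (m1 + 1))) m = rev (pos b s0 (m1 + 1 - m)) :=
      fun m hm => pos_rev b s0 hm
    have ht : ∀ m, m ≤ m1 → (pos b (rev (pos b s0 (m1 + 1))) m).i = (pos b s0 (m1 - m)).i ∧
        (pos b (rev (pos b s0 (m1 + 1))) m).j = (pos b s0 (m1 - m)).j := by
      intro m hm
      rw [hr m (by omega), show m1 + 1 - m = (m1 - m) + 1 by omega, pos_succ]
      exact rev_step_tile b _
    obtain ⟨m, x, e1, e2, e3, e4, e5, e6⟩ := cross_up (b := b) (a := a) (c := a + n) (s := c + k * K) (K := K)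
      (s0 := rev (pos b s0 (m1 + 1))) (m1 := 0) (m2 := m1 - m2) (by omega)
      (fun m _ hm => by
        rw [(ht m (by omega)).1]
        exact ⟨(hbox _ (by omega)).1, (hbox _ (by omega)).2.1⟩)
      (by rw [(ht 0 (by omega)).2]; exact hs1)
      (by rw [(ht _ (by omega)).2, show m1 - (m1 - m2) = m2 by omega]; exact hs2)
    refine ⟨k, x, m1 + 1 - m, ⟨hkn, e5, e6, e4⟩, by omega, by omega, Or.inr ?_⟩
    rw [← hr m (by omega)]
    exact e3.symm

/-! ### horizontal crossings by rotation -/

lemma rotD_neg (d : Dir) : rotD d.neg = (rotD d).neg := by cases d <;> rfl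

lemma rev_rot (t : St) : rev (rot t) = rot (rev t) := by
  unfold rev rot
  simp only [rotD_dx, rotD_dy, rotD_neg]
  ext
  · simp only; ring
  · rfl
  · rfl

lemma rot_inj {s t : St} (h : rot s = rot t) : s = t := by
  unfold rot at h
  injection h with h1 h2 h3
  have h4 : s.d = t.d := by
    revert h3
    cases s.d <;> cases t.d <;> simp [rotD]
  ext
  · exact h2
  · omega
  · exact h4

/-- a piece of a walk in the box with horizontal extension at least `2 K` -/
theorem cross_hor {a c : ℤ} {n K : ℕ} (hK : 1 ≤ K) {s0 : St} {N m1 m2 : ℕ} (h1 : m1 ≤ N) (h2 : m2 ≤ N)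
    (hbox : ∀ m ≤ N, win a (a + n) c n (pos b s0 m).i (pos b s0 m).j)
    (hd : (pos b s0 m1).i + 2 * K ≤ (pos b s0 m2).i) :
    ∃ k x l, CrSt (rotB b) (-c - n) a n K k x ∧ 1 ≤ l ∧ l ≤ N ∧
      ((⟨x, a + k * K, .N⟩ : St) = rot (pos b s0 l) ∨
        (⟨x, a + k * K, .N⟩ : St) = rot (rev (pos b s0 l))) := by
  have hp : ∀ m, pos (rotB b) (rot s0) m = rot (pos b s0 m) := fun m => pos_rot s0 m
  obtain ⟨k, x, l, e1, e2, e3, e4⟩ := cross_vert (b := rotB b) (a := -c - n) (c := a) (n := n) (K := K) hK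
    (s0 := rot s0) (N := N) h1 h2
    (fun m hm => by
      rw [hp]
      obtain ⟨g1, g2, g3, g4⟩ := hbox m hm
      unfold win rot
      simp only
      omega)
    (by
      rw [hp, hp]
      exact hd)
  refine ⟨k, x, l, e1, e2, e3, ?_⟩
  rw [hp, rev_rot] at e4
  exact e4

/-! ### the number of crossings -/

/-- the number of the crossings of the bands of height `K` of the box `[a, a + n) × [c, c + n)` -/
noncomputable def NB (b : ℤ → ℤ → Bool) (a c : ℤ) (n K : ℕ) : ℕ :=
  (∑ k ∈ range (n / K), XR b a (a + n) (c + k * K) K) +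
    ∑ k ∈ range (n / K), XR (rotB b) (-c - n) (-c - n + n) (a + k * K) K

open scoped Classical in
/-- the index set of the crossings -/
noncomputable def crF (b : ℤ → ℤ → Bool) (a c : ℤ) (n K : ℕ) : Finset (ℕ × ℤ) :=
  (range (n / K) ×ˢ Ico a (a + n)).filter (fun p => CrR b a (a + n) (c + p.1 * K) K p.2)

lemma card_crF (b : ℤ → ℤ → Bool) (a c : ℤ) (n K : ℕ) :
    (crF b a c n K).card = ∑ k ∈ range (n / K), XR b a (a + n) (c + k * K) K := by
  classical
  unfold crF XR
  rw [card_filter, sum_product]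
  refine sum_congr rfl fun k _ => ?_
  rw [card_filter]

lemma mem_crF {b : ℤ → ℤ → Bool} {a c : ℤ} {n K k : ℕ} {x : ℤ} :
    (k, x) ∈ crF b a c n K ↔ CrSt b a c n K k x := by
  classical
  unfold crF CrSt
  rw [mem_filter, mem_product, mem_range, mem_Ico]
  tauto

/-- **the number of disjoint long pieces**: the pieces start at the states `s0 x` and have `N x` steps in
the box; at different pieces different states; then their number is at most `2 NB` -/
theorem card_long_le {β : Type*} (S : Finset β) {a c : ℤ} {n K : ℕ} (hK : 1 ≤ K) (s0 : β → St) (N : β → ℕ)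
    (hbox : ∀ x ∈ S, ∀ m ≤ N x, win a (a + n) c n (pos b (s0 x) m).i (pos b (s0 x) m).j)
    (hlong : ∀ x ∈ S, ∃ m1 m2, m1 ≤ N x ∧ m2 ≤ N x ∧
      ((pos b (s0 x) m1).i + 2 * K ≤ (pos b (s0 x) m2).i ∨ (pos b (s0 x) m1).j + 2 * K ≤ (pos b (s0 x) m2).j))
    (hdisj : ∀ x ∈ S, ∀ y ∈ S, ∀ l l', 1 ≤ l → l ≤ N x → 1 ≤ l' → l' ≤ N y →
      pos b (s0 x) l = pos b (s0 y) l' → x = y) :
    S.card ≤ 2 * NB b a c n K := by
  classical
  -- the code of a piece: orientation, direction, index
  have hcode : ∀ x ∈ S, ∃ (o v : Bool) (p : ℕ × ℤ) (l : ℕ), 1 ≤ l ∧ l ≤ N x ∧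
      (v = true → p ∈ crF b a c n K ∧ (⟨p.2, c + p.1 * K, .N⟩ : St) =
        (if o then rev (pos b (s0 x) l) else pos b (s0 x) l)) ∧
      (v = false → p ∈ crF (rotB b) (-c - n) a n K ∧ (⟨p.2, a + p.1 * K, .N⟩ : St) =
        rot (if o then rev (pos b (s0 x) l) else pos b (s0 x) l)) := by
    intro x hx
    obtain ⟨m1, m2, h1, h2, h3⟩ := hlong x hx
    rcases h3 with h3 | h3
    · obtain ⟨k, y, l, e1, e2, e3, e4⟩ := cross_hor hK h1 h2 (hbox x hx) h3
      rcases e4 with e4 | e4
      · exact ⟨false, false, (k, y), l, e2, e3, by simp, fun _ => ⟨mem_crF.2 e1, by simpa using e4⟩⟩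
      · exact ⟨true, false, (k, y), l, e2, e3, by simp, fun _ => ⟨mem_crF.2 e1, by simpa using e4⟩⟩
    · obtain ⟨k, y, l, e1, e2, e3, e4⟩ := cross_vert hK h1 h2 (hbox x hx) h3
      rcases e4 with e4 | e4
      · exact ⟨false, true, (k, y), l, e2, e3, fun _ => ⟨mem_crF.2 e1, by simpa using e4⟩, by simp⟩
      · exact ⟨true, true, (k, y), l, e2, e3, fun _ => ⟨mem_crF.2 e1, by simpa using e4⟩, by simp⟩
  choose! o v p l hl1 hl2 hv hv' using hcode
  set A : Finset (Bool × Bool × (ℕ × ℤ)) :=
    (univ : Finset Bool) ×ˢ (({true} : Finset Bool) ×ˢ crF b a c n K ∪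
      ({false} : Finset Bool) ×ˢ crF (rotB b) (-c - n) a n K) with hA
  have hAcard : A.card ≤ 2 * NB b a c n K := by
    rw [hA, card_product, card_univ, Fintype.card_bool]
    refine Nat.mul_le_mul_left 2 ((card_union_le _ _).trans ?_)
    rw [card_product, card_product, card_singleton, card_singleton, one_mul, one_mul, card_crF, card_crF]
    exact le_rfl
  refine le_trans (card_le_card_of_injOn (fun x => (o x, v x, p x)) ?_ ?_) hAcard
  · intro x hx
    have hx' : x ∈ S := hx
    rw [mem_coe, hA, mem_product]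
    refine ⟨mem_univ _, ?_⟩
    rw [mem_union, mem_product, mem_product, mem_singleton, mem_singleton]
    cases hvx : v x
    · right
      exact ⟨hvx, (hv' x hx' hvx).1⟩
    · left
      exact ⟨hvx, (hv x hx' hvx).1⟩
  · intro x hx y hy hxy
    have hx' : x ∈ S := hx
    have hy' : y ∈ S := hy
    simp only [Prod.mk.injEq] at hxy
    obtain ⟨h1, h2, h3⟩ := hxy
    have key : (if o x then rev (pos b (s0 x) (l x)) else pos b (s0 x) (l x)) =
        (if o y then rev (pos b (s0 y) (l y)) else pos b (s0 y) (l y)) := by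
      cases hvx : v x
      · have e1 := (hv' x hx' hvx).2
        have e2 := (hv' y hy' (by rw [← h2, hvx])).2
        rw [h3] at e1
        exact rot_inj (e1.symm.trans e2)
      · have e1 := (hv x hx' hvx).2
        have e2 := (hv y hy' (by rw [← h2, hvx])).2
        rw [h3] at e1
        exact e1.symm.trans e2
    rw [← h1] at key
    have key2 : pos b (s0 x) (l x) = pos b (s0 y) (l y) := by
      cases hox : o x
      · rw [hox] at key
        simpa using key
      · rw [hox] at key
        simp only [if_true] at key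
        have := congrArg rev key
        rwa [rev_rev, rev_rev] at this
    exact hdisj x hx' y hy' (l x) (l y) (hl1 x hx') (hl2 x hx') (hl1 y hy') (hl2 y hy') key2

end Full.Walk
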