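import Pool.Agent.Full.Walk.Long

/-!
# Exponential moments of the number of the crossings of the bands of a box
-/

set_option autoImplicit false
set_option linter.unusedSectionVars false

namespace Full.Walk

open Finset Full.Mom

/-! ### translations -/

/-- translation of states -/
def trans (p q : ℤ) (t : St) : St := ⟨t.i + p, t.j + q, t.d⟩

/-- the bits of the translated tiling -/
def transB (p q : ℤ) (b : ℤ → ℤ → Bool) : ℤ → ℤ → Bool := fun i j => b (i + p) (j + q)

lemma pos_trans (b : ℤ → ℤ → Bool) (p q : ℤ) (t : St) :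
    ∀ n : ℕ, pos b (trans p q t) n = trans p q (pos (transB p q b) t n)
  | 0 => rfl
  | n + 1 => by
    rw [pos_succ, pos_succ, pos_trans b p q t n]
    unfold step trans transB
    ext
    · simp only; ring
    · simp only; ring
    · rfl

/-- a crossing of a rectangle is a crossing of the band of the cylinder -/
lemma CrR.thr {b b' : ℤ → ℤ → Bool} {a s x : ℤ} {n K : ℕ}
    (hb : ∀ i j : ℤ, 0 ≤ i → i < n → 0 ≤ j → j < K → b' i j = b (i + a) (j + s))
    (h : CrR b a (a + n) s K x) : Thr b' 0 K (x - a) := by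
  obtain ⟨e, ⟨m, h1, h2, h3⟩, h4⟩ := h
  have e0 : (⟨x, s, .N⟩ : St) = trans a s ⟨x - a, 0, .N⟩ := by
    unfold trans
    ext
    · simp
    · simp
    · rfl
  have key : ∀ k, pos b ⟨x, s, .N⟩ k = trans a s (pos (transB a s b) ⟨x - a, 0, .N⟩ k) := fun k => by
    rw [e0, pos_trans]
  have hR : ∀ k < m, win 0 n 0 K (pos (transB a s b) ⟨x - a, 0, .N⟩ k).i
      (pos (transB a s b) ⟨x - a, 0, .N⟩ k).j := by
    intro k hk
    have g := h1 k hk
    rw [key] at g
    unfold win trans at g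
    unfold win
    simp only at g
    omega
  have hc : ∀ k ≤ m, pos b' ⟨x - a, 0, .N⟩ k = pos (transB a s b) ⟨x - a, 0, .N⟩ k := by
    intro k hk
    symm
    apply pos_congr (R := win 0 n 0 K)
    · intro i j hw
      obtain ⟨g1, g2, g3, g4⟩ := hw
      exact (hb i j g1 (by omega) g3 (by omega)).symm
    · intro l hl
      exact hR l (by omega)
  have hej : e.j = (pos (transB a s b) ⟨x - a, 0, .N⟩ m).j + s := by
    rw [← h3, key]
    rfl
  refine ⟨pos b' ⟨x - a, 0, .N⟩ m, ⟨m, ?_, ?_, rfl⟩, ?_⟩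
  · intro k hk
    rw [hc k hk.le]
    have g := hR k hk
    exact ⟨g.2.2.1, g.2.2.2⟩
  · rw [hc m le_rfl]
    rintro ⟨_, g⟩
    omega
  · rw [hc m le_rfl]
    omega

lemma XR_le_tcount {b b' : ℤ → ℤ → Bool} {a s : ℤ} {n K : ℕ}
    (hb : ∀ i j : ℤ, 0 ≤ i → i < n → 0 ≤ j → j < K → b' i j = b (i + a) (j + s)) :
    XR b a (a + n) s K ≤ tcount b' n 0 K := by
  classical
  unfold XR tcount
  apply card_le_card_of_injOn (fun x : ℤ => (x - a).toNat)
  · intro x hx
    rw [mem_coe, mem_filter, mem_Ico] at hx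
    rw [mem_coe, mem_filter, mem_range]
    refine ⟨?_, ?_⟩
    · show (x - a).toNat < n
      omega
    · have h1 := hx.2.thr hb
      show Thr b' 0 K ((x - a).toNat : ℤ)
      rw [show ((x - a).toNat : ℤ) = x - a from Int.toNat_of_nonneg (by omega)]
      exact h1
  · intro x hx y hy hxy
    rw [mem_coe, mem_filter, mem_Ico] at hx hy
    simp only at hxy
    omega

section prob
variable {ι : Type*} [Fintype ι] [DecidableEq ι]

/-- `τ` is injective on the box `[a, a + n) × [c, c + k)` -/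
def BInj {κ : Type*} (τ : ℤ → ℤ → κ) (a c : ℤ) (n k : ℕ) : Prop :=
  ∀ i j i' j' : ℤ, a ≤ i → i < a + n → c ≤ j → j < c + k → a ≤ i' → i' < a + n → c ≤ j' → j' < c + k →
    τ i j = τ i' j' → i = i' ∧ j = j'

/-- the periodic chart -/
def perT {κ : Type*} (τ : ℤ → ℤ → κ) (a s : ℤ) (n : ℕ) : ℤ → ℤ → κ := fun i j => τ (i % n + a) (j + s)

lemma perT_cyl {τ : ℤ → ℤ → ι} {a s : ℤ} {n K : ℕ} (hn : 1 ≤ n) (hτ : BInj τ a s n K) :
    Cyl n K (perT τ a s n) := by
  have hn' : (0 : ℤ) < n := by exact_mod_cast hn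
  constructor
  · intro i j
    unfold perT
    rw [Int.add_emod_right]
  · intro i j i' j' h1 h2 h3 h4 h
    unfold perT at h
    have g1 := Int.emod_nonneg i hn'.ne'
    have g2 := Int.emod_lt_of_pos i hn'
    have g3 := Int.emod_nonneg i' hn'.ne'
    have g4 := Int.emod_lt_of_pos i' hn'
    obtain ⟨e1, e2⟩ := hτ _ _ _ _ (by omega) (by omega) (by omega) (by omega) (by omega) (by omega) (by omega)
      (by omega) h
    refine ⟨by omega, i' / n - i / n, ?_⟩
    have g5 := Int.emod_add_mul_ediv i n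
    have g6 := Int.emod_add_mul_ediv i' n
    have g7 : i % n = i' % n := by omega
    linear_combination g5 - g6 - g7

/-- exponential moments of the number of the crossings of a wide rectangle -/
theorem exp_moment_XR.{u} {q : ℝ} (hq : RswQ q) {δ Q : ℝ} (hδ : 0 < δ) (hQ : 1 ≤ Q) :
    ∃ C : ℝ, 1 ≤ C ∧ ∀ (ι : Type u) [Fintype ι] [DecidableEq ι] (n K : ℕ) (a s : ℤ) (τ : ℤ → ℤ → ι),
      1 ≤ n → BInj τ a s n K → δ * n ≤ K →
      avg (fun ω : ι → Bool => Q ^ XR (bits τ ω) a (a + n) s K) ≤ C := by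
  obtain ⟨C, hC1, hC⟩ := exp_moment.{u} hq hδ hQ
  refine ⟨C, hC1, ?_⟩
  intro ι _ _ n K a s τ hn hτ hK
  refine le_trans (avg_mono fun ω => ?_) (hC ι n K (perT τ a s n) (perT_cyl hn hτ) hK)
  apply pow_le_pow_right₀ hQ
  apply XR_le_tcount
  intro i j h1 h2 _ _
  unfold bits perT
  rw [Int.emod_eq_of_lt h1 h2]

lemma pow_sum_le {κ : Type*} (s : Finset κ) (X : κ → ℕ) {Q : ℝ} (hQ : 1 ≤ Q) {r : ℕ} (hr : s.card ≤ r) :
    Q ^ (∑ k ∈ s, X k) ≤ 1 + ∑ k ∈ s, (Q ^ r) ^ X k := by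
  classical
  have hQ0 : 0 ≤ Q := by linarith
  rcases s.eq_empty_or_nonempty with rfl | hs
  · simp
  · obtain ⟨k0, hk0, hmax⟩ := s.exists_max_image X hs
    have h1 : ∑ k ∈ s, X k ≤ r * X k0 := by
      calc ∑ k ∈ s, X k ≤ ∑ _k ∈ s, X k0 := sum_le_sum hmax
        _ = s.card * X k0 := by rw [sum_const, smul_eq_mul]
        _ ≤ r * X k0 := Nat.mul_le_mul_right _ hr
    have h2 : (Q ^ r) ^ X k0 ≤ ∑ k ∈ s, (Q ^ r) ^ X k :=
      single_le_sum (f := fun k => (Q ^ r) ^ X k) (fun k _ => by positivity) hk0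
    have h3 : Q ^ (∑ k ∈ s, X k) ≤ (Q ^ r) ^ X k0 := by
      rw [← pow_mul]
      exact pow_le_pow_right₀ hQ h1
    linarith

/-- **exponential moments of the number of the crossings of the bands of a box** -/
theorem exp_moment_NB.{u} {q : ℝ} (hq : RswQ q) {δ Q : ℝ} (hδ : 0 < δ) (hQ : 1 ≤ Q) :
    ∃ C : ℝ, 1 ≤ C ∧ ∀ (ι : Type u) [Fintype ι] [DecidableEq ι] (n K : ℕ) (a c : ℤ) (τ : ℤ → ℤ → ι),
      1 ≤ n → 1 ≤ K → BInj τ a c n n → δ * n ≤ K →
      avg (fun ω : ι → Bool => Q ^ NB (bits τ ω) a c n K) ≤ C := by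
  classical
  set R : ℕ := ⌈1 / δ⌉₊ with hR
  obtain ⟨C, hC1, hC⟩ := exp_moment_XR.{u} hq hδ (Q := ((Q ^ 2) ^ R)) (one_le_pow₀ (one_le_pow₀ hQ))
  refine ⟨2 + R * C + R * C, ?_, ?_⟩
  · have : 0 ≤ (R : ℝ) * C := by positivity
    linarith
  intro ι _ _ n K a c τ hn hK hτ hδn
  have hn' : (0 : ℝ) < n := by exact_mod_cast hn
  have hK' : (0 : ℝ) < K := by exact_mod_cast hK
  have hnK : n / K ≤ R := by
    have h1 : ((n / K : ℕ) : ℝ) ≤ n / K := Nat.cast_div_le
    have h2 : (n : ℝ) / K ≤ 1 / δ := by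
      rw [div_le_div_iff₀ hK' hδ]
      linarith
    have h3 : ((n / K : ℕ) : ℝ) ≤ (R : ℝ) := (h1.trans h2).trans (Nat.le_ceil _)
    exact_mod_cast h3
  have hQ2 : 1 ≤ Q ^ 2 := one_le_pow₀ hQ
  have hkK : ∀ k ∈ range (n / K), (k + 1) * K ≤ n := by
    intro k hk
    rw [mem_range] at hk
    calc (k + 1) * K ≤ (n / K) * K := Nat.mul_le_mul_right _ hk
      _ ≤ n := Nat.div_mul_le_self n K
  have hkK' : ∀ k ∈ range (n / K), (0 : ℤ) ≤ k * K ∧ (k : ℤ) * K + K ≤ n := by
    intro k hk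
    refine ⟨by positivity, ?_⟩
    have h1 : ((k : ℤ) + 1) * K ≤ n := by exact_mod_cast hkK k hk
    linarith
  -- the vertical part
  set V : (ι → Bool) → ℕ := fun ω => ∑ k ∈ range (n / K), XR (bits τ ω) a (a + n) (c + k * K) K with hV
  set H : (ι → Bool) → ℕ :=
    fun ω => ∑ k ∈ range (n / K), XR (rotB (bits τ ω)) (-c - n) (-c - n + n) (a + k * K) K with hH
  have hsum : ∀ ω, Q ^ NB (bits τ ω) a c n K ≤ (Q ^ 2) ^ V ω + (Q ^ 2) ^ H ω := by
    intro ω
    have e : NB (bits τ ω) a c n K = V ω + H ω := rfl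
    rw [e]
    have h1 : 0 ≤ (Q ^ 2) ^ V ω := by positivity
    have h2 : 0 ≤ (Q ^ 2) ^ H ω := by positivity
    rcases le_total (V ω) (H ω) with h | h
    · have : Q ^ (V ω + H ω) ≤ (Q ^ 2) ^ H ω := by
        rw [← pow_mul]
        exact pow_le_pow_right₀ hQ (by omega)
      linarith
    · have : Q ^ (V ω + H ω) ≤ (Q ^ 2) ^ V ω := by
        rw [← pow_mul]
        exact pow_le_pow_right₀ hQ (by omega)
      linarith
  have hVm : avg (fun ω => (Q ^ 2) ^ V ω) ≤ 1 + R * C := by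
    have h1 : avg (fun ω => (Q ^ 2) ^ V ω) ≤
        avg (fun ω => 1 + ∑ k ∈ range (n / K), ((Q ^ 2) ^ R) ^ XR (bits τ ω) a (a + n) (c + k * K) K) :=
      avg_mono fun ω => pow_sum_le (range (n / K)) _ hQ2 (by rw [card_range]; exact hnK)
    refine h1.trans ?_
    rw [avg_add, avg_const, avg_sum]
    refine add_le_add_right ?_ 1
    calc ∑ k ∈ range (n / K), avg (fun ω => ((Q ^ 2) ^ R) ^ XR (bits τ ω) a (a + n) (c + k * K) K)
        ≤ ∑ _k ∈ range (n / K), C := by
          apply sum_le_sum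
          intro k hk
          have hk' := hkK' k hk
          apply hC ι n K a _ τ hn _ hδn
          intro i j i' j' g1 g2 g3 g4 g5 g6 g7 g8 h
          exact hτ i j i' j' g1 g2 (by omega) (by omega) g5 g6 (by omega) (by omega) h
      _ = (n / K : ℕ) * C := by rw [sum_const, card_range, nsmul_eq_mul]
      _ ≤ R * C := by
          apply mul_le_mul_of_nonneg_right _ (by linarith)
          exact_mod_cast hnK
  have hHm : avg (fun ω => (Q ^ 2) ^ H ω) ≤ 1 + R * C := by
    have h1 : avg (fun ω => (Q ^ 2) ^ H ω) ≤ avg (fun ω => 1 + ∑ k ∈ range (n / K),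
        ((Q ^ 2) ^ R) ^ XR (rotB (bits τ ω)) (-c - n) (-c - n + n) (a + k * K) K) :=
      avg_mono fun ω => pow_sum_le (range (n / K)) _ hQ2 (by rw [card_range]; exact hnK)
    refine h1.trans ?_
    rw [avg_add, avg_const, avg_sum]
    refine add_le_add_right ?_ 1
    calc ∑ k ∈ range (n / K), avg (fun ω => ((Q ^ 2) ^ R) ^
          XR (rotB (bits τ ω)) (-c - n) (-c - n + n) (a + k * K) K)
        ≤ ∑ _k ∈ range (n / K), C := by
          apply sum_le_sum
          intro k hk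
          have hk' := hkK' k hk
          have e1 : avg (fun ω : ι → Bool => ((Q ^ 2) ^ R) ^
              XR (rotB (bits τ ω)) (-c - n) (-c - n + n) (a + k * K) K) =
              avg (fun ω' : ι → Bool => ((Q ^ 2) ^ R) ^
              XR (bits (fun p q => τ q (-p - 1)) ω') (-c - n) (-c - n + n) (a + k * K) K) :=
            avg_not (fun ω' : ι → Bool => ((Q ^ 2) ^ R) ^
              XR (bits (fun p q => τ q (-p - 1)) ω') (-c - n) (-c - n + n) (a + k * K) K)
          rw [e1]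
          apply hC ι n K (-c - n) _ (fun p q => τ q (-p - 1)) hn _ hδn
          intro i j i' j' g1 g2 g3 g4 g5 g6 g7 g8 h
          obtain ⟨f1, f2⟩ := hτ j (-i - 1) j' (-i' - 1) (by omega) (by omega) (by omega) (by omega) (by omega)
            (by omega) (by omega) (by omega) h
          exact ⟨by omega, f1⟩
      _ = (n / K : ℕ) * C := by rw [sum_const, card_range, nsmul_eq_mul]
      _ ≤ R * C := by
          apply mul_le_mul_of_nonneg_right _ (by linarith)
          exact_mod_cast hnK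
  have h5 : avg (fun ω : ι → Bool => Q ^ NB (bits τ ω) a c n K) ≤
      avg (fun ω => (Q ^ 2) ^ V ω) + avg (fun ω => (Q ^ 2) ^ H ω) := by
    rw [← avg_add]
    exact avg_mono hsum
  have h6 : (0 : ℝ) ≤ R * C := by positivity
  linarith

end prob

end Full.Walk
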