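import Pool.Agent.Full.Walk.Left
import Pool.Agent.Full.Perc.BK

/-!
# Strands which leave a window give disjoint occurrences of `Out`
-/

set_option autoImplicit false

namespace Full.Walk

open Finset Full.Perc

open scoped Classical in
/-- the tiles of `F` which connect their diagonal of colour `ε` -/
noncomputable def oset (ε : ℤ) (b : ℤ → ℤ → Bool) (F : Finset (ℤ × ℤ)) : Finset (ℤ × ℤ) :=
  F.filter (fun t => opn ε b t)

lemma mem_oset {ε : ℤ} {b : ℤ → ℤ → Bool} {F : Finset (ℤ × ℤ)} {t : ℤ × ℤ} :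
    t ∈ oset ε b F ↔ t ∈ F ∧ opn ε b t := by
  classical
  unfold oset
  exact mem_filter

variable {b : ℤ → ℤ → Bool}

open scoped Classical in
/-- the tiles where the strand turns right -/
noncomputable def ltiles (b : ℤ → ℤ → Bool) (s0 : St) (n : ℕ) : Finset (ℤ × ℤ) :=
  ((range n).filter (fun m => rturn (b (pos b s0 m).i (pos b s0 m).j) (pos b s0 m).d)).image
    (fun m => ((pos b s0 m).i, (pos b s0 m).j))

lemma mem_ltiles {s0 : St} {n : ℕ} {t : ℤ × ℤ} : t ∈ ltiles b s0 n ↔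
    ∃ m < n, rturn (b (pos b s0 m).i (pos b s0 m).j) (pos b s0 m).d ∧
      ((pos b s0 m).i, (pos b s0 m).j) = t := by
  classical
  unfold ltiles
  rw [mem_image]
  constructor
  · rintro ⟨m, hm, h1⟩
    rw [mem_filter, mem_range] at hm
    exact ⟨m, hm.1, hm.2, h1⟩
  · rintro ⟨m, hm, h1, h2⟩
    exact ⟨m, mem_filter.2 ⟨mem_range.2 hm, h1⟩, h2⟩

lemma conn_ltiles {s0 : St} {ε : ℤ} (hc : col ε (lc s0)) {n : ℕ} : ∀ {m : ℕ}, m ≤ n →
    Conn ε (ltiles b s0 n) (lc s0) (lc (pos b s0 m)) := by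
  intro m
  induction m with
  | zero => intro _; exact Relation.ReflTransGen.refl
  | succ m ih =>
    intro hm
    have h1 := ih (by omega)
    by_cases hr : rturn (b (pos b s0 m).i (pos b s0 m).j) (pos b s0 m).d
    · refine Relation.ReflTransGen.tail h1 ?_
      refine ⟨((pos b s0 m).i, (pos b s0 m).j), mem_ltiles.2 ⟨m, by omega, hr, rfl⟩, ?_⟩
      rw [pos_succ]
      exact lc_step_right hr (col_pos hc m)
    · rw [pos_succ, lc_step hr]
      exact h1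

section fd
variable {a s : ℤ} {h : ℕ} {x : ℤ} {n : ℕ}

lemma FD.ltiles_sub {a c : ℤ} (hF : FD b a c s h x n) {ε : ℤ} (hc : col ε (x, s)) :
    ltiles b ⟨x, s, .N⟩ n ⊆ oset ε b (winF a c s h) := by
  intro t ht
  obtain ⟨m, hm, h1, rfl⟩ := mem_ltiles.1 ht
  rw [mem_oset, mem_winF]
  refine ⟨?_, opn_of_right h1 (col_pos (b := b) (t := ⟨x, s, .N⟩) hc m)⟩
  exact hF.stay m hm

/-- the left tiles of a strand which leaves the window -/
lemma FD.out_ltiles (hF : FD b (a - h) (a + 2 * h) s h x n) {ε : ℤ} (hx : a ≤ x) (hx' : x < a + h)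
    (hc : col ε (x, s)) : Out ε a s h (ltiles b ⟨x, s, .N⟩ n) := by
  have hn : n ≠ 0 := by
    rintro rfl
    apply hF.out
    refine ⟨?_, ?_, ?_, ?_⟩ <;> simp only [pos_zero] <;> omega
  obtain ⟨k, rfl⟩ := Nat.exists_eq_succ_of_ne_zero hn
  refine ⟨x, lc (pos b ⟨x, s, .N⟩ (k + 1)), hx, hx', hc,
    conn_ltiles (b := b) (s0 := ⟨x, s, .N⟩) hc le_rfl, ?_⟩
  have h1 := hF.stay k (Nat.lt_succ_self k)
  have h2 := hF.out
  have h3 := hF.top
  have h4 := step_i (b := b) (pos b ⟨x, s, .N⟩ k)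
  have h5 := step_j (b := b) (pos b ⟨x, s, .N⟩ k)
  rw [← pos_succ] at h4 h5
  unfold win at h1 h2
  obtain ⟨h6, h7, h8, h9⟩ := h1
  change ¬ (a - h ≤ (pos b ⟨x, s, .N⟩ (k + 1)).i ∧ (pos b ⟨x, s, .N⟩ (k + 1)).i < a + 2 * h ∧
    s ≤ (pos b ⟨x, s, .N⟩ (k + 1)).j ∧ (pos b ⟨x, s, .N⟩ (k + 1)).j < s + h) at h2
  change (pos b ⟨x, s, .N⟩ (k + 1)).j ≠ s - 1 at h3
  unfold lc
  cases hd : (pos b ⟨x, s, .N⟩ (k + 1)).d <;> rw [hd] at h4 h5 <;>
    simp only [Dir.dx, Dir.dy] at h4 h5 ⊢ <;> omega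

/-- strands which leave the window give disjoint occurrences of `Out` -/
theorem many_out {ε : ℤ} (X : Finset ℤ)
    (hX : ∀ x ∈ X, a ≤ x ∧ x < a + h ∧ col ε (x, s) ∧ Far b (a - h) (a + 2 * h) s h x) :
    Many (Out ε a s h) X.card (oset ε b (winF (a - h) (a + 2 * h) s h)) := by
  classical
  have h1 : ∀ x ∈ X, ∃ n, FD b (a - h) (a + 2 * h) s h x n := fun x hx => far_iff.1 (hX x hx).2.2.2
  choose! N hN using h1
  let e := X.equivFin.symm
  refine ⟨fun i => ltiles b ⟨e i, s, .N⟩ (N (e i)), fun i => ?_, fun i j hij => ?_, fun i => ?_⟩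
  · exact (hN _ (e i).2).ltiles_sub (hX _ (e i).2).2.2.1
  · have hne : ((e i : X) : ℤ) ≠ (e j : X) := fun h => hij (e.injective (Subtype.ext h))
    rw [Finset.disjoint_left]
    intro t ht ht'
    obtain ⟨m, hm, g1, g2⟩ := mem_ltiles.1 ht
    obtain ⟨m', hm', g1', g2'⟩ := mem_ltiles.1 ht'
    have g3 : ((pos b ⟨e i, s, .N⟩ m).i, (pos b ⟨e i, s, .N⟩ m).j) =
        ((pos b ⟨e j, s, .N⟩ m').i, (pos b ⟨e j, s, .N⟩ m').j) := by rw [g2, g2']
    have hi := hX _ (e i).2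
    have hj := hX _ (e j).2
    exact (hN _ (e i).2).left_disj (hN _ (e j).2) hne (by omega) (by omega) hi.2.2.1 hj.2.2.1 hm hm' g1 g1'
      (congrArg Prod.fst g3) (congrArg Prod.snd g3)
  · exact (hN _ (e i).2).out_ltiles (hX _ (e i).2).1 (hX _ (e i).2).2.1 (hX _ (e i).2).2.2.1

end fd

end Full.Walk
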