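import Pool.Agent.Full.Walk.LongMoment
import Pool.Agent.Full.Walk.Glue
import Pool.Agent.Full.Corner.Dyadic

/-!
# Long strands of planar regions: all exponential moments (`Full.Corner.LongBound`)
-/

set_option autoImplicit false
set_option linter.unusedSectionVars false

namespace Full.Walk

open Finset Full.Mom Function
open Full.Corner (longs conf sd LongBound)

/-- the number of the steps of the strand from `x` inside `T` -/
noncomputable def hlp (T ω : Finset (ℤ × ℤ)) (x : Half (ℤ × ℤ)) : ℕ :=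
  minimalPeriod (plane.glue T ∘ mate ω) x / 2

lemma hlp_pos {T ω : Finset (ℤ × ℤ)} {x : Half (ℤ × ℤ)} (hx : Bd T (plane.glue T) x) : 1 ≤ hlp T ω x := by
  have hG := plane.glu T
  have h1 := (hG.two ω).even hx.2 (hG.periodic ω x)
  have h2 := Two.period_pos (m := mate ω) (hG.periodic ω x)
  unfold hlp
  omega

/-- the walk of the bits `b` follows the strand, if `b` gives the configuration `ω` in `T` -/
lemma pos_eq_sB {T ω : Finset (ℤ × ℤ)} {b : ℤ → ℤ → Bool} (hb : ∀ t ∈ T, b t.1 t.2 = sB ω t.1 t.2)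
    {x : Half (ℤ × ℤ)} (hx : Bd T (plane.glue T) x) {k : ℕ} (hk : k < hlp T ω x) :
    pos b (stOf x) k = pos (sB ω) (stOf x) k := by
  symm
  apply pos_congr (R := fun i j => (i, j) ∈ T)
  · intro i j h
    exact (hb (i, j) h).symm
  · intro m hm
    exact (iter_plane hx (show m < minimalPeriod (plane.glue T ∘ mate ω) x / 2 by
      unfold hlp at hk; omega)).2

/-- **long strands of a region in a box** -/
theorem card_longs_le {T ω : Finset (ℤ × ℤ)} {b : ℤ → ℤ → Bool}
    (hb : ∀ t ∈ T, b t.1 t.2 = sB ω t.1 t.2) {a c : ℤ} {n K m : ℕ} (hK : 1 ≤ K) (hm : 2 * K ≤ m)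
    (hT : ∀ t ∈ T, a ≤ t.1 ∧ t.1 < a + n ∧ c ≤ t.2 ∧ t.2 < c + n) :
    (longs T m ω).card ≤ 2 * NB b a c n K := by
  classical
  have hmem : ∀ x ∈ longs T m ω, Bd T (plane.glue T) x ∧
      m ≤ sd x.1 (other (mate ω) (plane.glue T) x).1 := by
    intro x hx
    unfold longs at hx
    rw [mem_filter, mem_product] at hx
    exact ⟨⟨hx.1.1, hx.2.1⟩, hx.2.2⟩
  apply card_long_le (b := b) (longs T m ω) hK stOf (fun x => hlp T ω x - 1)
  · intro x hx k hk
    have hxB := (hmem x hx).1
    have h1 := hlp_pos (ω := ω) hxB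
    rw [pos_eq_sB hb hxB (by omega)]
    have h2 := (iter_plane (ω := ω) hxB (k := k) (by unfold hlp at h1 hk; omega)).2
    have h3 := hT _ h2
    exact h3
  · intro x hx
    obtain ⟨hxB, hlong⟩ := hmem x hx
    have h1 := hlp_pos (ω := ω) hxB
    obtain ⟨k, hk, hz⟩ := conn_plane (ω := ω) hxB (Two.conn_other (m := mate ω) (g := plane.glue T) x)
    have hk' : k < hlp T ω x := hk
    have e0 : pos b (stOf x) 0 = stOf x := rfl
    have ek := pos_eq_sB hb hxB hk'
    have hs : (x.1.1 : ℤ) = (pos b (stOf x) 0).i ∧ (x.1.2 : ℤ) = (pos b (stOf x) 0).j := ⟨rfl, rfl⟩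
    rw [hz, ← ek] at hlong
    unfold sd at hlong
    simp only at hlong
    rw [hs.1, hs.2] at hlong
    have h4 : (0 : ℕ) ≤ hlp T ω x - 1 := Nat.zero_le _
    have h5 : k ≤ hlp T ω x - 1 := by omega
    rcases le_max_iff.1 hlong with h6 | h6
    · rcases le_total (pos b (stOf x) 0).i (pos b (stOf x) k).i with h7 | h7
      · exact ⟨0, k, h4, h5, Or.inl (by omega)⟩
      · exact ⟨k, 0, h5, h4, Or.inl (by omega)⟩
    · rcases le_total (pos b (stOf x) 0).j (pos b (stOf x) k).j with h7 | h7
      · exact ⟨0, k, h4, h5, Or.inr (by omega)⟩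
      · exact ⟨k, 0, h5, h4, Or.inr (by omega)⟩
  · -- different strands are disjoint
    have key : ∀ x ∈ longs T m ω, ∀ y ∈ longs T m ω, ∀ k, k < hlp T ω x → stOf y = pos b (stOf x) k → y = x := by
      intro x hx y hy k hk h
      have hxB := (hmem x hx).1
      have hyB := (hmem y hy).1
      have hG := plane.glu T
      have hTwo := hG.two ω
      have hper := hG.periodic ω x
      have hev := hTwo.even hxB.2 hper
      have hpos := Two.period_pos (m := mate ω) hper
      rw [pos_eq_sB hb hxB hk] at h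
      have h1 := (iter_plane (ω := ω) hxB (k := k) hk).1
      rw [← h, hfe_stOf] at h1
      -- `y = (g ∘ m)^[k] x` is a fixed point
      have h2 : Full.Conn (mate ω) (plane.glue T) x y := by rw [← h1]; exact Full.Conn.iter _ _
      rcases hTwo.eq_or_eq_other hxB.2 hper hyB.2 h2 with h3 | h3
      · exact h3
      · exfalso
        rw [← h1] at h3
        unfold other at h3
        unfold hlp at hk
        have h4 := (iterate_eq_iterate_iff_of_lt_minimalPeriod (f := plane.glue T ∘ mate ω) (x := x)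
          (by omega) (by omega)).1 h3
        omega
    intro x hx y hy l l' h1 h2 h3 h4 h5
    have hx1 := hlp_pos (ω := ω) (hmem x hx).1
    have hy1 := hlp_pos (ω := ω) (hmem y hy).1
    rcases meet b h5 with ⟨k, e1, e2⟩ | ⟨k, e1, e2⟩
    · exact (key x hx y hy k (by omega) e1).symm
    · exact key y hy x hx k (by omega) e1

/-- the number of all boundary half edges -/
lemma card_longs_le' (T ω : Finset (ℤ × ℤ)) (m : ℕ) : (longs T m ω).card ≤ 4 * T.card := by
  classical
  unfold longs
  refine (card_filter_le _ _).trans ?_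
  rw [card_product]
  have : (univ : Finset Full.Dir).card = 4 := by decide
  rw [this, mul_comm]

theorem longBound {q : ℝ} (hq : RswQ q) (K : ℕ) {Q : ℝ} (hQ : 1 ≤ Q) :
    ∃ D : ℝ, 1 ≤ D ∧ LongBound K Q D := by
  classical
  have hδ : (0 : ℝ) < 1 / (3 * (K + 1)) := by positivity
  obtain ⟨C, hC1, hC⟩ := exp_moment_NB.{0} hq hδ (Q := Q ^ 2) (one_le_pow₀ hQ)
  refine ⟨max C (Q ^ (4 * (K * K))), le_max_of_le_left hC1, ?_⟩
  intro ι _ _ τ m a T hm hT hτ
  have hTc : T.card ≤ (K * m) * (K * m) := by
    have h1 : T ⊆ Ico a.1 (a.1 + K * m) ×ˢ Ico a.2 (a.2 + K * m) := by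
      intro t ht
      have := hT t ht
      rw [mem_product, mem_Ico, mem_Ico]
      tauto
    refine (card_le_card h1).trans ?_
    rw [card_product, Int.card_Ico, Int.card_Ico]
    have e : ∀ z : ℤ, (z + K * m - z).toNat = K * m := by
      intro z
      rw [add_sub_cancel_left]
      exact_mod_cast Int.toNat_natCast (K * m)
    rw [e, e]
  rcases lt_or_ge m 2 with hm2 | hm2
  · -- `m = 1`
    have hm1 : m = 1 := by omega
    subst hm1
    refine le_max_of_le_right ?_
    rw [← avg_const (ι := ι) (Q ^ (4 * (K * K)))]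
    apply avg_mono
    intro ω
    apply pow_le_pow_right₀ hQ
    refine (card_longs_le' _ _ _).trans ?_
    rw [mul_one] at hTc
    omega
  · refine le_max_of_le_left ?_
    rcases Nat.eq_zero_or_pos K with hK0 | hK0
    · -- empty region
      subst hK0
      have hT0 : T.card = 0 := by
        rw [zero_mul, zero_mul] at hTc
        omega
      refine le_trans ?_ hC1
      rw [← avg_const (ι := ι) 1]
      apply avg_mono
      intro ω
      have h1 := card_longs_le' T (conf τ T ω) m
      rw [hT0] at h1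
      have h2 : (longs T m (conf τ T ω)).card = 0 := by omega
      rw [h2, pow_zero]
    set n := K * m with hn
    have hn1 : 1 ≤ n := Nat.mul_pos hK0 (by omega)
    set F : Finset (ℤ × ℤ) := Ico a.1 (a.1 + n) ×ˢ Ico a.2 (a.2 + n) with hF
    have hFmem : ∀ t : ℤ × ℤ, t ∈ F ↔ a.1 ≤ t.1 ∧ t.1 < a.1 + n ∧ a.2 ≤ t.2 ∧ t.2 < a.2 + n := by
      intro t
      rw [hF, mem_product, mem_Ico, mem_Ico]
      tauto
    have hnz : (n : ℤ) = (K : ℤ) * m := by rw [hn]; push_cast; rfl
    have hFne : F.Nonempty := ⟨a, (hFmem a).2 ⟨le_rfl, by omega, le_rfl, by omega⟩⟩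
    have hTF : ∀ t ∈ T, t ∈ F := by
      intro t ht
      have := hT t ht
      rw [hFmem, hnz]
      exact this
    -- transfer to the bits of the box
    set f : (ℤ → ℤ → Bool) → ℝ :=
      fun b => Q ^ (longs T m (T.filter (fun t => b t.1 t.2 = true))).card with hf
    have e1 : avg (fun ω : ι → Bool => Q ^ (longs T m (conf τ T ω)).card) =
        avg (fun ω : ι → Bool => f (bits (fun i j => τ (i, j)) ω)) := rfl
    have e2 := avg_bits_eq (ι := ι) (ι' := F) (fun i j => τ (i, j)) (selfIdx F hFne) T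
      (fun t ht t' ht' h => hτ ht ht' h)
      (fun t ht t' ht' h => selfIdx_inj hFne t (hTF t ht) t' (hTF t' ht') h) f
      (fun b b' h => by
        rw [hf]
        simp only
        congr 2
        congr 1
        apply filter_congr
        intro t ht
        rw [h t ht])
    rw [e1, e2]
    -- the bound
    have h1 : avg (fun ω : F → Bool => f (bits (selfIdx F hFne) ω)) ≤
        avg (fun ω : F → Bool => (Q ^ 2) ^ NB (bits (selfIdx F hFne) ω) a.1 a.2 n (m / 2)) := by
      apply avg_mono
      intro ω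
      rw [hf]
      simp only
      rw [← pow_mul]
      apply pow_le_pow_right₀ hQ
      apply card_longs_le (K := m / 2) _ (by omega) (by omega) (fun t ht => (hFmem t).1 (hTF t ht))
      intro t ht
      unfold sB
      simp only [mem_filter, Prod.mk.eta, ht, true_and]
      cases bits (selfIdx F hFne) ω t.1 t.2 <;> simp
    refine h1.trans (hC F n (m / 2) a.1 a.2 (selfIdx F hFne) hn1 (by omega) ?_ ?_)
    · intro i j i' j' g1 g2 g3 g4 g5 g6 g7 g8 h
      have h2 := selfIdx_inj hFne (i, j) ((hFmem _).2 ⟨g1, g2, g3, g4⟩) (i', j')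
        ((hFmem _).2 ⟨g5, g6, g7, g8⟩) h
      exact ⟨congrArg Prod.fst h2, congrArg Prod.snd h2⟩
    · have h2 : (m : ℝ) ≤ 3 * ((m / 2 : ℕ) : ℝ) := by
        have : m ≤ 3 * (m / 2) := by omega
        exact_mod_cast this
      have hK' : (0 : ℝ) < K := by exact_mod_cast hK0
      rw [hn]
      push_cast
      rw [div_mul_eq_mul_div, one_mul, div_le_iff₀ (by positivity)]
      have h3 : (0 : ℝ) ≤ ((m / 2 : ℕ) : ℝ) := by positivity
      nlinarith [mul_le_mul_of_nonneg_left h2 hK'.le]

end Full.Walk
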